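import Pool.Agent.N145.PC.Dich

/-!
Varieties dominated by products of curves of large gonality: general type, birational canonical map.
-/

set_option autoImplicit false
set_option linter.overlappingInstances false
set_option linter.unusedSectionVars false
set_option linter.unusedVariables false
set_option maxHeartbeats 4000000
set_option synthInstance.maxHeartbeats 400000

open Polynomial FF IsDedekindDomain IntermediateField Module

namespace Pool.Agent.N145.PC

open Pool.Agent.W603.LV Pool.Agent.W619.PQ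
open Pool.Agent.W602.GT (Divisorial RegAt IsPluri DerReg KodGe LogSec)
open Pool.Agent.Y184.NT (trForm trForm_pluri)

open scoped Classical

section

variable {K : Type} [Field K] [Algebra ℂ K] {n : ℕ} {F : Fin n → IntermediateField ℂ K}
  [∀ i, IsFF ℂ (F i)] {L : Type} [Field L] [Algebra ℂ L] [Algebra L K] [IsScalarTower ℂ L K]
  [FiniteDimensional L K]

theorem Js_self : Js n n = Finset.univ := by
  ext l
  simp [mem_Js]

/-- **A point of the second fibre with the same coordinates.** -/
theorem exists_second {Ω' : Type} [Field Ω'] [Algebra ℂ Ω'] [IsAlgClosed Ω']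
    {i1 i2 : AlgebraicClosure L →ₐ[ℂ] Ω'} {lam : Ω'} (hlam : lam ≠ 0) {x : ∀ i, F i}
    (hx : ∀ i, Transcendental ℂ (x i)) {D0 : ∀ i, Derivation ℂ (F i) (F i)}
    (hD0 : ∀ i, D0 i (x i) = 1) {h : K} (hh : h ≠ 0) (hm : h ∈ MF F L Finset.univ)
    (hlamT : ∀ f : ∀ i, F i, (∀ i, f i ∈ HH (D0 i)) →
      i2 (algebraMap L (AlgebraicClosure L)
        (Algebra.trace L K (h * ∏ i, algebraMap (F i) K (f i)))) =
      lam * i1 (algebraMap L (AlgebraicClosure L)
        (Algebra.trace L K (h * ∏ i, algebraMap (F i) K (f i)))))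
    {g : Fin n → ℕ} (hg : ∀ i, ∀ y : F i, Transcendental ℂ y → g i ≤ finrank ℂ⟮y⟯ (F i))
    (hs : ∀ l : Fin n, 2 * finrank (MF F L (Js n l))
      (IntermediateField.adjoin (MF F L (Js n l)) (F l : Set K)) < g l)
    (τ0 : K →ₐ[L] AlgebraicClosure L) :
    ∃ τ : K →ₐ[L] AlgebraicClosure L, ∀ (i : Fin n) (z : F i), i2 (τ z) = i1 (τ0 z) := by
  have h0 : Rl (P2 i1 i2 F L) (ev Ω' F) (fun i => (HH (D0 i) : Set (F i)))
      (C2 i1 i2 h lam) (Sum.inl τ0) ∅ := rel2_zero i1 i2 hlamT _
  have hsep := fun i => sep_F (Ω := Ω') hx hD0 (hg i)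
  have h1 := Rl.chain h0 hsep (s := n)
    (fun l hl => lt_of_le_of_lt (count2_le i1 i2 τ0 _ l) (hs l))
  rw [Js_self] at h1
  exact rel2_univ i1 i2 hlam hh hm h1

/-- some trace does not vanish -/
theorem exists_trace_ne {x : ∀ i, F i}
    (hx : ∀ i, Transcendental ℂ (x i)) {D0 : ∀ i, Derivation ℂ (F i) (F i)}
    (hD0 : ∀ i, D0 i (x i) = 1) {h : K} (hh : h ≠ 0) (hm : h ∈ MF F L Finset.univ)
    {g : Fin n → ℕ} (hg : ∀ i, ∀ y : F i, Transcendental ℂ y → g i ≤ finrank ℂ⟮y⟯ (F i))
    (hs : ∀ l : Fin n, finrank (MF F L (Js n l))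
      (IntermediateField.adjoin (MF F L (Js n l)) (F l : Set K)) < g l) :
    ∃ f : {f : ∀ i, F i // ∀ i, f i ∈ HH (D0 i)},
      Algebra.trace L K (h * ∏ i, algebraMap (F i) K (f.1 i)) ≠ 0 := by
  by_contra hT0
  push Not at hT0
  obtain ⟨τ0⟩ : Nonempty (K →ₐ[L] AlgebraicClosure L) :=
    ⟨IsAlgClosed.lift (R := L) (M := AlgebraicClosure L) (S := K)⟩
  have hT : IsScalarTower ℂ L (AlgebraicClosure L) := inferInstance
  have h0 := rel_zero (D0 := D0) (h := h) (fun f hf => hT0 ⟨f, hf⟩) τ0
  have hsep := fun i => sep_F (Ω := AlgebraicClosure L) hx hD0 (hg i)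
  have h1 := rel_chain h0 hsep (s := n) (fun l _ => hs l)
  rw [Js_self] at h1
  exact rel_univ hh hm h1

/-- **General type.** -/
theorem general_type [hess : Algebra.EssFiniteType ℂ K]
    (halg : Algebra.IsAlgebraic ↥(⨆ i, F i) K)
    (hK : Algebra.trdeg ℂ K = n) {g : Fin n → ℕ}
    (hg : ∀ i, ∀ y : F i, Transcendental ℂ y → g i ≤ finrank ℂ⟮y⟯ (F i))
    (hs : ∀ l : Fin n, 2 * finrank (MF F L (Js n l))
      (IntermediateField.adjoin (MF F L (Js n l)) (F l : Set K)) < g l) :
    KodGe ℂ L n (fun _ => False) n := by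
  have hL : Algebra.trdeg ℂ L = n := Pool.Agent.Y184.NT.trdeg_below (K := K) hK
  have hessL : Algebra.EssFiniteType ℂ L := Pool.Agent.TH466.QG.ess_below (K := K)
  choose x hx using fun i => IsFF.exists_transcendental (k := ℂ) (K := F i)
  choose D0 hD0 using fun i => exists_D (hx i)
  have hb := Pool.Agent.W619.X.basis_of_alg F halg hK x hx
  obtain ⟨y, G, h, hy, hG, hh, hm, hreg, hval⟩ := exists_trace2 (L := L) hK hL hx hb hD0
  have hm' := mem_MF_univ hm
  obtain ⟨τ0⟩ : Nonempty (K →ₐ[L] AlgebraicClosure L) :=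
    ⟨IsAlgClosed.lift (R := L) (M := AlgebraicClosure L) (S := K)⟩
  have hT : IsScalarTower ℂ L (AlgebraicClosure L) := inferInstance
  obtain ⟨f1, hf1⟩ := exists_trace_ne hx hD0 hh hm' hg
    (fun l => lt_of_le_of_lt (by omega) (hs l))
  obtain ⟨T, hTdef⟩ : ∃ T : {f : ∀ i, F i // ∀ i, f i ∈ HH (D0 i)} → L,
    ∀ f, T f = Algebra.trace L K (h * ∏ i, algebraMap (F i) K (f.1 i)) := ⟨_, fun _ => rfl⟩
  obtain ⟨Ω', iF, iA, iC, i1, i2, lam, hlam, hlamT, hpts⟩ := exists_pts T (f1 := f1)
    (by rw [hTdef]; exact hf1)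
  obtain ⟨τ, hτ⟩ := exists_second hlam hx hD0 hh hm' (fun f hf => by
    have := hlamT ⟨f, hf⟩
    rw [hTdef] at this
    exact this) hg hs τ0
  refine kodGe_of_alg hL hG T ⟨f1, by rw [hTdef]; exact hf1⟩ (fun f P hP => ?_)
    (trdeg_adj hb.1) fun l => ?_
  · rw [hTdef]
    exact hreg f.1 f.2 P hP
  · exact alg_back τ0 (hpts _ _ (hτ l (x l)).symm)

/-- the ring homomorphisms which agree on the factors -/
theorem hom_ext_sup {Ω : Type} [Field Ω] (hsup : ⨆ i, F i = ⊤) (a b : K →+* Ω)
    (hab : ∀ i (z : F i), a z = b z) (hC : ∀ c : ℂ, a (algebraMap ℂ K c) = b (algebraMap ℂ K c)) :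
    a = b := by
  let C0 : IntermediateField ℂ K :=
    { carrier := {z | a z = b z}
      mul_mem' := fun {f g} hf hg => by
        change a (f * g) = b (f * g)
        rw [map_mul, map_mul, show a f = b f from hf, show a g = b g from hg]
      add_mem' := fun {f g} hf hg => by
        change a (f + g) = b (f + g)
        rw [map_add, map_add, show a f = b f from hf, show a g = b g from hg]
      algebraMap_mem' := hC
      inv_mem' := fun f hf => by
        change a f⁻¹ = b f⁻¹
        rw [map_inv₀, map_inv₀, show a f = b f from hf] }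
  have h1 : ⨆ i, F i ≤ C0 := iSup_le fun i z hz => hab i ⟨z, hz⟩
  rw [hsup] at h1
  exact RingHom.ext fun z => h1 (IntermediateField.mem_top (x := z))

/-- **The canonical map is birational.** -/
theorem birational [hess : Algebra.EssFiniteType ℂ K] (hsup : ⨆ i, F i = ⊤)
    (hK : Algebra.trdeg ℂ K = n) {g : Fin n → ℕ}
    (hg : ∀ i, ∀ y : F i, Transcendental ℂ y → g i ≤ finrank ℂ⟮y⟯ (F i))
    (hs : ∀ l : Fin n, 2 * finrank (MF F L (Js n l))
      (IntermediateField.adjoin (MF F L (Js n l)) (F l : Set K)) < g l) :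
    ∃ (I : Type) (ω : I → (Fin n → Derivation ℂ L L) → L) (D : Fin n → Derivation ℂ L L),
      (∀ i, IsPluri 1 (ω i)) ∧ (∀ i (P : Place ℂ L), Divisorial n P → RegAt P (ω i)) ∧
      (∃ i, ω i D ≠ 0) ∧ Rt (fun i => ω i D) = ⊤ := by
  have hL : Algebra.trdeg ℂ L = n := Pool.Agent.Y184.NT.trdeg_below (K := K) hK
  have hessL : Algebra.EssFiniteType ℂ L := Pool.Agent.TH466.QG.ess_below (K := K)
  have halg := Pool.Agent.W619.X.alg_of_sup F hsup
  choose x hx using fun i => IsFF.exists_transcendental (k := ℂ) (K := F i)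
  choose D0 hD0 using fun i => exists_D (hx i)
  have hb := Pool.Agent.W619.X.basis_of_alg F halg hK x hx
  obtain ⟨y, G, h, hy, hG, hh, hm, hreg, hval⟩ := exists_trace2 (L := L) hK hL hx hb hD0
  have hm' := mem_MF_univ hm
  obtain ⟨τ0⟩ : Nonempty (K →ₐ[L] AlgebraicClosure L) :=
    ⟨IsAlgClosed.lift (R := L) (M := AlgebraicClosure L) (S := K)⟩
  have hT : IsScalarTower ℂ L (AlgebraicClosure L) := inferInstance
  obtain ⟨f1, hf1⟩ := exists_trace_ne hx hD0 hh hm' hg
    (fun l => lt_of_le_of_lt (by omega) (hs l))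
  obtain ⟨T, hTdef⟩ : ∃ T : {f : ∀ i, F i // ∀ i, f i ∈ HH (D0 i)} → L,
    ∀ f, T f = Algebra.trace L K (h * ∏ i, algebraMap (F i) K (f.1 i)) := ⟨_, fun _ => rfl⟩
  have hT1 : T f1 ≠ 0 := by rw [hTdef]; exact hf1
  obtain ⟨Ω', iF, iA, iC, i1, i2, lam, hlam, hlamT, hpts⟩ := exists_pts T (f1 := f1) hT1
  obtain ⟨τ, hτ⟩ := exists_second hlam hx hD0 hh hm' (fun f hf => by
    have := hlamT ⟨f, hf⟩
    rw [hTdef] at this
    exact this) hg hs τ0
  -- everything is algebraic over the field of the ratios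
  obtain ⟨N, hN⟩ : ∃ N, N = Rt T := ⟨_, rfl⟩
  have hKN : Algebra.IsAlgebraic N K := by
    have h1 : ⨆ i, F i ≤ (algebraicClosure N K).restrictScalars ℂ := by
      refine iSup_le fun i z hz => ?_
      rw [mem_restrictScalars, mem_algebraicClosure_iff, hN]
      exact alg_back τ0 (hpts _ _ (hτ i ⟨z, hz⟩).symm)
    rw [hsup] at h1
    exact ⟨fun z => mem_algebraicClosure_iff.1 (h1 (IntermediateField.mem_top (x := z)))⟩
  have hLN : Algebra.IsAlgebraic N L := by
    constructor
    intro w
    obtain ⟨p, hp0, hp⟩ := hKN.isAlgebraic (algebraMap L K w)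
    refine ⟨p, hp0, ?_⟩
    apply (algebraMap L K).injective
    rw [map_zero, ← hp, Polynomial.aeval_def, Polynomial.aeval_def, Polynomial.hom_eval₂]
    rfl
  have hΩN : Algebra.IsAlgebraic N (AlgebraicClosure L) :=
    Algebra.IsAlgebraic.trans N L (AlgebraicClosure L)
  have hcl : IsAlgClosure N (AlgebraicClosure L) := ⟨inferInstance, hΩN⟩
  have hchar : CharZero N := charZero_of_injective_algebraMap (algebraMap ℂ N).injective
  have hgal : IsGalois N (AlgebraicClosure L) := inferInstance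
  -- the canonical map is injective on points
  have hfix : ∀ w : L, w ∈ N := by
    intro w
    have h1 : algebraMap L (AlgebraicClosure L) w ∈
        Set.range (algebraMap N (AlgebraicClosure L)) := by
      rw [InfiniteGalois.mem_range_algebraMap_iff_fixed]
      intro θ
      have hθN : ∀ c ∈ N, θ (algebraMap L (AlgebraicClosure L) c) =
          algebraMap L (AlgebraicClosure L) c := fun c hc => θ.commutes ⟨c, hc⟩
      let j2 : AlgebraicClosure L →ₐ[ℂ] AlgebraicClosure L :=
        { (θ : AlgebraicClosure L →+* AlgebraicClosure L) with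
          commutes' := fun c => by
            have h2 := hθN (algebraMap ℂ L c) (N.algebraMap_mem c)
            change θ (algebraMap ℂ (AlgebraicClosure L) c) = algebraMap ℂ (AlgebraicClosure L) c
            rw [IsScalarTower.algebraMap_apply ℂ L (AlgebraicClosure L)]
            exact h2 }
      have hne : algebraMap L (AlgebraicClosure L) (T f1) ≠ 0 := by
        rw [_root_.map_ne_zero]
        exact hT1
      have hj2 : ∀ z, j2 z = θ z := fun _ => rfl
      have hne2 : j2 (algebraMap L (AlgebraicClosure L) (T f1)) ≠ 0 := by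
        rw [_root_.map_ne_zero]
        exact hne
      obtain ⟨τ', hτ'⟩ := exists_second (i1 := AlgHom.id ℂ (AlgebraicClosure L)) (i2 := j2)
        (lam := j2 (algebraMap L (AlgebraicClosure L) (T f1)) /
          algebraMap L (AlgebraicClosure L) (T f1)) (div_ne_zero hne2 hne) hx hD0 hh hm'
        (fun f hf => by
          have h5 : j2 (algebraMap L (AlgebraicClosure L) (T ⟨f, hf⟩ / T f1)) =
              algebraMap L (AlgebraicClosure L) (T ⟨f, hf⟩ / T f1) := by
            rw [hj2]
            refine hθN _ ?_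
            rw [hN]
            exact ratio_mem T _ f1
          rw [map_div₀, map_div₀, div_eq_div_iff hne2 hne, hTdef ⟨f, hf⟩] at h5
          rw [AlgHom.id_apply, div_mul_eq_mul_div, eq_div_iff hne]
          linear_combination h5) hg hs τ0
      have h6 : ((j2 : AlgebraicClosure L →+* AlgebraicClosure L).comp
          (τ' : K →+* AlgebraicClosure L)) = (τ0 : K →+* AlgebraicClosure L) := by
        refine hom_ext_sup hsup _ _ (fun i z => hτ' i z) fun c => ?_
        change j2 (τ' (algebraMap ℂ K c)) = τ0 (algebraMap ℂ K c)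
        rw [IsScalarTower.algebraMap_apply ℂ L K, AlgHom.commutes, AlgHom.commutes, hj2]
        exact hθN _ (N.algebraMap_mem c)
      have h7 := DFunLike.congr_fun h6 (algebraMap L K w)
      change j2 (τ' (algebraMap L K w)) = τ0 (algebraMap L K w) at h7
      rw [AlgHom.commutes, AlgHom.commutes, hj2] at h7
      exact h7
    obtain ⟨c, hc⟩ := h1
    have h2 : algebraMap L (AlgebraicClosure L) (c : L) = algebraMap L (AlgebraicClosure L) w := hc
    rw [← (algebraMap L (AlgebraicClosure L)).injective h2]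
    exact c.2
  have hθE : ∀ t, trForm y t G = t := by
    intro t
    have h1 : (Matrix.of fun i j => G i (y j) : Matrix (Fin n) (Fin n) L) = 1 := by
      ext i j
      rw [Matrix.of_apply, hG, Matrix.one_apply]
    rw [trForm, h1, Matrix.det_one, one_mul]
  refine ⟨{f : ∀ i, F i // ∀ i, f i ∈ HH (D0 i)}, fun f => trForm y (T f), G,
    fun f => trForm_pluri y _, fun f P hP => ?_, ⟨f1, ?_⟩, ?_⟩
  · change RegAt P (trForm y (T f))
    rw [hTdef]
    exact hreg f.1 f.2 P hP
  · change trForm y (T f1) G ≠ 0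
    rw [hθE]
    exact hT1
  · simp only [hθE]
    rw [eq_top_iff]
    intro w _
    rw [hN] at hfix
    exact hfix w

end

end Pool.Agent.N145.PC
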