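import Mathlib

/-!
Relations between products of functions on the coordinates of a finite set of points.
-/

set_option autoImplicit false
set_option linter.overlappingInstances false
set_option linter.unusedSectionVars false

namespace Pool.Agent.N145.PC

open Module

section

variable {Ω : Type} [Field Ω]

/-- orthogonal subspaces -/
theorem finrank_add_le {N : Type} [Fintype N] (U V : Submodule Ω (N → Ω))
    (h : ∀ u ∈ U, ∀ v ∈ V, ∑ τ, u τ * v τ = 0) : finrank Ω U + finrank Ω V ≤ Fintype.card N := by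
  classical
  let b := Pi.basisFun Ω N
  have h1 := Subspace.finrank_add_finrank_dualAnnihilator_eq U
  rw [Module.finrank_pi] at h1
  have h2 : finrank Ω V ≤ finrank Ω U.dualAnnihilator := by
    have h3 : finrank Ω (V.map (b.toDualEquiv : (N → Ω) →ₗ[Ω] Dual Ω (N → Ω))) = finrank Ω V :=
      LinearEquiv.finrank_map_eq b.toDualEquiv V
    rw [← h3]
    apply Submodule.finrank_mono
    rintro _ ⟨v, hv, rfl⟩
    rw [Submodule.mem_dualAnnihilator]
    intro u hu
    have h4 : (b.toDualEquiv : (N → Ω) →ₗ[Ω] Dual Ω (N → Ω)) v u = ∑ τ, u τ * v τ := by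
      change b.toDual v u = _
      have h5 : u = ∑ τ, u τ • b τ := by
        conv_lhs => rw [← b.sum_repr u]
        rfl
      conv_lhs => rw [h5]
      rw [map_sum]
      refine Finset.sum_congr rfl fun τ _ => ?_
      rw [map_smul, smul_eq_mul, Basis.toDual_apply_left]
      rfl
    rw [h4]
    exact h u hu v hv
  omega

/-- fewer than `g` points impose independent conditions on the functions in `H` -/
def Sep {S X : Type} (e : X → S → Ω) (H : Set X) (g : ℕ) : Prop :=
  ∀ A : Finset S, A.card < g → ∀ c : S → Ω, (∀ f ∈ H, ∑ σ ∈ A, c σ * e f σ = 0) →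
    ∀ σ ∈ A, c σ = 0

theorem le_finrank {N S X : Type} [Fintype N] [DecidableEq S] (p : N → S) (e : X → S → Ω)
    (H : Set X) (G : N → Ω) (hG : ∀ τ, G τ ≠ 0) {g : ℕ} (hsep : Sep e H g)
    (hcard : g ≤ (Finset.univ.image p).card) :
    g ≤ finrank Ω (Submodule.span Ω ((fun f => fun τ => G τ * e f (p τ)) '' H)) + 1 := by
  classical
  by_contra hcon
  push Not at hcon
  obtain ⟨A, hA, hAcard⟩ := Finset.exists_subset_card_eq (show g - 1 ≤ (Finset.univ.image p).card by
    omega)
  have hs : ∀ σ : A, ∃ τ, p τ = σ := by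
    rintro ⟨σ, hσ⟩
    obtain ⟨τ, -, hτ⟩ := Finset.mem_image.1 (hA hσ)
    exact ⟨τ, hτ⟩
  choose s hs using hs
  obtain ⟨U, hU⟩ : ∃ U, U = Submodule.span Ω ((fun f => fun τ => G τ * e f (p τ)) '' H) := ⟨_, rfl⟩
  rw [← hU] at hcon
  let R : (N → Ω) →ₗ[Ω] (A → Ω) := LinearMap.funLeft Ω Ω s
  have hlt : U.map R < ⊤ := by
    apply lt_top_iff_ne_top.2
    intro htop
    have h1 : finrank Ω (U.map R) = g - 1 := by
      rw [htop, finrank_top, Module.finrank_pi, Fintype.card_coe, hAcard]
    have h2 := Submodule.finrank_map_le R U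
    omega
  obtain ⟨ℓ, hℓ, hle⟩ := Submodule.exists_le_ker_of_lt_top _ hlt
  apply hℓ
  have hℓe : ∀ v : A → Ω, ℓ v = ∑ σ, ℓ (Pi.single σ 1) * v σ := by
    intro v
    conv_lhs => rw [← (Pi.basisFun Ω A).sum_repr v]
    rw [map_sum]
    refine Finset.sum_congr rfl fun σ _ => ?_
    rw [map_smul, smul_eq_mul, mul_comm, Pi.basisFun_apply, Pi.basisFun_repr]
  have h1 := hsep A (by omega) (fun σ => if h : σ ∈ A then
    ℓ (Pi.single ⟨σ, h⟩ 1) * G (s ⟨σ, h⟩) else 0) (by
    intro f hf
    have h2 : R (fun τ => G τ * e f (p τ)) ∈ U.map R :=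
      Submodule.mem_map_of_mem (by rw [hU]; exact Submodule.subset_span ⟨f, hf, rfl⟩)
    have h3 : ℓ (R (fun τ => G τ * e f (p τ))) = 0 := hle h2
    rw [hℓe] at h3
    rw [← h3, ← Finset.sum_coe_sort]
    refine Finset.sum_congr rfl fun σ _ => ?_
    rw [dif_pos σ.2]
    change _ = _ * (G (s σ) * e f (p (s σ)))
    rw [hs]
    ring)
  ext σ
  have h2 := h1 σ σ.2
  simp only [σ.2, dif_pos] at h2
  rw [LinearMap.comp_apply, LinearMap.zero_comp, LinearMap.zero_apply]
  exact (mul_eq_zero.1 h2).resolve_right (hG _)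

variable {T : Type} [Fintype T] {ι : Type} [Fintype ι] [DecidableEq ι] {S X : ι → Type}
  [∀ i, DecidableEq (S i)]

/-- the points with the same coordinates in `J` as `τ0` -/
def SJ (p : ∀ i, T → S i) (τ0 : T) (J : Finset ι) : Finset T :=
  Finset.univ.filter fun τ => ∀ i ∈ J, p i τ = p i τ0

/-- the relation between the values at the points with the same coordinates in `J` as `τ0` -/
def Rl (p : ∀ i, T → S i) (e : ∀ i, X i → S i → Ω) (H : ∀ i, Set (X i)) (c : T → Ω) (τ0 : T)
    (J : Finset ι) : Prop :=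
  ∀ f : ∀ i, X i, (∀ i ∉ J, f i ∈ H i) →
    ∑ τ ∈ SJ p τ0 J, c τ * ∏ i ∈ Jᶜ, e i (f i) (p i τ) = 0

variable {p : ∀ i, T → S i} {e : ∀ i, X i → S i → Ω} {H : ∀ i, Set (X i)} {c : T → Ω} {τ0 : T}

theorem mem_SJ {J : Finset ι} {τ : T} : τ ∈ SJ p τ0 J ↔ ∀ i ∈ J, p i τ = p i τ0 := by
  simp [SJ]

theorem self_SJ (J : Finset ι) : τ0 ∈ SJ p τ0 J := mem_SJ.2 fun _ _ => rfl

theorem SJ_anti {J J' : Finset ι} (h : J ⊆ J') : SJ p τ0 J' ⊆ SJ p τ0 J := by
  intro τ hτ
  rw [mem_SJ] at hτ ⊢
  exact fun i hi => hτ i (h hi)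

/-- one more coordinate -/
theorem Rl.step {J : Finset ι} (hQ : Rl p e H c τ0 J) {l : ι} (hl : l ∉ J) {g : ℕ}
    (hsep : Sep (e l) (H l) g) (hg : ((SJ p τ0 J).image (p l)).card < g) :
    Rl p e H c τ0 (insert l J) := by
  classical
  intro f hf
  have h1 := hsep _ hg (fun σ => ∑ τ ∈ (SJ p τ0 J).filter (fun τ => p l τ = σ),
    c τ * ∏ i ∈ (insert l J)ᶜ, e i (f i) (p i τ)) (by
    intro g hgH
    have h2 := hQ (Function.update f l g) (by
      intro i hi
      by_cases h : i = l
      · subst h
        rw [Function.update_self]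
        exact hgH
      · rw [Function.update_of_ne h]
        exact hf i (by
          rw [Finset.mem_insert, not_or]
          exact ⟨h, hi⟩))
    rw [← Finset.sum_fiberwise_of_maps_to (s := SJ p τ0 J) (t := (SJ p τ0 J).image (p l))
      (g := p l) (fun τ hτ => Finset.mem_image_of_mem _ hτ)] at h2
    rw [← h2]
    refine Finset.sum_congr rfl fun σ _ => ?_
    rw [Finset.sum_mul]
    refine Finset.sum_congr rfl fun τ hτ => ?_
    have h3 : Jᶜ = insert l (insert l J)ᶜ := by
      ext i
      simp only [Finset.mem_compl, Finset.mem_insert]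
      by_cases h : i = l
      · subst h
        simp [hl]
      · simp [h]
    rw [h3, Finset.prod_insert (by simp), Function.update_self, (Finset.mem_filter.1 hτ).2]
    have h4 : ∏ i ∈ (insert l J)ᶜ, e i (Function.update f l g i) (p i τ) =
        ∏ i ∈ (insert l J)ᶜ, e i (f i) (p i τ) := by
      refine Finset.prod_congr rfl fun i hi => ?_
      have : i ≠ l := by
        rintro rfl
        simp at hi
      rw [Function.update_of_ne this]
    rw [h4]
    ring) (p l τ0) (Finset.mem_image_of_mem _ (self_SJ J))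
  have h5 : SJ p τ0 (insert l J) = (SJ p τ0 J).filter (fun τ => p l τ = p l τ0) := by
    ext τ
    rw [Finset.mem_filter, mem_SJ, mem_SJ]
    constructor
    · intro h
      exact ⟨fun i hi => h i (Finset.mem_insert_of_mem hi), h l (Finset.mem_insert_self _ _)⟩
    · rintro ⟨h, h'⟩ i hi
      rcases Finset.mem_insert.1 hi with rfl | hi
      · exact h'
      · exact h i hi
  rw [h5]
  exact h1

/-- many good coordinates -/
theorem Rl.extend {J : Finset ι} (hQ : Rl p e H c τ0 J) (G : Finset ι) (g : ι → ℕ)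
    (hsep : ∀ l, Sep (e l) (H l) (g l))
    (hg : ∀ l ∈ G, l ∉ J → ((SJ p τ0 J).image (p l)).card < g l) :
    Rl p e H c τ0 (J ∪ G) := by
  classical
  induction G using Finset.induction_on with
  | empty => simpa using hQ
  | insert l G hlG ih =>
    have h1 := ih fun l hl => hg l (Finset.mem_insert_of_mem hl)
    by_cases hl : l ∈ J ∪ G
    · have h2 : J ∪ insert l G = J ∪ G := by
        rw [Finset.union_insert, Finset.insert_eq_of_mem hl]
      rw [h2]
      exact h1
    · rw [Finset.union_insert]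
      refine h1.step hl (hsep l) (lt_of_le_of_lt (Finset.card_le_card
        (Finset.image_subset_image (SJ_anti Finset.subset_union_left))) (hg l
          (Finset.mem_insert_self _ _) fun h => hl (Finset.mem_union_left _ h)))

/-- two bad coordinates -/
theorem Rl.pair {J : Finset ι} (hQ : Rl p e H c τ0 J) (hc : ∀ τ, c τ ≠ 0) {i j : ι} (hij : i ≠ j)
    (hi : i ∉ J) (hj : j ∉ J) {gi gj : ℕ} (hsi : Sep (e i) (H i) gi) (hsj : Sep (e j) (H j) gj)
    (f0 : ∀ l, X l) (hf0 : ∀ l ∉ J, f0 l ∈ H l) (hne : ∀ l τ, e l (f0 l) (p l τ) ≠ 0)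
    (hgi : gi ≤ ((SJ p τ0 J).image (p i)).card) (hgj : gj ≤ ((SJ p τ0 J).image (p j)).card) :
    gi + gj ≤ (SJ p τ0 J).card + 2 := by
  classical
  obtain ⟨G, hG⟩ : ∃ G : SJ p τ0 J → Ω, G = fun τ : SJ p τ0 J => c τ *
    ∏ l ∈ (Jᶜ.erase i).erase j, e l (f0 l) (p l τ) := ⟨_, rfl⟩
  have hG0 : ∀ τ, G τ ≠ 0 := by
    intro τ
    rw [hG]
    exact mul_ne_zero (hc _) (Finset.prod_ne_zero_iff.2 fun l _ => hne l _)
  have himg : ∀ l, (Finset.univ.image fun τ : SJ p τ0 J => p l τ) = (SJ p τ0 J).image (p l) := by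
    intro l
    ext σ
    simp
  have h1 := le_finrank (fun τ : SJ p τ0 J => p i τ) (e i) (H i) (fun _ => (1 : Ω))
    (fun _ => one_ne_zero) hsi (by rw [himg]; exact hgi)
  have h2 := le_finrank (fun τ : SJ p τ0 J => p j τ) (e j) (H j) G hG0 hsj
    (by rw [himg]; exact hgj)
  have h3 := finrank_add_le (Submodule.span Ω ((fun f => fun τ : SJ p τ0 J =>
    (1 : Ω) * e i f (p i τ)) '' H i)) (Submodule.span Ω ((fun f => fun τ : SJ p τ0 J =>
    G τ * e j f (p j τ)) '' H j)) (by
    intro u hu v hv
    induction hu using Submodule.span_induction with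
    | mem u hu =>
      obtain ⟨f, hf, rfl⟩ := hu
      induction hv using Submodule.span_induction with
      | mem v hv =>
        obtain ⟨f', hf', rfl⟩ := hv
        have h4 := hQ (Function.update (Function.update f0 i f) j f') (by
          intro l hl
          by_cases h : l = j
          · subst h
            rw [Function.update_self]
            exact hf'
          · rw [Function.update_of_ne h]
            by_cases h' : l = i
            · subst h'
              rw [Function.update_self]
              exact hf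
            · rw [Function.update_of_ne h']
              exact hf0 l hl)
        rw [← Finset.sum_coe_sort] at h4
        rw [← h4]
        refine Finset.sum_congr rfl fun τ _ => ?_
        have hi' : i ∈ Jᶜ := by simpa using hi
        have hj' : j ∈ Jᶜ.erase i := Finset.mem_erase.2 ⟨hij.symm, by simpa using hj⟩
        rw [← Finset.mul_prod_erase _ _ hi', ← Finset.mul_prod_erase _ _ hj',
          Function.update_of_ne hij, Function.update_self, Function.update_self]
        have h5 : ∏ l ∈ (Jᶜ.erase i).erase j, e l (Function.update (Function.update f0 i f) j f' l)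
            (p l τ) = ∏ l ∈ (Jᶜ.erase i).erase j, e l (f0 l) (p l τ) := by
          refine Finset.prod_congr rfl fun l hl => ?_
          rw [Finset.mem_erase, Finset.mem_erase] at hl
          rw [Function.update_of_ne hl.1, Function.update_of_ne hl.2.1]
        rw [h5, hG]
        ring
      | zero => simp
      | add v w _ _ hv hw =>
        simp only [Pi.add_apply, mul_add, Finset.sum_add_distrib] at hv hw ⊢
        rw [hv, hw, add_zero]
      | smul a v _ hv =>
        have h5 : ∀ τ : SJ p τ0 J, 1 * e i f (p i τ) * (a • v) τ =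
            a * (1 * e i f (p i τ) * v τ) := by
          intro τ
          rw [Pi.smul_apply, smul_eq_mul]
          ring
        rw [Finset.sum_congr rfl fun τ _ => h5 τ, ← Finset.mul_sum, hv, mul_zero]
    | zero => simp
    | add u w _ _ hu hw =>
      simp only [Pi.add_apply, add_mul, Finset.sum_add_distrib]
      rw [hu, hw, add_zero]
    | smul a u _ hu =>
      have h5 : ∀ τ : SJ p τ0 J, (a • u) τ * v τ = a * (u τ * v τ) := by
        intro τ
        rw [Pi.smul_apply, smul_eq_mul]
        ring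
      rw [Finset.sum_congr rfl fun τ _ => h5 τ, ← Finset.mul_sum, hu, mul_zero])
  rw [Fintype.card_coe] at h3
  omega

/-- **All but one coordinate.** -/
theorem Rl.all_but_one {J : Finset ι} (hQ : Rl p e H c τ0 J) (hc : ∀ τ, c τ ≠ 0) (g : ι → ℕ)
    (hsep : ∀ l, Sep (e l) (H l) (g l)) (f0 : ∀ l, X l) (hf0 : ∀ l ∉ J, f0 l ∈ H l)
    (hne : ∀ l τ, e l (f0 l) (p l τ) ≠ 0)
    (hpair : ∀ i j, i ∉ J → j ∉ J → i ≠ j → ((SJ p τ0 J).image (p i)).card < g i ∨
      ((SJ p τ0 J).image (p j)).card < g j ∨ (SJ p τ0 J).card + 3 ≤ g i + g j) :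
    Rl p e H c τ0 Finset.univ ∨ ∃ i, Rl p e H c τ0 (Finset.univ.erase i) := by
  classical
  have h1 := hQ.extend (Jᶜ.filter fun l => ((SJ p τ0 J).image (p l)).card < g l) g hsep
    (fun l hl _ => (Finset.mem_filter.1 hl).2)
  by_cases h : ∃ i, i ∉ J ∧ g i ≤ ((SJ p τ0 J).image (p i)).card
  · obtain ⟨i, hi, hgi⟩ := h
    right
    refine ⟨i, ?_⟩
    have h2 : J ∪ (Jᶜ.filter fun l => ((SJ p τ0 J).image (p l)).card < g l) =
        Finset.univ.erase i := by
      ext j
      rw [Finset.mem_union, Finset.mem_filter, Finset.mem_compl, Finset.mem_erase]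
      constructor
      · rintro (hj | ⟨hj, hj'⟩)
        · exact ⟨fun h => hi (h ▸ hj), Finset.mem_univ _⟩
        · refine ⟨?_, Finset.mem_univ _⟩
          rintro rfl
          omega
      · rintro ⟨hji, -⟩
        by_cases hj : j ∈ J
        · exact Or.inl hj
        · right
          refine ⟨hj, ?_⟩
          by_contra hcon
          push Not at hcon
          have h3 := hQ.pair hc hji hj hi (hsep j) (hsep i) f0 hf0 hne hcon hgi
          rcases hpair j i hj hi hji with h4 | h4 | h4 <;> omega
    rwa [h2] at h1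
  · left
    push Not at h
    have h2 : J ∪ (Jᶜ.filter fun l => ((SJ p τ0 J).image (p l)).card < g l) = Finset.univ := by
      ext j
      rw [Finset.mem_union, Finset.mem_filter, Finset.mem_compl]
      refine ⟨fun _ => Finset.mem_univ _, fun _ => ?_⟩
      by_cases hj : j ∈ J
      · exact Or.inl hj
      · exact Or.inr ⟨hj, h j hj⟩
    rwa [h2] at h1

end

end Pool.Agent.N145.PC
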