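import Pool.Agent.N145.PC.Spec
import Pool.Agent.N162.BC.Base2
import Pool.Agent.R882.KB

/-!
The regular differentials of a curve after an extension of the constant field.
-/

set_option autoImplicit false
set_option linter.overlappingInstances false
set_option linter.unusedSectionVars false

open Polynomial FF IsDedekindDomain IntermediateField

namespace Pool.Agent.N145.PC

open Pool.Agent.W603.LV Pool.Agent.W619.PQ

section

variable {k F0 Λ E : Type} [Field k] [Field F0] [Field Λ] [Field E] [Algebra k F0] [Algebra k Λ]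
  [Algebra Λ E] [Algebra F0 E] [Algebra k E] [IsScalarTower k Λ E] [IsScalarTower k F0 E]
  [CharZero k] [IsAlgClosed k] [IsFF k F0] [CharZero Λ] [IsAlgClosed Λ] [IsFF Λ E]

omit [IsScalarTower k F0 E] in
/-- a place of `E` as a place over `k` -/
theorem exists_rc (Q : Place Λ E) : ∃ Q' : Place k E, Q'.ord = Q.ord := by
  refine ⟨{ ord := Q.ord
            ord_zero := Q.ord_zero
            ord_mul := Q.ord_mul
            ord_add := Q.ord_add
            ord_const := ?_
            surj := Q.surj }, rfl⟩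
  intro c hc
  rw [IsScalarTower.algebraMap_apply k Λ E]
  exact Q.ord_const (by simpa using hc)

/-- a place of `E` is trivial on `F0` or over a place of `F0` -/
theorem over_or (Q : Place Λ E) : (∀ v : F0, Q.ord (algebraMap F0 E v) = 0) ∨
    ∃ (P : Place k F0) (e : ℕ), 0 < e ∧ ∀ v : F0, Q.ord (algebraMap F0 E v) = e * P.ord v := by
  by_cases h : ∀ v : F0, Q.ord (algebraMap F0 E v) = 0
  · exact Or.inl h
  · right
    push Not at h
    obtain ⟨Q', hQ'⟩ := exists_rc (k := k) Q
    obtain ⟨e, P, hP⟩ := exists_over (K := F0) Q' (by rw [hQ']; exact h)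
    exact ⟨P, e, hP.1, fun v => by rw [← hQ']; exact hP.2 v⟩

/-- **Places above.** -/
theorem exists_above (htr : ∀ z : F0, Transcendental k z → Transcendental Λ (algebraMap F0 E z))
    (P : Place k F0) : ∃ (Q : Place Λ E) (e : ℕ), 0 < e ∧
      ∀ v : F0, Q.ord (algebraMap F0 E v) = e * P.ord v := by
  obtain ⟨h, hP, hother⟩ := Pool.Agent.N162.BC.exists_pole P
  have ht : Transcendental k h := P.transcendental_of_ord_ne (by omega)
  have ht' := htr h ht
  have hfin : FiniteDimensional Λ⟮algebraMap F0 E h⟯ E := IsFF.finite ht'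
  obtain ⟨S, hS, hS2⟩ := poles (k := Λ) (K := E) ht'
  have hpos : 0 < Module.finrank Λ⟮algebraMap F0 E h⟯ E := Module.finrank_pos
  obtain ⟨Q, hQ⟩ : S.Nonempty := by
    rw [Finset.nonempty_iff_ne_empty]
    rintro rfl
    rw [Finset.sum_empty] at hS2
    omega
  have hQh := (hS Q).1 hQ
  rcases over_or (k := k) (F0 := F0) Q with h1 | ⟨P', e, he, hv⟩
  · rw [h1] at hQh
    omega
  · refine ⟨Q, e, he, fun v => ?_⟩
    have h2 : P' = P := by
      by_contra hne
      have h3 := hother P' hne
      rw [hv] at hQh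
      have h4 : (0 : ℤ) ≤ e * P'.ord h := by positivity
      omega
    rw [hv, h2]

theorem ge_above {P : Place k F0} {Q : Place Λ E} {e : ℕ} (he : 0 < e)
    (hv : ∀ v : F0, Q.ord (algebraMap F0 E v) = e * P.ord v) {N : ℤ} {v : F0} (h : Ge P N v) :
    Ge Q (e * N) (algebraMap F0 E v) := by
  rcases h with h | h
  · left
    rw [h, map_zero]
  · right
    rw [hv]
    have : (0 : ℤ) < e := by exact_mod_cast he
    nlinarith

/-- there are infinitely many places -/
theorem exists_place_notMem {Z : Set (Place k F0)} (hZ : Z.Finite) : ∃ P : Place k F0, P ∉ Z := by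
  obtain ⟨x, hx⟩ := IsFF.exists_transcendental (k := k) (K := F0)
  have h1 : ∀ c : k, ∃ P : Place k F0, 0 < P.ord (x - algebraMap k F0 c) := by
    intro c
    have ht : Transcendental k (x - algebraMap k F0 c) := by
      intro h
      apply hx
      have h2 := h.add (isAlgebraic_algebraMap (A := F0) c)
      rwa [sub_add_cancel] at h2
    have hfin := IsFF.finite ht
    obtain ⟨S, hS, -, hS2⟩ := zeros (k := k) (K := F0) ht
    have hpos : 0 < Module.finrank k⟮x - algebraMap k F0 c⟯ F0 := Module.finrank_pos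
    obtain ⟨P, hP⟩ : S.Nonempty := by
      rw [Finset.nonempty_iff_ne_empty]
      rintro rfl
      rw [Finset.sum_empty] at hS2
      omega
    exact ⟨P, (hS P).1 hP⟩
  choose P hP using h1
  have hinj : Function.Injective P := by
    intro c d hcd
    have h2 : Ge (P c) 1 (x - algebraMap k F0 c) := Or.inr (hP c)
    have h3 : Ge (P c) 1 (x - algebraMap k F0 d) := by
      rw [hcd]
      exact Or.inr (hP d)
    have h4 := h2.sub h3
    have h5 : x - algebraMap k F0 c - (x - algebraMap k F0 d) = algebraMap k F0 (d - c) := by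
      rw [map_sub]
      ring
    rw [h5] at h4
    exact (sub_eq_zero.1 (const_eq_zero _ h4)).symm
  obtain ⟨Q, ⟨c, rfl⟩, hQ⟩ := (Set.infinite_range_of_injective hinj).exists_notMem_finite hZ
  exact ⟨P c, hQ⟩

/-- **Linear disjointness.** -/
theorem lin_indep (htr : ∀ z : F0, Transcendental k z → Transcendental Λ (algebraMap F0 E z))
    {ι : Type} (v : ι → F0) (hv : LinearIndependent k v) :
    LinearIndependent Λ (fun i => algebraMap F0 E (v i)) := by
  classical
  rw [linearIndependent_iff']
  intro s g hg i hi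
  refine (Module.forall_dual_apply_eq_zero_iff k (g i)).1 fun ℓ => ?_
  obtain ⟨f, hf⟩ : ∃ f : F0, f = ∑ i ∈ s, ℓ (g i) • v i := ⟨_, rfl⟩
  suffices hf0 : f = 0 by
    exact (linearIndependent_iff'.1 hv) s (fun i => ℓ (g i)) (by rw [← hf, hf0]) i hi
  by_contra hne
  have hZ : ({P : Place k F0 | P.ord f ≠ 0} ∪ ⋃ i ∈ (s : Set ι), {P : Place k F0 |
      P.ord (v i) ≠ 0}).Finite :=
    (finite_support (k := k) f).union (s.finite_toSet.biUnion fun i _ =>
      finite_support (k := k) (v i))
  obtain ⟨P, hP⟩ := exists_place_notMem hZ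
  rw [Set.mem_union, not_or] at hP
  have hPf : P.ord f = 0 := by
    by_contra h
    exact hP.1 h
  have hPv : ∀ i ∈ s, P.ord (v i) = 0 := by
    intro i hi
    by_contra h
    exact hP.2 (Set.mem_biUnion (Finset.mem_coe.2 hi) h)
  have ha : ∀ i, ∃ a : k, i ∈ s → Ge P 1 (v i - algebraMap k F0 a) := by
    intro i
    by_cases hi : i ∈ s
    · obtain ⟨a, ha⟩ := exists_const P (f := v i) (Or.inr (hPv i hi).ge)
      exact ⟨a, fun _ => ha⟩
    · exact ⟨0, fun h => absurd h hi⟩
  choose a ha using ha
  obtain ⟨Q, e, he, hQ⟩ := exists_above htr P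
  have h1 : Ge Q 1 (algebraMap Λ E (∑ i ∈ s, a i • g i)) := by
    have h2 : algebraMap Λ E (∑ i ∈ s, a i • g i) =
        -∑ i ∈ s, algebraMap Λ E (g i) * algebraMap F0 E (v i - algebraMap k F0 (a i)) := by
      have h3 : ∑ i ∈ s, algebraMap Λ E (g i) * algebraMap F0 E (v i) = 0 := by
        rw [← hg]
        exact Finset.sum_congr rfl fun i _ => (Algebra.smul_def _ _).symm
      have h4 : ∀ i ∈ s, algebraMap Λ E (g i) * algebraMap F0 E (v i - algebraMap k F0 (a i)) =
          algebraMap Λ E (g i) * algebraMap F0 E (v i) - algebraMap Λ E (a i • g i) := by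
        intro i _
        rw [map_sub, mul_sub, ← IsScalarTower.algebraMap_apply k F0 E,
          IsScalarTower.algebraMap_apply k Λ E, Algebra.smul_def, map_mul, mul_comm
          (algebraMap Λ E (g i)) (algebraMap Λ E (algebraMap k Λ (a i)))]
      rw [Finset.sum_congr rfl h4, Finset.sum_sub_distrib, h3, zero_sub, neg_neg, map_sum]
    rw [h2]
    refine Ge.neg (Ge.sum _ _ fun i hi => ?_)
    have h3 := (Ge.const (P := Q) (g i)).mul (ge_above he hQ (ha i hi))
    refine h3.mono ?_
    have : (1 : ℤ) ≤ e := by exact_mod_cast he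
    omega
  have h2 := const_eq_zero Q h1
  have h3 := congrArg ℓ h2
  rw [map_sum, map_zero] at h3
  have h4 : Ge P 1 f := by
    have h5 : f = ∑ i ∈ s, ℓ (g i) • (v i - algebraMap k F0 (a i)) := by
      have h6 : ∀ i ∈ s, ℓ (g i) • (v i - algebraMap k F0 (a i)) =
          ℓ (g i) • v i - algebraMap k F0 (ℓ (a i • g i)) := by
        intro i _
        rw [smul_sub, map_smul, smul_eq_mul, Algebra.smul_def (ℓ (g i)) (algebraMap k F0 (a i)),
          ← map_mul, mul_comm (a i)]
      rw [Finset.sum_congr rfl h6, Finset.sum_sub_distrib, ← map_sum, h3, map_zero, sub_zero, hf]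
    rw [h5]
    refine Ge.sum _ _ fun i hi => ?_
    rw [Algebra.smul_def]
    have h6 := (Ge.const (P := P) (ℓ (g i))).mul (ha i hi)
    simpa using h6
  have h5 := h4.resolve_left hne
  omega

/-- the trace of a regular differential is regular -/
theorem trace_poly {x : E} (hx : Transcendental Λ x) {D : Derivation Λ E E} (hD : D x = 1) {z : E}
    (hz : ∀ w : Place Λ E, 0 ≤ w.ord x → Ge w (vo w D) z) :
    ∃ p : Λ[X], Algebra.trace Λ⟮x⟯ E z = px x p := by
  classical
  have hfin : FiniteDimensional Λ⟮x⟯ E := IsFF.finite hx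
  have hD0 : D ≠ 0 := by
    rintro rfl
    simp at hD
  let xx : Λ⟮x⟯ := ⟨x, mem_adjoin_simple_self Λ x⟩
  have hxx : Λ⟮xx⟯ = ⊤ := by
    have h1 := IntermediateField.lift_injective Λ⟮x⟯ (a₁ := Λ⟮xx⟯) (a₂ := ⊤)
    apply h1
    rw [IntermediateField.lift_adjoin_simple, IntermediateField.lift_top]
  have hxxt : Transcendental Λ xx := by
    intro h
    apply hx
    exact h.algebraMap (A := E)
  have hFF : IsFF Λ Λ⟮x⟯ := isFF_adj hx
  obtain ⟨p, hp⟩ := Pool.Agent.R882.KR.poly_of_fin hxx (g := Algebra.trace Λ⟮x⟯ E z) (by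
    intro q hq
    obtain ⟨c, hc⟩ := exists_const q (f := xx) (Or.inr hq)
    have hs0 : xx - algebraMap Λ Λ⟮x⟯ c ≠ 0 := sub_const_ne hxxt c
    have hc1 := hc.resolve_left hs0
    obtain ⟨q', hq', huniq⟩ := zero_unique (top_sub hxx c)
    have hqq : q = q' := huniq q (by omega)
    rw [← hqq] at hq'
    obtain ⟨s, hs⟩ : ∃ s, s = x - algebraMap Λ E c := ⟨_, rfl⟩
    have hss : algebraMap Λ⟮x⟯ E (xx - algebraMap Λ Λ⟮x⟯ c) = s := by rw [hs]; rfl
    have hw : ∀ (w : Place Λ E) (e : ℕ), Over w q e → w.ord s = e := by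
      intro w e h
      rw [← hss, h.2, hq', mul_one]
    have hfs := finite_support (k := Λ) s
    have hN : ∀ (w : Place Λ E) (e : ℕ), Over w q e →
        e ≤ ∑ w ∈ hfs.toFinset, (w.ord s).natAbs := by
      intro w e h
      have h1 := hw w e h
      have h2 : (0 : ℤ) < e := by exact_mod_cast h.1
      have h3 : w ∈ hfs.toFinset := by
        rw [hfs.mem_toFinset]
        change w.ord s ≠ 0
        omega
      have h4 := Finset.single_le_sum (f := fun w : Place Λ E => (w.ord s).natAbs)
        (fun _ _ => Nat.zero_le _) h3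
      have h5 : (w.ord s).natAbs ≤ ∑ w ∈ hfs.toFinset, (w.ord s).natAbs := h4
      omega
    have h1 : Ge q 1 (Algebra.trace Λ⟮x⟯ E (s * z)) := by
      refine trace_nil q _ _ hN fun w e h => ?_
      have h2 := hw w e h
      have h3 : (0 : ℤ) < e := by exact_mod_cast h.1
      have h4 := (ord_der w hD0 (f := s) (by omega)).2
      have h5 : D s = 1 := by
        rw [hs, map_sub, hD, Derivation.map_algebraMap, sub_zero]
      rw [h5, w.ord_one] at h4
      have h6 : 0 ≤ w.ord x := by
        have h7 : Ge w 1 s := Or.inr (by omega)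
        have h8 := (h7.mono (by norm_num : (0 : ℤ) ≤ 1)).add (Ge.const (P := w) c)
        rw [hs, sub_add_cancel] at h8
        rcases h8 with h9 | h9
        · rw [h9, w.ord_zero]
        · exact h9
      have h7 : Ge w (w.ord s) s := Or.inr le_rfl
      refine (h7.mul (hz w h6)).mono ?_
      omega
    have h2 : Algebra.trace Λ⟮x⟯ E (s * z) = (xx - algebraMap Λ Λ⟮x⟯ c) *
        Algebra.trace Λ⟮x⟯ E z := by
      rw [← hss]
      exact trace_mul_left (xx - algebraMap Λ Λ⟮x⟯ c) z
    rw [h2] at h1
    exact Ge.of_mul' (h := xx - algebraMap Λ Λ⟮x⟯ c) (m := 1) hs0 hq' (by simpa using h1))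
  exact ⟨p, hp.symm⟩

/-- regular differentials are combinations of functions on the curve -/
theorem mem_span (hgen : IntermediateField.adjoin Λ (Set.range (algebraMap F0 E)) = ⊤)
    {x : F0} (hx : Transcendental k x) (hx' : Transcendental Λ (algebraMap F0 E x))
    {D : Derivation Λ E E} (hD : D (algebraMap F0 E x) = 1) {f : E}
    (hf : ∀ w : Place Λ E, Ge w (vo w D) f) :
    f ∈ Submodule.span Λ (Set.range (algebraMap F0 E)) := by
  classical
  have hfin0 : FiniteDimensional k⟮x⟯ F0 := IsFF.finite hx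
  have hfin : FiniteDimensional Λ⟮algebraMap F0 E x⟯ E := IsFF.finite hx'
  have hchar0 : CharZero k⟮x⟯ := charZero_of_injective_algebraMap (algebraMap k k⟮x⟯).injective
  have hchar : CharZero Λ⟮algebraMap F0 E x⟯ :=
    charZero_of_injective_algebraMap (algebraMap Λ Λ⟮algebraMap F0 E x⟯).injective
  obtain ⟨y, hy⟩ := Field.exists_primitive_element k⟮x⟯ F0
  obtain ⟨p, hp⟩ : ∃ p, p = minpoly k⟮x⟯ y := ⟨_, rfl⟩
  have hint : IsIntegral k⟮x⟯ y := Algebra.IsIntegral.isIntegral y
  have hpy : aeval y p = 0 := by rw [hp, minpoly.aeval]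
  have hpy' : aeval y (derivative p) ≠ 0 := by
    refine Separable.aeval_derivative_ne_zero ?_ hpy
    rw [hp]
    exact (minpoly.irreducible hint).separable
  -- the field of rational functions
  have hmem : ∀ r : k⟮x⟯, algebraMap F0 E (r : F0) ∈ Λ⟮algebraMap F0 E x⟯ := by
    rintro ⟨r, hr⟩
    rw [mem_adjoin_simple_iff] at hr
    obtain ⟨a, b, rfl⟩ := hr
    have h1 : ∀ a : k[X], algebraMap F0 E (aeval x a) ∈ Λ⟮algebraMap F0 E x⟯ := by
      intro a
      induction a using Polynomial.induction_on' with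
      | add a b ha hb => rw [map_add, map_add]; exact add_mem ha hb
      | monomial n c =>
        rw [aeval_monomial, map_mul, map_pow, ← IsScalarTower.algebraMap_apply k F0 E,
          IsScalarTower.algebraMap_apply k Λ E]
        exact mul_mem (IntermediateField.algebraMap_mem _ _)
          (pow_mem (mem_adjoin_simple_self _ _) _)
    change algebraMap F0 E (aeval x a / aeval x b) ∈ _
    rw [map_div₀]
    exact div_mem (h1 a) (h1 b)
  let ρ : k⟮x⟯ →+* Λ⟮algebraMap F0 E x⟯ :=
    ((algebraMap F0 E).comp (algebraMap k⟮x⟯ F0)).codRestrict _ hmem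
  have hρ : ∀ r, algebraMap Λ⟮algebraMap F0 E x⟯ E (ρ r) = algebraMap F0 E (algebraMap k⟮x⟯ F0 r) :=
    fun r => rfl
  have hcomp : (algebraMap Λ⟮algebraMap F0 E x⟯ E).comp ρ =
      (algebraMap F0 E).comp (algebraMap k⟮x⟯ F0) := RingHom.ext hρ
  -- the quotient
  obtain ⟨δ, hδ⟩ : ∃ δ : F0[X], δ * (X - C y) = p.map (algebraMap k⟮x⟯ F0) := by
    have h1 : X - C y ∣ p.map (algebraMap k⟮x⟯ F0) := by
      rw [dvd_iff_isRoot, IsRoot.def, eval_map_algebraMap, hpy]
    obtain ⟨δ, hδ⟩ := h1
    exact ⟨δ, by rw [hδ, mul_comm]⟩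
  have hyE : Λ⟮algebraMap F0 E x⟯⟮algebraMap F0 E y⟯ = ⊤ := by
    rw [eq_top_iff]
    intro z _
    have h1 : z ∈ IntermediateField.adjoin Λ (Set.range (algebraMap F0 E)) := by
      rw [hgen]
      trivial
    have h2 : IntermediateField.adjoin Λ (Set.range (algebraMap F0 E)) ≤
        (Λ⟮algebraMap F0 E x⟯⟮algebraMap F0 E y⟯).restrictScalars Λ := by
      rw [IntermediateField.adjoin_le_iff]
      rintro _ ⟨v, rfl⟩
      have h3 : v ∈ (⊤ : IntermediateField k⟮x⟯ F0) := trivial
      rw [← hy] at h3
      have h4 : v ∈ Algebra.adjoin k⟮x⟯ {y} := by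
        rw [← IntermediateField.adjoin_simple_toSubalgebra_of_isAlgebraic hint.isAlgebraic]
        exact h3
      rw [Algebra.adjoin_singleton_eq_range_aeval] at h4
      obtain ⟨g, hg⟩ := h4
      have hg' : aeval y g = v := hg
      rw [← hg']
      change algebraMap F0 E (aeval y g) ∈ Λ⟮algebraMap F0 E x⟯⟮algebraMap F0 E y⟯
      rw [aeval_eq_sum_range, map_sum]
      refine sum_mem fun i _ => ?_
      rw [Algebra.smul_def, map_mul, map_pow, ← hρ]
      exact mul_mem (IntermediateField.algebraMap_mem _ _) (pow_mem (mem_adjoin_simple_self _ _) _)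
    exact h2 h1
  have haev : ∀ g : k⟮x⟯[X], aeval (algebraMap F0 E y) (g.map ρ) = algebraMap F0 E (aeval y g) := by
    intro g
    rw [aeval_def, eval₂_map, hcomp, aeval_def, hom_eval₂]
  have heuler := Pool.Agent.R882.KR.euler (k := Λ⟮algebraMap F0 E x⟯) (F := E) hyE
    (p := p.map ρ) (by rw [haev, hpy, map_zero]) (by
      rw [derivative_map, haev]
      simpa using hpy') (δ := δ.map (algebraMap F0 E)) (by
      have h1 := congrArg (Polynomial.map (algebraMap F0 E)) hδ
      rw [Polynomial.map_mul, Polynomial.map_sub, map_X, map_C] at h1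
      rw [h1, Polynomial.map_map, Polynomial.map_map, hcomp]) (N := δ.natDegree + 1)
      (Nat.lt_succ_of_le natDegree_map_le) f
  rw [← heuler]
  refine Submodule.sum_mem _ fun j _ => ?_
  rw [derivative_map, haev, coeff_map, mul_div_assoc, ← map_div₀]
  obtain ⟨d, hd⟩ : ∃ d : F0, d = δ.coeff j / aeval y (derivative p) := ⟨_, rfl⟩
  rw [← hd]
  -- the trace
  obtain ⟨g, hg0, hgB, -⟩ := clear hx d
  obtain ⟨P, hP⟩ := trace_poly hx' hD (z := f * algebraMap F0 E (aeval x g * d)) (by
    intro w hw
    have h1 : Ge w 0 (algebraMap F0 E (aeval x g * d)) := by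
      rcases over_or (k := k) (F0 := F0) w with h2 | ⟨P, e, he, hv⟩
      · right
        rw [h2]
      · have h3 : 0 ≤ P.ord x := by
          rw [hv] at hw
          have h4 : (0 : ℤ) < e := by exact_mod_cast he
          by_contra hcon
          push Not at hcon
          nlinarith
        have h5 := ge_above he hv (hgB P h3)
        simpa using h5
    have h2 := (hf w).mul h1
    simpa using h2)
  have hgE : algebraMap F0 E (aeval x g) ≠ 0 := by
    rw [Ne, map_eq_zero]
    exact fun h => hg0 ((transcendental_iff_injective.1 hx) (by rw [h, map_zero]))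
  have h1 : algebraMap F0 E (aeval x g) * ((Algebra.trace Λ⟮algebraMap F0 E x⟯ E
      (f * algebraMap F0 E d) : Λ⟮algebraMap F0 E x⟯) : E) = aeval (algebraMap F0 E x) P := by
    have h2 : f * algebraMap F0 E (aeval x g * d) =
        ((ρ (px x g) : Λ⟮algebraMap F0 E x⟯) : E) * (f * algebraMap F0 E d) := by
      have h3 : ((ρ (px x g) : Λ⟮algebraMap F0 E x⟯) : E) = algebraMap F0 E (aeval x g) := by
        rw [← coe_px]
        rfl
      rw [h3, map_mul]
      ring
    rw [h2, trace_mul_left] at hP
    have h4 := congrArg (Subtype.val : Λ⟮algebraMap F0 E x⟯ → E) hP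
    rw [coe_px] at h4
    rw [← h4]
    have h3 : ((ρ (px x g) : Λ⟮algebraMap F0 E x⟯) : E) = algebraMap F0 E (aeval x g) := by
      rw [← coe_px]
      rfl
    rw [← h3]
    rfl
  have h2 : algebraMap Λ⟮algebraMap F0 E x⟯ E (Algebra.trace Λ⟮algebraMap F0 E x⟯ E
      (f * algebraMap F0 E d)) = aeval (algebraMap F0 E x) P * (algebraMap F0 E (aeval x g))⁻¹ := by
    rw [← h1]
    field_simp
    rfl
  rw [h2, aeval_eq_sum_range, Finset.sum_mul, Finset.sum_mul]
  refine Submodule.sum_mem _ fun i _ => ?_
  have h3 : P.coeff i • algebraMap F0 E x ^ i * (algebraMap F0 E (aeval x g))⁻¹ *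
      algebraMap F0 E y ^ j = P.coeff i • algebraMap F0 E (x ^ i * (aeval x g)⁻¹ * y ^ j) := by
    rw [map_mul, map_mul, map_pow, map_pow, map_inv₀, smul_mul_assoc, smul_mul_assoc]
  rw [h3]
  exact Submodule.smul_mem _ _ (Submodule.subset_span ⟨_, rfl⟩)

/-- **Regular differentials after an extension of the constants.** -/
theorem base_change (hgen : IntermediateField.adjoin Λ (Set.range (algebraMap F0 E)) = ⊤)
    (htr : ∀ z : F0, Transcendental k z → Transcendental Λ (algebraMap F0 E z))
    {x : F0} (hx : Transcendental k x) {D0 : Derivation k F0 F0} (hD0 : D0 x = 1)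
    {D : Derivation Λ E E} (hD : D (algebraMap F0 E x) = 1) {f : E}
    (hf : ∀ w : Place Λ E, Ge w (vo w D) f) :
    f ∈ Submodule.span Λ (algebraMap F0 E '' (HH D0 : Set F0)) := by
  classical
  have hD0' : D0 ≠ 0 := by
    rintro rfl
    simp at hD0
  have hD' : D ≠ 0 := by
    rintro rfl
    simp at hD
  have h1 := mem_span hgen hx (htr x hx) hD hf
  -- independent coefficients
  obtain ⟨m, μ, g, hμ, hfg⟩ : ∃ (m : ℕ) (μ : Fin m → Λ) (g : Fin m → F0), LinearIndependent k μ ∧
      f = ∑ s, algebraMap Λ E (μ s) * algebraMap F0 E (g s) := by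
    obtain ⟨c, hc⟩ := Finsupp.mem_span_range_iff_exists_finsupp.1 h1
    let V : Submodule k Λ := Submodule.span k (c '' (c.support : Set F0))
    have hVfin : FiniteDimensional k V :=
      FiniteDimensional.span_of_finite k ((c.support.finite_toSet).image _)
    let b := Module.finBasis k V
    have hcV : ∀ v ∈ c.support, c v ∈ V := fun v hv =>
      Submodule.subset_span ⟨v, Finset.mem_coe.2 hv, rfl⟩
    refine ⟨_, fun s => (b s : Λ), fun s => ∑ v ∈ c.support.attach,
      b.repr ⟨c v.1, hcV v.1 v.2⟩ s • v.1, b.linearIndependent.map' V.subtype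
        (Submodule.ker_subtype V), ?_⟩
    rw [← hc, Finsupp.sum, ← Finset.sum_attach]
    simp only [map_sum, Finset.mul_sum]
    rw [Finset.sum_comm]
    refine Finset.sum_congr rfl fun v _ => ?_
    have h2 := congrArg (fun z : V => algebraMap Λ E (z : Λ)) (b.sum_repr ⟨c v.1, hcV v.1 v.2⟩)
    simp only at h2
    rw [Algebra.smul_def, ← h2, Submodule.coe_sum, map_sum, Finset.sum_mul]
    refine Finset.sum_congr rfl fun s _ => ?_
    rw [Submodule.coe_smul, Algebra.smul_def, map_mul, Algebra.smul_def, map_mul,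
      ← IsScalarTower.algebraMap_apply k Λ E, ← IsScalarTower.algebraMap_apply k F0 E]
    ring
  -- the components are regular
  have hg : ∀ s, g s ∈ HH D0 := by
    suffices h : ∀ P : Place k F0, ∀ s, Ge P (vo P D0) (g s) from fun s P => h P s
    intro P
    obtain ⟨Q, e, he, hQ⟩ := exists_above htr P
    have he' : (0 : ℤ) < e := by exact_mod_cast he
    obtain ⟨t, ht0, ht⟩ := P.surj
    have htE : algebraMap F0 E t ≠ 0 := by simpa using ht0
    -- the orders of the derivations
    have hvo : vo Q D = e * vo P D0 - e + 1 := by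
      obtain ⟨r, hr1, hr2⟩ := ratio' (K := E) (k := k) (E := F0) hx t
      have h2 : D (algebraMap F0 E t) = algebraMap F0 E (D0 t) := by
        have h3 := hr2 (D.restrictScalars k)
        have h4 : (D.restrictScalars k) (algebraMap F0 E t) = D (algebraMap F0 E t) := rfl
        have h5 : (D.restrictScalars k) (algebraMap F0 E x) = D (algebraMap F0 E x) := rfl
        rw [h4, h5, hD, mul_one] at h3
        rw [h3, hr1 D0, hD0, mul_one]
      have h3 := (ord_der Q hD' (f := algebraMap F0 E t) (by rw [hQ, ht]; omega)).2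
      have h4 := (ord_der P hD0' (f := t) (by omega)).2
      rw [h2, hQ, hQ, h4, ht] at h3
      linarith
    -- induction
    have key : ∀ j : ℕ, ∀ m0 : ℤ, (∀ s, Ge P m0 (g s)) → m0 + j ≤ vo P D0 →
        ∀ s, Ge P (m0 + j) (g s) := by
      intro j
      induction j with
      | zero =>
        intro m0 h _
        simpa using h
      | succ j ih =>
        intro m0 h hle s
        have h2 : ∀ s, Ge P (m0 + 1) (g s) := by
          have h3 : ∀ s, ∃ b : k, Ge P 1 (t ^ (-m0) * g s - algebraMap k F0 b) := by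
            intro s
            apply Pool.Agent.W603.LV.exists_const
            have h4 : Ge P (-m0) (t ^ (-m0)) := Or.inr (by rw [P.ord_zpow, ht, mul_one])
            have h5 := h4.mul (h s)
            simpa using h5
          choose b hb using h3
          have h4 : Ge Q 1 (algebraMap Λ E (∑ s, b s • μ s)) := by
            have h5 : algebraMap Λ E (∑ s, b s • μ s) = algebraMap F0 E t ^ (-m0) * f -
                ∑ s, algebraMap Λ E (μ s) *
                  algebraMap F0 E (t ^ (-m0) * g s - algebraMap k F0 (b s)) := by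
              rw [hfg, Finset.mul_sum, ← Finset.sum_sub_distrib, map_sum]
              refine Finset.sum_congr rfl fun s _ => ?_
              rw [map_sub, map_mul, map_zpow₀, ← IsScalarTower.algebraMap_apply k F0 E,
                IsScalarTower.algebraMap_apply k Λ E, Algebra.smul_def, map_mul]
              ring
            rw [h5]
            refine Ge.sub ?_ (Ge.sum _ _ fun s _ => ?_)
            · have h6 : Ge Q (-m0 * e) (algebraMap F0 E t ^ (-m0)) := Or.inr (by
                rw [Q.ord_zpow, hQ, ht, mul_one])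
              refine (h6.mul (hf Q)).mono ?_
              rw [hvo]
              have h7 : (e : ℤ) * (m0 + 1) ≤ e * vo P D0 := by
                apply mul_le_mul_of_nonneg_left _ he'.le
                push_cast at hle
                have : (0 : ℤ) ≤ j := Int.natCast_nonneg _
                linarith
              linarith
            · have h6 := (Ge.const (P := Q) (μ s)).mul (ge_above he hQ (hb s))
              refine h6.mono ?_
              omega
          have h5 := const_eq_zero Q h4
          have h6 := (Fintype.linearIndependent_iff.1 hμ) b h5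
          intro s
          have h7 := hb s
          rw [h6 s, map_zero, sub_zero] at h7
          have h8 : Ge P m0 (t ^ m0) := Or.inr (by rw [P.ord_zpow, ht, mul_one])
          have h9 := h8.mul h7
          rwa [← mul_assoc, ← zpow_add₀ ht0, add_neg_cancel, zpow_zero, one_mul] at h9
        have h3 := ih (m0 + 1) h2 (by push_cast at hle ⊢; linarith) s
        have h4 : m0 + 1 + (j : ℤ) = m0 + ((j + 1 : ℕ) : ℤ) := by push_cast; ring
        rwa [h4] at h3
    obtain ⟨m0, hm0, hm0'⟩ : ∃ m0 : ℤ, (∀ s, Ge P m0 (g s)) ∧ m0 ≤ vo P D0 := by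
      refine ⟨-(∑ s, ((P.ord (g s)).natAbs : ℤ)) - |vo P D0|, fun s => ?_, ?_⟩
      · right
        have h2 := Finset.single_le_sum (f := fun s => ((P.ord (g s)).natAbs : ℤ))
          (fun _ _ => by positivity) (Finset.mem_univ s)
        have h3 : ((P.ord (g s)).natAbs : ℤ) ≤ ∑ s, ((P.ord (g s)).natAbs : ℤ) := h2
        have h4 := abs_nonneg (vo P D0)
        omega
      · have h2 : (0 : ℤ) ≤ ∑ s, ((P.ord (g s)).natAbs : ℤ) :=
          Finset.sum_nonneg fun _ _ => by positivity
        have h3 := neg_abs_le (vo P D0)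
        linarith
    intro s
    have h2 := key (vo P D0 - m0).toNat m0 hm0 (by omega) s
    have h3 : m0 + ((vo P D0 - m0).toNat : ℤ) = vo P D0 := by omega
    rwa [h3] at h2
  rw [hfg]
  refine Submodule.sum_mem _ fun s _ => ?_
  rw [← Algebra.smul_def]
  exact Submodule.smul_mem _ _ (Submodule.subset_span ⟨g s, hg s, rfl⟩)

end

end Pool.Agent.N145.PC
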