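import Pool.Agent.N145.PC.Spec
import Pool.Agent.W619.PQ.Final
import Pool.Agent.W619.X.Basis
import Pool.Agent.Y692.NT.Tr
import Pool.Agent.Y184.NT.Top
import Pool.Agent.R882.CovGT

/-!
Exterior products of regular differentials on the factors, and their traces.
-/

set_option autoImplicit false
set_option linter.overlappingInstances false
set_option linter.unusedSectionVars false

open Polynomial FF IsDedekindDomain IntermediateField

namespace Pool.Agent.N145.PC

open Pool.Agent.W603.LV Pool.Agent.W619.PQ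
open Pool.Agent.W602.GT (Divisorial RegAt IsPluri DerReg)

section

variable {k F : Type} [Field k] [Field F] [Algebra k F] [CharZero k] [IsFF k F]

/-- a derivation with the value `1` -/
theorem exists_D {x : F} (hx : Transcendental k x) : ∃ D : Derivation k F F, D x = 1 := by
  have hb : IsTranscendenceBasis k (fun _ : Fin 1 => x) := by
    have h1 : AlgebraicIndependent k (fun _ : Fin 1 => x) :=
      (algebraicIndependent_unique_type_iff).2 hx
    refine h1.isTranscendenceBasis_iff_isAlgebraic.2 ?_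
    have h2 := IsFF.isAlgebraic hx
    refine alg_adjoin fun z => ?_
    have h3 : Set.range (fun _ : Fin 1 => x) = {x} := by
      ext y
      simp [eq_comm]
    rw [h3]
    exact h2.isAlgebraic z
  obtain ⟨D, hD⟩ := exists_dual _ hb 0
  exact ⟨D, by simpa using hD 0⟩

end

section

variable {K : Type} [Field K] [Algebra ℂ K] {n : ℕ} {E : Fin n → Type} [∀ i, Field (E i)]
  [∀ i, Algebra ℂ (E i)] [∀ i, Algebra (E i) K] [∀ i, IsScalarTower ℂ (E i) K]
  [∀ i, IsFF ℂ (E i)]

/-- the exterior product of regular differentials is regular -/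
theorem prod_regular {x : ∀ i, E i} (hx : ∀ i, Transcendental ℂ (x i))
    {D0 : ∀ i, Derivation ℂ (E i) (E i)} (hD0 : ∀ i, D0 i (x i) = 1) {f : ∀ i, E i}
    (hf : ∀ i, f i ∈ HH (D0 i)) (P : Place ℂ K) : RegAt P (extForm (K := K) 1 D0 x f) := by
  classical
  intro D hD
  have hD0' : ∀ i, D0 i ≠ 0 := by
    intro i h
    have := hD0 i
    rw [h] at this
    simp at this
  by_cases h0 : ∃ i, f i = 0
  · obtain ⟨i, hi⟩ := h0
    left
    unfold extForm
    rw [Finset.prod_eq_zero (Finset.mem_univ i) (by rw [hi, zero_div, map_zero]), zero_mul]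
  · push Not at h0
    have hs : ∀ i, ∃ s : ℚ, ((∀ g : E i, P.ord (algebraMap (E i) K g) = 0) ∧ s = 0) ∨
        (s = 1 ∧ ∃ (p : Place ℂ (E i)) (e : ℕ), Over P p e) := by
      intro i
      by_cases h : ∀ g : E i, P.ord (algebraMap (E i) K g) = 0
      · exact ⟨0, Or.inl ⟨h, rfl⟩⟩
      · push Not at h
        obtain ⟨e, p, hp⟩ := exists_over (K := E i) P h
        exact ⟨1, Or.inr ⟨rfl, p, e, hp⟩⟩
    choose s hs using hs
    refine extForm_regular 1 D0 hD0' x f hx h0 P s (fun i => ?_) ?_ D hD
    · rcases hs i with h | ⟨h1, p, e, hp⟩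
      · exact Or.inl h
      · right
        refine ⟨p, e, hp, ?_⟩
        have h2 := (hf i p).resolve_left (h0 i)
        have h3 : (vo p (D0 i) : ℚ) ≤ p.ord (f i) := by exact_mod_cast h2
        have h4 : (1 : ℚ) ≤ e := by exact_mod_cast hp.1
        rw [h1]
        push_cast
        nlinarith
    · by_cases h : ∀ i, ∀ g : E i, P.ord (algebraMap (E i) K g) = 0
      · exact Or.inl h
      · right
        push Not at h
        obtain ⟨i, g, hg⟩ := h
        have h1 : s i = 1 := by
          rcases hs i with h | h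
          · exact absurd (h.1 g) hg
          · exact h.1
        have h2 : ∀ j ∈ Finset.univ, (0 : ℚ) ≤ s j := by
          intro j _
          rcases hs j with h | h
          · rw [h.2]
          · rw [h.1]
            norm_num
        have h3 := Finset.single_le_sum h2 (Finset.mem_univ i)
        rwa [h1] at h3

/-- the values of the exterior product -/
theorem prod_val {x : ∀ i, E i} {D0 : ∀ i, Derivation ℂ (E i) (E i)}
    (hD0 : ∀ i, D0 i (x i) = 1) (f : ∀ i, E i) (D : Fin n → Derivation ℂ K K) :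
    extForm 1 D0 x f D = (∏ i, algebraMap (E i) K (f i)) *
      (Matrix.of fun j i => D j (algebraMap (E i) K (x i)) : Matrix (Fin n) (Fin n) K).det := by
  unfold extForm
  rw [pow_one]
  congr 1
  refine Finset.prod_congr rfl fun i _ => ?_
  rw [hD0, pow_one, div_one]

theorem prod_pluri (x : ∀ i, E i) (D0 : ∀ i, Derivation ℂ (E i) (E i)) (f : ∀ i, E i) :
    IsPluri 1 (extForm (K := K) 1 D0 x f) := extForm_pluri 1 D0 x f

variable {L : Type} [Field L] [Algebra ℂ L] [Algebra L K] [IsScalarTower ℂ L K]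
  [FiniteDimensional L K]

/-- **The trace relation.** -/
theorem exists_trace [Algebra.EssFiniteType ℂ K] [Algebra.EssFiniteType ℂ L]
    (htr : Algebra.trdeg ℂ K = n) (hL : Algebra.trdeg ℂ L = n) {x : ∀ i, E i}
    (hx : ∀ i, Transcendental ℂ (x i)) (hb : IsTranscendenceBasis ℂ fun i => algebraMap (E i) K (x i))
    {D0 : ∀ i, Derivation ℂ (E i) (E i)} (hD0 : ∀ i, D0 i (x i) = 1)
    (hg : ∀ ω : (Fin n → Derivation ℂ L L) → L, IsPluri 1 ω →
      (∀ P : Place ℂ L, Divisorial n P → RegAt P ω) → ∀ D, ω D = 0) :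
    ∃ h : K, h ≠ 0 ∧ h ∈ IntermediateField.adjoin L (⋃ i, Set.range (algebraMap (E i) K)) ∧
      (∀ f : ∀ i, E i, (∀ i, f i ∈ HH (D0 i)) →
        Algebra.trace L K (h * ∏ i, algebraMap (E i) K (f i)) = 0) ∧
      ∀ (M : IntermediateField L K) (f : ∀ i, E i) (D : Fin n → Derivation ℂ M M)
        (D' : Fin n → Derivation ℂ K K),
        (∀ i g, D' i (algebraMap M K g) = algebraMap M K (D i g)) →
        ∃ a : M, extForm 1 D0 x f D' = algebraMap M K a * (h * ∏ i, algebraMap (E i) K (f i)) := by
  classical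
  obtain ⟨K1, hK1⟩ : ∃ K1, K1 = IntermediateField.adjoin L (⋃ i, Set.range (algebraMap (E i) K)) :=
    ⟨_, rfl⟩
  have hT1 : IsScalarTower ℂ K1 K := IsScalarTower.of_algebraMap_eq fun z => rfl
  have hess1 : Algebra.EssFiniteType ℂ K1 := Pool.Agent.TH466.QG.ess_below (K := K)
  have htr1 : Algebra.trdeg ℂ K1 = n := Pool.Agent.Y184.NT.trdeg_below (K := K) htr
  obtain ⟨y, G, hy, hG⟩ := Pool.Agent.Y172.exists_crd hL
  choose G1 hG1 using fun i => Pool.Agent.Y172.exists_lift (L := K1) hL (G i)
  choose G' hG' using fun i => Pool.Agent.Y172.exists_lift (L := K) htr1 (G1 i)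
  have hGG : ∀ i f, G' i (algebraMap L K f) = algebraMap L K (G i f) := by
    intro i f
    have h1 := hG' i (algebraMap L K1 f)
    rw [hG1] at h1
    exact h1
  have hyK : IsTranscendenceBasis ℂ (fun j => algebraMap L K (y j)) := hy.algebraMap_comp
  have hGK := Pool.Agent.Y172.lift_dual hG hGG
  have hmem : ∀ i (z : E i), algebraMap (E i) K z ∈ K1 := by
    intro i z
    rw [hK1]
    exact IntermediateField.subset_adjoin _ _ (Set.mem_iUnion.2 ⟨i, z, rfl⟩)
  obtain ⟨h, hdef⟩ : ∃ h, h = (Matrix.of fun j i => G' j (algebraMap (E i) K (x i)) :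
    Matrix (Fin n) (Fin n) K).det := ⟨_, rfl⟩
  have hval : ∀ f : ∀ i, E i, extForm 1 D0 x f G' = h * ∏ i, algebraMap (E i) K (f i) := by
    intro f
    rw [prod_val hD0, hdef, mul_comm]
  refine ⟨h, ?_, ?_, ?_, ?_⟩
  · obtain ⟨D, hD⟩ := extForm_ne (K := K) 1 D0 x (fun _ => 1) (fun _ => one_ne_zero)
      (fun i => by rw [hD0]; exact one_ne_zero) hb
    intro h0
    apply hD
    rw [Pool.Agent.Y172.pluri_coord hyK hGK (prod_pluri x D0 _) D, hval, h0, zero_mul, mul_zero]
  · rw [← hK1, hdef]
    have h1 : (Matrix.of fun j i => G' j (algebraMap (E i) K (x i)) :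
        Matrix (Fin n) (Fin n) K) = (algebraMap K1 K).mapMatrix
          (Matrix.of fun j i => G1 j ⟨algebraMap (E i) K (x i), hmem i (x i)⟩) := by
      ext j i
      rw [RingHom.mapMatrix_apply, Matrix.map_apply, Matrix.of_apply, Matrix.of_apply]
      exact hG' j ⟨algebraMap (E i) K (x i), hmem i (x i)⟩
    rw [h1, ← RingHom.map_det]
    exact (Matrix.det _ : K1).2
  · intro f hf
    rw [← hval]
    exact Pool.Agent.Y692.NT.trace_form hL hg _ (prod_pluri x D0 f)
      (fun Q _ => prod_regular hx hD0 hf Q) G G' hGG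
  · intro M f D D' hD
    rw [Pool.Agent.Y172.pluri_coord hyK hGK (prod_pluri x D0 _) D', hval, pow_one]
    refine ⟨(Matrix.of fun i j => D i (algebraMap L M (y j)) : Matrix (Fin n) (Fin n) M).det, ?_⟩
    rw [RingHom.map_det]
    congr 2
    ext i j
    rw [RingHom.mapMatrix_apply, Matrix.map_apply, Matrix.of_apply, Matrix.of_apply]
    rw [← hD]
    rfl

end

end Pool.Agent.N145.PC
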