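import Pool.Agent.N145.PC.Base
import Pool.Agent.N145.PC.Prod

/-!
Correspondences of small degree between the line and a curve of large gonality are constant.
-/

set_option autoImplicit false
set_option linter.overlappingInstances false
set_option linter.unusedSectionVars false
set_option linter.unusedVariables false
set_option maxHeartbeats 4000000
set_option synthInstance.maxHeartbeats 400000

open Polynomial FF IsDedekindDomain IntermediateField Module

namespace Pool.Agent.N145.PC

open Pool.Agent.W603.LV Pool.Agent.W619.PQ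

open scoped Classical

section

variable {Λ E : Type} [Field Λ] [Field E] [Algebra Λ E] [CharZero Λ] [IsAlgClosed Λ] [IsFF Λ E]

/-- the trace of a regular differential on the line is zero -/
theorem trace_line {x : E} (hx : Transcendental Λ x) {D : Derivation Λ E E} (hD : D x = 1) {z : E}
    (hz : ∀ w : Place Λ E, Ge w (vo w D) z) : Algebra.trace Λ⟮x⟯ E z = 0 := by
  have hfin : FiniteDimensional Λ⟮x⟯ E := IsFF.finite hx
  have hD0 : D ≠ 0 := by
    rintro rfl
    simp at hD
  have hFF : IsFF Λ Λ⟮x⟯ := isFF_adj hx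
  obtain ⟨p, hp⟩ := trace_poly hx hD fun w _ => hz w
  by_contra hne
  rw [hp] at hne
  have hp0 : p ≠ 0 := by
    rintro rfl
    apply hne
    unfold px
    rw [map_zero]
  let xx : Λ⟮x⟯ := ⟨x, mem_adjoin_simple_self Λ x⟩
  -- a pole of `x`
  obtain ⟨S, hS, hS2⟩ := poles (k := Λ) (K := E) hx
  have hpos : 0 < Module.finrank Λ⟮x⟯ E := Module.finrank_pos
  obtain ⟨w0, hw0⟩ : S.Nonempty := by
    rw [Finset.nonempty_iff_ne_empty]
    rintro rfl
    rw [Finset.sum_empty] at hS2
    omega
  have hw0x := (hS w0).1 hw0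
  obtain ⟨e0, q, hq⟩ := exists_over (K := Λ⟮x⟯) w0 ⟨xx, by
    change w0.ord x ≠ 0
    omega⟩
  have hqx : q.ord xx < 0 := by
    have h1 := hq.2 xx
    have h2 : w0.ord (algebraMap Λ⟮x⟯ E xx) = w0.ord x := rfl
    have h3 := hq.1
    by_contra hcon
    push Not at hcon
    have : (0 : ℤ) ≤ e0 * q.ord xx := by positivity
    omega
  have hwx : ∀ (w : Place Λ E) (e : ℕ), Over w q e → w.ord x = e * q.ord xx := by
    intro w e h
    have h1 := h.2 xx
    exact h1
  have hfs := finite_support (k := Λ) x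
  have hN : ∀ (w : Place Λ E) (e : ℕ), Over w q e →
      e ≤ ∑ w ∈ hfs.toFinset, (w.ord x).natAbs := by
    intro w e h
    have h1 := hwx w e h
    have h2 : (0 : ℤ) < e := by exact_mod_cast h.1
    have h6 : (e : ℤ) ≤ -(w.ord x) := by
      rw [h1]
      nlinarith
    have h3 : w ∈ hfs.toFinset := by
      rw [hfs.mem_toFinset]
      change w.ord x ≠ 0
      omega
    have h4 := Finset.single_le_sum (f := fun w : Place Λ E => (w.ord x).natAbs)
      (fun _ _ => Nat.zero_le _) h3
    have h5 : (w.ord x).natAbs ≤ ∑ w ∈ hfs.toFinset, (w.ord x).natAbs := h4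
    omega
  have h1 : Ge q 1 (Algebra.trace Λ⟮x⟯ E (x * z)) := by
    refine trace_nil q _ _ hN fun w e h => ?_
    have h2 := hwx w e h
    have h3 : (0 : ℤ) < e := by exact_mod_cast h.1
    have h4 : w.ord x < 0 := by
      rw [h2]
      nlinarith
    have h5 := (ord_der w hD0 (f := x) (by omega)).2
    rw [hD, w.ord_one] at h5
    have h7 : Ge w (w.ord x) x := Or.inr le_rfl
    refine (h7.mul (hz w)).mono ?_
    omega
  have h2 : Algebra.trace Λ⟮x⟯ E (x * z) = xx * px x p := by
    rw [← hp]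
    exact trace_mul_left xx z
  rw [h2] at h1
  have hxx0 : xx ≠ 0 := by
    intro h
    rw [h, q.ord_zero] at hqx
    omega
  have h3 := h1.resolve_left (mul_ne_zero hxx0 hne)
  have h4 := ord_aeval_of_neg q hqx hp0
  have h5 : q.ord (px x p) = p.natDegree * q.ord xx := h4.2
  rw [q.ord_mul hxx0 hne, h5] at h3
  nlinarith

end

section

variable {k F Λ E : Type} [Field k] [Field F] [Field Λ] [Field E] [Algebra k F] [Algebra k Λ]
  [Algebra Λ E] [Algebra F E] [Algebra k E] [IsScalarTower k F E] [IsScalarTower k Λ E]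
  [CharZero k] [IsFF k F] [IsAlgClosed k] [CharZero Λ] [IsAlgClosed Λ] [IsFF Λ E]

/-- the derivations agree -/
theorem der_comp {x : F} (hx : Transcendental k x) {D0 : Derivation k F F} (hD0 : D0 x = 1)
    {D : Derivation Λ E E} (hD : D (algebraMap F E x) = 1) (t : F) :
    D (algebraMap F E t) = algebraMap F E (D0 t) := by
  obtain ⟨r, hr1, hr2⟩ := ratio' (K := E) (k := k) (E := F) hx t
  have h3 := hr2 (D.restrictScalars k)
  have h4 : (D.restrictScalars k) (algebraMap F E t) = D (algebraMap F E t) := rfl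
  have h5 : (D.restrictScalars k) (algebraMap F E x) = D (algebraMap F E x) := rfl
  rw [h4, h5, hD, mul_one] at h3
  rw [h3, hr1 D0, hD0, mul_one]

/-- the pull back of a regular differential is regular -/
theorem pull_regular {x : F} (hx : Transcendental k x) {D0 : Derivation k F F} (hD0 : D0 x = 1)
    {D : Derivation Λ E E} (hD : D (algebraMap F E x) = 1) {f : F} (hf : f ∈ HH D0)
    (w : Place Λ E) : Ge w (vo w D) (algebraMap F E f) := by
  have hD0' : D0 ≠ 0 := by
    rintro rfl
    simp at hD0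
  have hD' : D ≠ 0 := by
    rintro rfl
    simp at hD
  by_cases hf0 : f = 0
  · left
    rw [hf0, map_zero]
  right
  rcases over_or (k := k) (F0 := F) w with h1 | ⟨P, e, he, h1⟩
  · rw [h1]
    obtain ⟨c, hc⟩ := exists_const w (f := algebraMap F E x) (Or.inr (h1 x).ge)
    have hne : algebraMap F E x - algebraMap Λ E c ≠ 0 := by
      intro h
      have h2 : D (algebraMap F E x - algebraMap Λ E c) = 1 := by
        rw [map_sub, hD, Derivation.map_algebraMap, sub_zero]
      rw [h, map_zero] at h2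
      exact zero_ne_one h2
    have hc1 := hc.resolve_left hne
    have h2 := (ord_der w hD' (f := algebraMap F E x - algebraMap Λ E c) (by omega)).2
    rw [map_sub, hD, Derivation.map_algebraMap, sub_zero, w.ord_one] at h2
    omega
  · have he' : (0 : ℤ) < e := by exact_mod_cast he
    have h2 := (hf P).resolve_left hf0
    have h3 := (ord_der w hD' (f := algebraMap F E (unif P)) (by
      rw [h1, ord_unif P]
      omega)).2
    rw [der_comp hx hD0 hD, h1, h1, ord_unif P] at h3
    have h4 : P.ord (D0 (unif P)) = vo P D0 := rfl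
    rw [h4] at h3
    rw [h1]
    nlinarith

end

section

variable {F Λ E : Type} [Field F] [Field Λ] [Field E] [Algebra ℂ F] [Algebra ℂ Λ]
  [Algebra Λ E] [Algebra F E] [Algebra ℂ E] [IsScalarTower ℂ F E] [IsScalarTower ℂ Λ E]
  [IsFF ℂ F] [CharZero Λ] [IsAlgClosed Λ] [IsFF Λ E]

/-- **Correspondences of small degree are constant.** -/
theorem cst {s : E} (hs : Transcendental Λ s)
    (hgen : IntermediateField.adjoin Λ⟮s⟯ (Set.range (algebraMap F E)) = ⊤) {g : ℕ}
    (hg : ∀ y : F, Transcendental ℂ y → g ≤ Module.finrank ℂ⟮y⟯ F)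
    (hdeg : Module.finrank Λ⟮s⟯ E < g) (z : F) : IsAlgebraic Λ (algebraMap F E z) := by
  by_contra hz
  have hx' : Transcendental Λ (algebraMap F E z) := hz
  have hx : Transcendental ℂ z := by
    intro h
    apply hx'
    exact (h.algebraMap (A := E)).tower_top Λ
  have hfin : FiniteDimensional Λ⟮s⟯ E := IsFF.finite hs
  have hchar : CharZero Λ⟮s⟯ := charZero_of_injective_algebraMap (algebraMap Λ Λ⟮s⟯).injective
  obtain ⟨D0, hD0⟩ := exists_D hx
  obtain ⟨D1, hD1⟩ := exists_D (k := Λ) hx'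
  obtain ⟨Ds, hDs⟩ := exists_D (k := Λ) hs
  have hDs0 : Ds ≠ 0 := by
    rintro rfl
    simp at hDs
  have hD10 : D1 ≠ 0 := by
    rintro rfl
    simp at hD1
  -- the derivations are proportional
  obtain ⟨c, hc⟩ : ∃ c, c = Ds (algebraMap F E z) := ⟨_, rfl⟩
  have hDD : Ds = c • D1 := by
    ext y
    obtain ⟨r, hr1, -⟩ := ratio' (K := E) (k := Λ) (E := E) hx' y
    rw [Derivation.smul_apply, hr1 Ds, hr1 D1, hD1, hc, smul_eq_mul]
    ring
  have hc0 : c ≠ 0 := by
    intro h
    apply hDs0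
    rw [hDD, h, zero_smul]
  -- the traces
  have htr : ∀ f ∈ HH D0, Algebra.trace Λ⟮s⟯ E (c * algebraMap F E f) = 0 := by
    intro f hf
    refine trace_line hs hDs fun w => ?_
    have h1 := pull_regular hx hD0 hD1 hf w
    have h2 : Ge w (w.ord c) c := Or.inr le_rfl
    refine (h2.mul h1).mono ?_
    rw [hDD, vo_smul w hD10 hc0]
  -- the embeddings
  let Ω := AlgebraicClosure E
  obtain ⟨ρ0⟩ : Nonempty (E →ₐ[Λ⟮s⟯] Ω) := ⟨IsScalarTower.toAlgHom Λ⟮s⟯ E Ω⟩
  have hTC : IsScalarTower ℂ Λ⟮s⟯ E := by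
    refine IsScalarTower.of_algebraMap_eq fun r => ?_
    rw [IsScalarTower.algebraMap_apply ℂ Λ E, IsScalarTower.algebraMap_apply ℂ Λ Λ⟮s⟯]
    rfl
  have hTΩ : IsScalarTower ℂ Λ⟮s⟯ Ω := by
    refine IsScalarTower.of_algebraMap_eq fun r => ?_
    rw [IsScalarTower.algebraMap_apply ℂ E Ω, IsScalarTower.algebraMap_apply Λ⟮s⟯ E Ω,
      ← IsScalarTower.algebraMap_apply ℂ Λ⟮s⟯ E]
  let R : (E →ₐ[Λ⟮s⟯] Ω) → (F →ₐ[ℂ] Ω) := fun ρ =>
    (ρ.restrictScalars ℂ).comp (IsScalarTower.toAlgHom ℂ F E)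
  have hR : ∀ ρ f, R ρ f = ρ (algebraMap F E f) := fun _ _ => rfl
  have hRinj : Function.Injective R := by
    intro ρ ρ' h
    have h1 : ∀ f, ρ (algebraMap F E f) = ρ' (algebraMap F E f) := fun f => by
      rw [← hR, ← hR, h]
    have h2 : IntermediateField.adjoin Λ⟮s⟯ (Set.range (algebraMap F E)) ≤
        IntermediateField.mk (AlgHom.equalizer ρ ρ') (fun y hy => by
          change ρ y⁻¹ = ρ' y⁻¹
          rw [map_inv₀, map_inv₀]
          congr 1) := by
      rw [IntermediateField.adjoin_le_iff]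
      rintro _ ⟨f, rfl⟩
      exact h1 f
    rw [hgen] at h2
    exact AlgHom.ext fun y => h2 (IntermediateField.mem_top (x := y))
  have hcard : (Finset.univ.image R).card < g := by
    refine lt_of_le_of_lt Finset.card_image_le ?_
    rw [Finset.card_univ, AlgHom.card Λ⟮s⟯ E Ω]
    exact hdeg
  obtain ⟨cc, hcc⟩ : ∃ cc : (F →ₐ[ℂ] Ω) → Ω, ∀ ρ, cc (R ρ) = ρ c := by
    refine ⟨fun σ => if h : ∃ ρ, R ρ = σ then h.choose c else 0, fun ρ => ?_⟩
    have h : ∃ ρ', R ρ' = R ρ := ⟨ρ, rfl⟩
    simp only [dif_pos h]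
    rw [hRinj h.choose_spec]
  have h1 := sep_of_gonality hx hD0 hg (Finset.univ.image R) hcard cc (fun f hf => by
    rw [Finset.sum_image fun a _ b _ h => hRinj h]
    have h2 := trace_eq_sum_embeddings (K := Λ⟮s⟯) (L := E) Ω (x := c * algebraMap F E f)
    rw [htr f hf, map_zero] at h2
    rw [h2]
    refine Finset.sum_congr rfl fun ρ _ => ?_
    rw [hcc, hR, map_mul]) (R ρ0) (Finset.mem_image_of_mem _ (Finset.mem_univ _))
  rw [hcc] at h1
  exact hc0 ((_root_.map_eq_zero ρ0).1 h1)

end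

end Pool.Agent.N145.PC
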