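import Pool.Agent.N145.PC.Kod

/-!
Varieties dominated by products of curves of large gonality: uniruled, or of large Kodaira dimension.
-/

set_option autoImplicit false
set_option linter.overlappingInstances false
set_option linter.unusedSectionVars false
set_option linter.unusedVariables false
set_option maxHeartbeats 4000000
set_option synthInstance.maxHeartbeats 400000

open Polynomial FF IsDedekindDomain IntermediateField Module

namespace Pool.Agent.N145.PC

open Pool.Agent.W603.LV Pool.Agent.W619.PQ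
open Pool.Agent.W602.GT (Divisorial RegAt IsPluri DerReg KodGe LogSec)
open Pool.Agent.Y184.NT (trForm trForm_pluri)
open Pool.Agent.R882.GL (SpanFib)
open Pool.Agent.R882.LT (TraceNe)

open scoped Classical

section

variable {K : Type} [Field K] [Algebra ℂ K]

open scoped IntermediateField.algebraAdjoinAdjoin in
theorem trdeg_adj {m : ℕ} {t : Fin m → K} (ht : AlgebraicIndependent ℂ t) :
    Algebra.trdeg ℂ (IntermediateField.adjoin ℂ (Set.range t)) = (m : ℕ) := by
  obtain ⟨E, hE⟩ : ∃ E, E = IntermediateField.adjoin ℂ (Set.range t) := ⟨_, rfl⟩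
  rw [← hE]
  have hmem : ∀ j, t j ∈ E := fun j => by
    rw [hE]
    exact IntermediateField.subset_adjoin _ _ ⟨j, rfl⟩
  let tE : Fin m → E := fun j => ⟨t j, hmem j⟩
  have h1 : AlgebraicIndependent ℂ tE := AlgebraicIndependent.of_comp E.val ht
  have htop : IntermediateField.adjoin ℂ (Set.range tE) = ⊤ := by
    apply IntermediateField.map_injective E.val
    rw [IntermediateField.adjoin_map, ← AlgHom.fieldRange_eq_map, IntermediateField.fieldRange_val,
      ← Set.range_comp]
    exact hE.symm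
  have h2 : Algebra.IsAlgebraic (IntermediateField.adjoin ℂ (Set.range tE)) E := by
    constructor
    intro z
    have hz : z ∈ IntermediateField.adjoin ℂ (Set.range tE) := by
      rw [htop]
      trivial
    exact isAlgebraic_algebraMap (A := E) (⟨z, hz⟩ : IntermediateField.adjoin ℂ (Set.range tE))
  have h3 : Algebra.IsAlgebraic (Algebra.adjoin ℂ (Set.range tE)) E :=
    (IsFractionRing.comap_isAlgebraic_iff (A := Algebra.adjoin ℂ (Set.range tE))
      (K := IntermediateField.adjoin ℂ (Set.range tE)) (C := E)).2 h2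
  have h4 : IsTranscendenceBasis ℂ tE := h1.isTranscendenceBasis_iff_isAlgebraic.2 h3
  rw [← h4.cardinalMk_eq_trdeg, Cardinal.mk_fin]

end

section

variable {K : Type} [Field K] [Algebra ℂ K] {n : ℕ}
  {L : Type} [Field L] [Algebra ℂ L] [Algebra L K] [IsScalarTower ℂ L K]
  [FiniteDimensional L K]

/-- a rational factor -/
theorem unir_rat {F : Fin n → IntermediateField ℂ K} [∀ i, IsFF ℂ (F i)] (hsup : ⨆ i, F i = ⊤)
    (hK : Algebra.trdeg ℂ K = n) (hrat : ∃ i, ∃ t : F i, ℂ⟮t⟯ = ⊤) : IsUniruled ℂ L n := by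
  obtain ⟨i0, t, ht⟩ := hrat
  obtain ⟨M, h1, h2, h3, h4⟩ := rational_factor F hsup hK i0 t ht
  refine ⟨M, inferInstance, inferInstance, h1, h2, ⟨?_⟩⟩
  let e1 : RatFunc M ≃ₐ[M] M⟮(t : K)⟯ := RatFunc.algEquivOfTranscendental (t : K) h3
  let e2 : M⟮(t : K)⟯ ≃ₐ[M] K := (equivOfEq h4).trans topEquiv
  exact (((e1.trans e2).symm.restrictScalars ℂ : K ≃ₐ[ℂ] RatFunc M) : K →ₐ[ℂ] RatFunc M).comp
    (IsScalarTower.toAlgHom ℂ L K)

/-- the trace relation over the image in the product with all factors except one -/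
theorem unir_erase {F : Fin (n + 1) → IntermediateField ℂ K} [∀ i, IsFF ℂ (F i)]
    [hess : Algebra.EssFiniteType ℂ K] (hsup : ⨆ i, F i = ⊤)
    (hK : Algebra.trdeg ℂ K = (n + 1 : ℕ)) {x : ∀ i, F i} (hx : ∀ i, Transcendental ℂ (x i))
    {D0 : ∀ i, Derivation ℂ (F i) (F i)} (hD0 : ∀ i, D0 i (x i) = 1) {f0 : ∀ i, F i}
    (hf0 : ∀ i, f0 i ≠ 0) (hf0' : ∀ i, f0 i ∈ HH (D0 i)) {h : K}
    (hval : ∀ (M : IntermediateField L K) (f : ∀ i, F i) (D : Fin (n + 1) → Derivation ℂ M M)
        (D' : Fin (n + 1) → Derivation ℂ K K),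
        (∀ i g, D' i (algebraMap M K g) = algebraMap M K (D i g)) →
        ∃ a : M, extForm 1 D0 x f D' = algebraMap M K a * (h * ∏ i, algebraMap (F i) K (f i)))
    (i0 : Fin (n + 1)) (h2 : ∀ f : ∀ i, F i, f i0 ∈ HH (D0 i0) →
      Algebra.trace (MF F L (Finset.univ.erase i0)) K (h * ∏ i, algebraMap (F i) K (f i)) = 0) :
    IsUniruled ℂ L (n + 1) := by
  have hD0' : ∀ i, D0 i ≠ 0 := by
    intro i h
    have := hD0 i
    rw [h] at this
    simp at this
  have halg := Pool.Agent.W619.X.alg_of_sup F hsup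
  -- the image in the product with the other factors
  obtain ⟨M, hM⟩ : ∃ M, M = MF F L (Finset.univ.erase i0) := ⟨_, rfl⟩
  have hle : BB' F i0 ≤ M.restrictScalars ℂ := by
    refine iSup_le fun j y hy => ?_
    rw [mem_restrictScalars, hM]
    exact mem_MJ (E := fun i => F i) _ (Finset.mem_erase.2 ⟨j.2, Finset.mem_univ _⟩) ⟨y, hy⟩
  obtain ⟨E', hE'⟩ : ∃ E' : IntermediateField (BB' F i0) K,
      E' = IntermediateField.extendScalars hle := ⟨_, rfl⟩
  have hE'r : E'.restrictScalars ℂ = M.restrictScalars ℂ := by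
    rw [hE']
    exact IntermediateField.extendScalars_restrictScalars hle
  have hfinE : FiniteDimensional E' K := by
    have h1 : FiniteDimensional M K := inferInstance
    rw [hE']
    exact h1
  have hfin := HH_finite (hD0' i0)
  obtain ⟨b, hb'⟩ : ∃ b, b = Module.finBasis ℂ (HH (D0 i0)) := ⟨_, rfl⟩
  have hspan : Submodule.span ℂ (Set.range fun j => (b j : F i0)) = HH (D0 i0) := by
    have h3 : (Set.range fun j => (b j : F i0)) = (HH (D0 i0)).subtype '' Set.range b := by
      rw [← Set.range_comp]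
      rfl
    rw [h3, Submodule.span_image, b.span_eq, Submodule.map_subtype_top]
  have hS := span_prod hsup hK i0 hx hD0 (fun j => (b j : F i0)) hspan f0 (fun i _ => hf0 i)
  have h3 := Pool.Agent.R882.GL.dich hK (BB' F i0) (trdeg_BB' F halg hK i0)
    (closed_BB' hsup hK i0) E' _ (fun j => prod_pluri x D0 _)
    (fun j P _ => prod_regular hx hD0 (by
      intro i
      by_cases hi : i = i0
      · subst hi
        rw [Function.update_self]
        exact (b j).2
      · rw [Function.update_of_ne hi]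
        exact hf0' i) P) hS (by
      intro j
      rw [hE'r]
      rintro ⟨D, D', hDD, hne⟩
      obtain ⟨a, ha⟩ := hval M (Function.update f0 i0 (b j)) D D' hDD
      have h7 : Algebra.trace M K (h * ∏ i, algebraMap (F i) K
          (Function.update f0 i0 (b j : F i0) i)) = 0 := by
        subst hM
        exact h2 _ (by rw [Function.update_self]; exact (b j).2)
      have h8 : Algebra.trace M K (extForm 1 D0 x (Function.update f0 i0 (b j)) D') = 0 := by
        rw [ha, ← Algebra.smul_def, map_smul, h7, smul_zero]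
      exact hne h8)
  rw [hE'r] at h3
  obtain ⟨C, i1, i2, hC, htrC, ⟨ψ⟩⟩ := h3
  let φ : L →ₐ[ℂ] (M.restrictScalars ℂ : IntermediateField ℂ K) :=
    { toFun := fun g => ⟨algebraMap L K g, M.algebraMap_mem g⟩
      map_one' := Subtype.ext (map_one _)
      map_mul' := fun a b => Subtype.ext (map_mul _ _ _)
      map_zero' := Subtype.ext (map_zero _)
      map_add' := fun a b => Subtype.ext (map_add _ _ _)
      commutes' := fun c => Subtype.ext (IsScalarTower.algebraMap_apply ℂ L K c).symm }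
  exact ⟨C, i1, i2, hC, htrC, ⟨ψ.comp φ⟩⟩

theorem mem_MF_univ {F : Fin n → IntermediateField ℂ K} {h : K}
    (hm : h ∈ IntermediateField.adjoin L (⋃ i, Set.range (algebraMap (F i) K))) :
    h ∈ MF F L Finset.univ := by
  have h3 : MF F L Finset.univ =
      IntermediateField.adjoin L (⋃ i, Set.range (algebraMap (F i) K)) := by
    unfold MF MJ
    congr 1
    ext y
    simp
  rw [h3]
  exact hm

theorem alg_back {N : IntermediateField ℂ L} (τ0 : K →ₐ[L] AlgebraicClosure L) {z : K}
    (h : IsAlgebraic N (τ0 z)) : IsAlgebraic N z := by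
  obtain ⟨p, hp0, hp⟩ := h
  refine ⟨p, hp0, ?_⟩
  apply τ0.injective
  rw [map_zero, ← hp, Polynomial.aeval_def, Polynomial.aeval_def, Polynomial.hom_eval₂]
  congr 1
  ext c
  exact τ0.commutes (c : L)

/-- **The dichotomy.** -/
theorem dichotomy [hess : Algebra.EssFiniteType ℂ K] {F : Fin (n + 1) → IntermediateField ℂ K}
    [∀ i, IsFF ℂ (F i)] (hsup : ⨆ i, F i = ⊤)
    (hK : Algebra.trdeg ℂ K = (n + 1 : ℕ)) {g : Fin (n + 1) → ℕ}
    (hg : ∀ i, ∀ y : F i, Transcendental ℂ y → g i ≤ finrank ℂ⟮y⟯ (F i)) {s : ℕ}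
    (hs : ∀ l : Fin (n + 1), l.val < s → 2 * finrank (MF F L (Js _ l))
      (IntermediateField.adjoin (MF F L (Js _ l)) (F l : Set K)) < g l)
    (hpair : ∀ i j : Fin (n + 1), s ≤ i.val → s ≤ j.val → i ≠ j →
      2 * finrank (MF F L (Js _ s))
        (IntermediateField.adjoin (MF F L (Js _ s)) (F i : Set K)) < g i ∨
      2 * finrank (MF F L (Js _ s))
        (IntermediateField.adjoin (MF F L (Js _ s)) (F j : Set K)) < g j ∨
      2 * finrank (MF F L (Js _ s)) K + 3 ≤ g i + g j) :
    IsUniruled ℂ L (n + 1) ∨ KodGe ℂ L (n + 1) (fun _ => False) n := by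
  have hL : Algebra.trdeg ℂ L = (n + 1 : ℕ) := Pool.Agent.Y184.NT.trdeg_below (K := K) hK
  have hessL : Algebra.EssFiniteType ℂ L := Pool.Agent.TH466.QG.ess_below (K := K)
  by_cases hrat : ∃ i, ∃ t : F i, ℂ⟮t⟯ = ⊤
  · exact Or.inl (unir_rat hsup hK hrat)
  push Not at hrat
  choose x hx using fun i => IsFF.exists_transcendental (k := ℂ) (K := F i)
  choose D0 hD0 using fun i => exists_D (hx i)
  have hD0' : ∀ i, D0 i ≠ 0 := by
    intro i h
    have := hD0 i
    rw [h] at this
    simp at this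
  have halg := Pool.Agent.W619.X.alg_of_sup F hsup
  have hb := Pool.Agent.W619.X.basis_of_alg F halg hK x hx
  obtain ⟨y, G, h, hy, hG, hh, hm, hreg, hval⟩ := exists_trace2 (L := L) hK hL hx hb hD0
  have hm' := mem_MF_univ hm
  obtain ⟨τ0⟩ : Nonempty (K →ₐ[L] AlgebraicClosure L) :=
    ⟨IsAlgClosed.lift (R := L) (M := AlgebraicClosure L) (S := K)⟩
  have hT : IsScalarTower ℂ L (AlgebraicClosure L) := inferInstance
  choose f0 hf0 hf0' using fun i => exists_regular (k := ℂ) (F := F i)
    (fun ⟨t, ht⟩ => hrat i t ht) (hD0' i)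
  have hf0H : ∀ i, f0 i ∈ HH (D0 i) := fun i P => Or.inr (hf0' i P)
  have hτne : ∀ (τ : K →ₐ[L] AlgebraicClosure L) (z : K), z ≠ 0 → τ z ≠ 0 := fun τ z hz =>
    (_root_.map_ne_zero τ).2 hz
  have herase := unir_erase (L := L) hsup hK hx hD0 hf0 hf0H hval
  by_cases hT0 : ∃ f : {f : ∀ i, F i // ∀ i, f i ∈ HH (D0 i)},
      Algebra.trace L K (h * ∏ i, algebraMap (F i) K (f.1 i)) ≠ 0
  swap
  · -- all traces vanish
    left
    push Not at hT0
    have h0 := rel_zero (D0 := D0) (h := h) (fun f hf => hT0 ⟨f, hf⟩) τ0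
    have hsep := fun i => sep_F (Ω := AlgebraicClosure L) hx hD0 (hg i)
    have h1 := rel_chain h0 hsep (s := s) (fun l hl => lt_of_le_of_lt (by omega) (hs l hl))
    have h2 := Rl.all_but_one h1 (fun τ => hτne τ h hh) g hsep f0 (fun l _ P => Or.inr (hf0' l P))
      (fun l τ => hτne τ (f0 l : K) (fun h => hf0 l (Subtype.ext h))) (by
        intro i j hi hj hij
        rw [mem_Js, not_lt] at hi hj
        rcases hpair i j hi hj hij with h3 | h3 | h3
        · exact Or.inl (lt_of_le_of_lt (count_le τ0 _ _) (by omega))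
        · exact Or.inr (Or.inl (lt_of_le_of_lt (count_le τ0 _ _) (by omega)))
        · right; right
          rw [card_le']
          omega)
    rcases h2 with h2 | ⟨i0, h2⟩
    · exact (rel_univ hh hm' h2).elim
    · exact herase i0 fun f hf => rel_erase h2 f hf
  · -- some trace does not vanish
    obtain ⟨f1, hf1⟩ := hT0
    obtain ⟨T, hTdef⟩ : ∃ T : {f : ∀ i, F i // ∀ i, f i ∈ HH (D0 i)} → L,
      ∀ f, T f = Algebra.trace L K (h * ∏ i, algebraMap (F i) K (f.1 i)) := ⟨_, fun _ => rfl⟩
    obtain ⟨Ω', iF, iA, iC, i1, i2, lam, hlam, hlamT, hpts⟩ := exists_pts T (f1 := f1)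
      (by rw [hTdef]; exact hf1)
    have h0 : Rl (P2 i1 i2 F L) (ev Ω' F) (fun i => (HH (D0 i) : Set (F i)))
        (C2 i1 i2 h lam) (Sum.inl τ0) ∅ :=
      rel2_zero i1 i2 (fun f hf => by
        have := hlamT ⟨f, hf⟩
        rw [hTdef] at this
        exact this) _
    have hsep := fun i => sep_F (Ω := Ω') hx hD0 (hg i)
    have h1 := Rl.chain h0 hsep (s := s)
      (fun l hl => lt_of_le_of_lt (count2_le i1 i2 τ0 _ l) (hs l hl))
    have h2 := Rl.all_but_one h1 (fun ρ => by
        rcases ρ with τ | τ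
        · change -(lam * i1 (τ h)) ≠ 0
          rw [neg_ne_zero]
          exact mul_ne_zero hlam ((_root_.map_ne_zero i1).2 (hτne τ h hh))
        · exact (_root_.map_ne_zero i2).2 (hτne τ h hh)) g hsep f0
      (fun l _ P => Or.inr (hf0' l P)) (fun l ρ => by
        have h3 : (f0 l : K) ≠ 0 := fun h => hf0 l (Subtype.ext h)
        rcases ρ with τ | τ
        · exact (_root_.map_ne_zero i1).2 (hτne τ _ h3)
        · exact (_root_.map_ne_zero i2).2 (hτne τ _ h3)) (by
        intro i j hi hj hij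
        rw [mem_Js, not_lt] at hi hj
        rcases hpair i j hi hj hij with h3 | h3 | h3
        · exact Or.inl (lt_of_le_of_lt (count2_le i1 i2 τ0 _ _) h3)
        · exact Or.inr (Or.inl (lt_of_le_of_lt (count2_le i1 i2 τ0 _ _) h3))
        · right; right
          have := card2_le i1 i2 (F := F) τ0 (Js _ s)
          omega)
    -- the Kodaira dimension
    have hkod : ∀ i0 : Fin (n + 1), (∃ τ : K →ₐ[L] AlgebraicClosure L, ∀ i, i ≠ i0 →
        ∀ z : F i, i2 (τ z) = i1 (τ0 z)) → KodGe ℂ L (n + 1) (fun _ => False) n := by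
      rintro i0 ⟨τ, hτ⟩
      have hind : AlgebraicIndependent ℂ fun l : Fin n => algebraMap (F (i0.succAbove l)) K
          (x (i0.succAbove l)) :=
        hb.1.comp i0.succAbove Fin.succAbove_right_injective
      refine kodGe_of_alg hL hG T ⟨f1, by rw [hTdef]; exact hf1⟩ (fun f P hP => ?_)
        (trdeg_adj hind) fun l => ?_
      · rw [hTdef]
        exact hreg f.1 f.2 P hP
      · exact alg_back τ0 (hpts _ _ (hτ _ (Fin.succAbove_ne i0 l) (x (i0.succAbove l))).symm)
    rcases h2 with h2 | ⟨i0, h2⟩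
    · obtain ⟨τ, hτ⟩ := rel2_univ i1 i2 hlam hh hm' h2
      exact Or.inr (hkod 0 ⟨τ, fun i _ z => hτ i z⟩)
    · rcases rel2_erase i1 i2 hlam h2 with h3 | h3
      · exact Or.inr (hkod i0 h3)
      · exact Or.inl (herase i0 h3)

end

end Pool.Agent.N145.PC
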