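import Pool.Agent.N145.PC.Nil

/-!
Points of a curve which do not impose independent conditions on the regular differentials.
-/

set_option autoImplicit false
set_option linter.overlappingInstances false
set_option linter.unusedSectionVars false

open Polynomial FF IsDedekindDomain IntermediateField

namespace Pool.Agent.N145.PC

open Pool.Agent.W603.LV Pool.Agent.W619.PQ

section

variable {k F : Type} [Field k] [Field F] [Algebra k F] [CharZero k] [IsFF k F] [IsAlgClosed k]

theorem isFF_adj {x : F} (hx : Transcendental k x) : IsFF k k⟮x⟯ := by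
  let xx : k⟮x⟯ := ⟨x, mem_adjoin_simple_self k x⟩
  have hxx : k⟮xx⟯ = ⊤ := by
    apply IntermediateField.lift_injective k⟮x⟯
    rw [IntermediateField.lift_adjoin_simple, IntermediateField.lift_top]
  have hxxt : Transcendental k xx := by
    intro h
    apply hx
    exact h.algebraMap (A := F)
  refine IsFF.of_finite hxxt ?_
  rw [hxx]
  exact FiniteDimensional.of_finrank_eq_succ (n := 0) (by
    rw [IntermediateField.finrank_top])

theorem ge_aeval' {M : Type} [Field M] [Algebra k M] (P : Place k M) {x : M} (hx : Ge P 0 x)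
    (p : k[X]) : Ge P 0 (aeval x p) := by
  induction p using Polynomial.induction_on' with
  | add p q hp hq => rw [map_add]; exact hp.add hq
  | monomial n c =>
    rw [aeval_monomial]
    have h1 := hx.pow n
    have h2 := (Ge.const (P := P) c).mul h1
    simpa using h2

/-- the value of a polynomial at a place -/
theorem ge_sub_eval {M : Type} [Field M] [Algebra k M] (P : Place k M) {x : M} {a : k}
    (hx : Ge P 1 (x - algebraMap k M a)) (p : k[X]) :
    Ge P 1 (aeval x p - algebraMap k M (p.eval a)) := by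
  have hx0 : Ge P 0 x := by
    have h1 := (hx.mono (by norm_num : (0 : ℤ) ≤ 1)).add (Ge.const (P := P) a)
    simpa using h1
  have h9 : X - C a ∣ p - C (p.eval a) := by
    rw [dvd_iff_isRoot]; simp
  obtain ⟨g, hg⟩ := h9
  have h10 : aeval x p - algebraMap k M (p.eval a) = (x - algebraMap k M a) * aeval x g := by
    have := congrArg (aeval x) hg
    rwa [map_sub, map_mul, map_sub, aeval_X, aeval_C, aeval_C] at this
  rw [h10]
  have h11 := hx.mul (ge_aeval' P hx0 g)
  simpa using h11

theorem const_eq_zero {M : Type} [Field M] [Algebra k M] (P : Place k M) {c : k}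
    (h : Ge P 1 (algebraMap k M c)) : c = 0 := by
  by_contra hc
  have h1 := h.resolve_left (by simpa using hc)
  rw [P.ord_const hc] at h1
  omega

/-- functions with prescribed values at the places over a point of the line -/
theorem exists_z {x : F} (hx : Transcendental k x) {P : Place k F} {a : k}
    (hP1 : P.ord (x - algebraMap k F a) = 1) :
    ∃ z ∈ BB (k := k) x, Ge P 1 (z - 1) ∧ ∀ w : Place k F, w ≠ P →
      0 < w.ord (x - algebraMap k F a) → Ge w (w.ord (x - algebraMap k F a)) z := by
  classical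
  obtain ⟨s, hs⟩ : ∃ s, s = x - algebraMap k F a := ⟨_, rfl⟩
  rw [← hs] at hP1 ⊢
  have hfs := finite_support (k := k) s
  obtain ⟨Z, hZ⟩ : ∃ Z : Finset (Place k F), ∀ w, w ∈ Z ↔ w ≠ P ∧ 0 < w.ord s := by
    refine ⟨hfs.toFinset.filter fun w => w ≠ P ∧ 0 < w.ord s, fun w => ?_⟩
    rw [Finset.mem_filter, hfs.mem_toFinset]
    constructor
    · exact fun h => h.2
    · intro h
      refine ⟨?_, h⟩
      have := h.2
      change w.ord s ≠ 0
      omega
  obtain ⟨M, hM⟩ : ∃ M : ℤ, 1 ≤ M ∧ ∀ w ∈ Z, w.ord s ≤ M := by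
    refine ⟨1 + ∑ w ∈ Z, ((w.ord s).natAbs : ℤ), ?_, fun w hw => ?_⟩
    · have : (0 : ℤ) ≤ ∑ w ∈ Z, ((w.ord s).natAbs : ℤ) := Finset.sum_nonneg fun _ _ => by positivity
      omega
    · have h1 := Finset.single_le_sum (f := fun w : Place k F => ((w.ord s).natAbs : ℤ))
        (fun _ _ => by positivity) hw
      have h2 : ((w.ord s).natAbs : ℤ) ≤ ∑ w ∈ Z, ((w.ord s).natAbs : ℤ) := h1
      omega
  obtain ⟨z0, h1, h2⟩ := approx_one Z P (fun h => ((hZ P).1 h).1 rfl) 1 M
  obtain ⟨g, hg0, hgB, hgc⟩ := clear hx z0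
  have hga : g.eval a ≠ 0 := by
    apply hgc
    intro w hw
    rw [← hs] at hw
    by_cases hwP : w = P
    · rw [hwP]
      have h3 := (h1.mono (by omega : (0 : ℤ) ≤ M)).add (Ge.one (P := P))
      simpa using h3
    · exact (h2 w ((hZ w).2 ⟨hwP, hw⟩)).mono (by omega)
  have hgaF : algebraMap k F (g.eval a) ≠ 0 := by simpa using hga
  -- values of `g`
  have hgv : ∀ w : Place k F, 0 < w.ord s → Ge w 1 (aeval x g - algebraMap k F (g.eval a)) := by
    intro w hw
    apply ge_sub_eval
    rw [← hs]
    exact Or.inr (by omega)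
  have hx0 : ∀ w : Place k F, 0 < w.ord s → Ge w 0 x := by
    intro w hw
    have h3 : Ge w 1 s := Or.inr (by omega)
    have h4 := (h3.mono (by norm_num : (0 : ℤ) ≤ 1)).add (Ge.const (P := w) a)
    rw [hs] at h4
    simpa using h4
  refine ⟨(g.eval a)⁻¹ • (aeval x g * z0), Submodule.smul_mem _ _ hgB, ?_, ?_⟩
  · have h3 : (g.eval a)⁻¹ • (aeval x g * z0) - 1 = algebraMap k F (g.eval a)⁻¹ *
        (aeval x g * (z0 - 1) + (aeval x g - algebraMap k F (g.eval a))) := by
      rw [Algebra.smul_def, map_inv₀]
      field_simp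
      ring
    rw [h3]
    have hPs : 0 < P.ord s := by omega
    have h4 := (ge_aeval' P (hx0 P hPs) g).mul (h1.mono hM.1)
    have h5 := (h4.mono (by norm_num : (1 : ℤ) ≤ 0 + 1)).add (hgv P hPs)
    have h6 := (Ge.const (P := P) (g.eval a)⁻¹).mul h5
    simpa using h6
  · intro w hwP hw
    rw [Algebra.smul_def]
    have h4 := (ge_aeval' w (hx0 w hw) g).mul (h2 w ((hZ w).2 ⟨hwP, hw⟩))
    have h6 := (Ge.const (P := w) (g.eval a)⁻¹).mul h4
    refine h6.mono ?_
    have := hM.2 w ((hZ w).2 ⟨hwP, hw⟩)
    omega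

/-- the value of the functional at a function with a simple pole -/
theorem lam_residue {x : F} (hx : Transcendental k x) {lam : F →ₗ[k] k}
    (hI : ∀ y ∈ BI (k := k) x, lam y = 0) {a : k} {y : F} {p : k[X]}
    (hp : eU p = SS lam hI ((x - algebraMap k F a) * y)) : lam y = p.eval a := by
  have hx0 : x ≠ 0 := by
    rintro rfl
    exact hx isAlgebraic_zero
  have h1 := SS_poly lam hI hx0 (X - C a) y
  have h0 : aeval x (X - C a : k[X]) = x - algebraMap k F a := by
    rw [map_sub, aeval_X, aeval_C]
  rw [h0, ← hp] at h1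
  have h9 : X - C a ∣ p - C (p.eval a) := by
    rw [dvd_iff_isRoot]; simp
  obtain ⟨p1, hp1⟩ := h9
  have h2 : eU p = eU (X - C a) * eU p1 + HahnSeries.C (p.eval a) := by
    rw [← map_mul, ← hp1, map_sub, eU_C]
    ring
  have hne : (X - C a : k[X]) ≠ 0 := X_sub_C_ne_zero a
  have hU0 : eU (X - C a : k[X]) ≠ 0 := by
    intro h
    exact hne (eU_injective (by rw [h, map_zero]))
  obtain ⟨s, hs⟩ : ∃ s, s = SS lam hI y := ⟨_, rfl⟩
  rw [← hs] at h1
  have h3 : s = eU p1 + HahnSeries.C (p.eval a) * (eU (X - C a))⁻¹ := by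
    have h4 : eU (X - C a) * s = eU (X - C a) * (eU p1 + HahnSeries.C (p.eval a) *
        (eU (X - C a))⁻¹) := by
      rw [← h1, h2, mul_add]
      congr 1
      rw [mul_comm (HahnSeries.C _), ← mul_assoc, mul_inv_cancel₀ hU0, one_mul]
    exact mul_left_cancel₀ hU0 h4
  -- the first coefficient of the inverse
  have h5 : ((eU (X - C a : k[X]))⁻¹ : LaurentSeries k).coeff 1 = 1 := by
    obtain ⟨g, hg⟩ : ∃ g : LaurentSeries k, g = (eU (X - C a : k[X]))⁻¹ := ⟨_, rfl⟩
    rw [← hg]
    have hg0 : g ≠ 0 := by
      rw [hg]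
      exact inv_ne_zero hU0
    have hmul : eU (X - C a) * g = 1 := by
      rw [hg, mul_inv_cancel₀ hU0]
    have hord : g.order = 1 := by
      have h6 := congrArg HahnSeries.order hmul
      rw [HahnSeries.order_mul hU0 hg0, order_eU hne, natDegree_X_sub_C, HahnSeries.order_one] at h6
      push_cast at h6
      omega
    have h7 : (eU (X - C a) * g).coeff 0 = (1 : LaurentSeries k).coeff 0 := by rw [hmul]
    rw [map_sub, eU_X, eU_C, sub_mul, HahnSeries.coeff_sub, HahnSeries.C_mul_eq_smul,
      HahnSeries.coeff_smul] at h7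
    have h8 : g.coeff 0 = 0 := HahnSeries.coeff_eq_zero_of_lt_order (by rw [hord]; norm_num)
    have h10 := HahnSeries.coeff_single_mul_add (r := (1 : k)) (x := g) (a := 1) (b := (-1 : ℤ))
    rw [show (1 : ℤ) + (-1 : ℤ) = 0 by norm_num] at h10
    have h11 : (U * g : LaurentSeries k).coeff 0 = g.coeff 1 := by
      unfold U
      rw [h10, one_mul]
    rw [h11, h8, smul_zero, sub_zero, HahnSeries.coeff_one, if_pos rfl] at h7
    exact h7
  have h6 : s.coeff 1 = p.eval a := by
    rw [h3, HahnSeries.coeff_add, coeff_eU, if_neg (by norm_num), HahnSeries.C_mul_eq_smul,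
      HahnSeries.coeff_smul, h5]
    simp
  rw [hs, SS_coeff] at h6
  simpa using h6

/-- **Duality.** If a linear relation holds between the values of the regular differentials `f dx`
at the places `P ∈ S`, then there is a function whose poles are simple and are the places of `S`
which appear in the relation. -/
theorem dual {x : F} (hx : Transcendental k x) {D : Derivation k F F} (hD : D x = 1)
    (S : Finset (Place k F)) (a : Place k F → k)
    (ha : ∀ P ∈ S, P.ord (x - algebraMap k F (a P)) = 1) (c : Place k F → k)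
    (hrel : ∀ f : F, (∀ P : Place k F, vo P D ≤ P.ord f) → f ≠ 0 →
      ∀ v : Place k F → k, (∀ P ∈ S, Ge P 1 (f - algebraMap k F (v P))) →
        ∑ P ∈ S, c P * v P = 0) :
    ∃ g : F, (∀ P ∈ S, c P ≠ 0 → P.ord g = -1) ∧ ∀ P : Place k F, P ∉ S → Ge P 0 g := by
  classical
  have hfin := IsFF.finite hx
  have hFFx : IsFF k k⟮x⟯ := isFF_adj hx
  have hD0 : D ≠ 0 := by
    rintro rfl
    simp at hD
  -- the data at each place
  have hz : ∀ P : Place k F, ∃ (z : F) (κ : k), P ∈ S → z ∈ BB (k := k) x ∧ Ge P 1 (z - 1) ∧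
      (∀ w : Place k F, w ≠ P → 0 < w.ord (x - algebraMap k F (a P)) →
        Ge w (w.ord (x - algebraMap k F (a P))) z) ∧ κ ≠ 0 ∧
      ∀ (f : F), (∀ P : Place k F, vo P D ≤ P.ord f) → f ≠ 0 → ∀ v : k,
        Ge P 1 (f - algebraMap k F v) → ∀ p : k[X], Algebra.trace k⟮x⟯ F (f * z) = px x p →
          p.eval (a P) = κ * v := by
    intro P
    by_cases hPS : P ∈ S
    swap
    · exact ⟨0, 0, fun h => absurd h hPS⟩
    have haP := ha P hPS
    obtain ⟨z, hzB, hz1, hz2⟩ := exists_z hx haP
    obtain ⟨s, hs⟩ : ∃ s, s = x - algebraMap k F (a P) := ⟨_, rfl⟩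
    rw [← hs] at haP hz2
    let xx : k⟮x⟯ := ⟨x, mem_adjoin_simple_self k x⟩
    let ss : k⟮x⟯ := xx - algebraMap k k⟮x⟯ (a P)
    have hss : algebraMap k⟮x⟯ F ss = s := by rw [hs]; rfl
    obtain ⟨e0, q, hq⟩ := exists_over (K := k⟮x⟯) P ⟨ss, by
      rw [hss]; omega⟩
    have hq1 : (e0 : ℤ) * q.ord ss = 1 := by
      rw [← hq.2 ss, hss, haP]
    have hqs : q.ord ss = 1 := by
      have h1 : (0 : ℤ) < e0 := by exact_mod_cast hq.1
      have h2 : 0 < q.ord ss := by
        by_contra h3
        push Not at h3
        nlinarith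
      nlinarith
    have he0 : e0 = 1 := by
      rw [hqs, mul_one] at hq1
      exact_mod_cast hq1
    have hw : ∀ (w : Place k F) (e : ℕ), Over w q e → w.ord s = e := by
      intro w e h
      rw [← hss, h.2, hqs, mul_one]
    have hwp : ∀ (w : Place k F) (e : ℕ), Over w q e → 0 < w.ord s := by
      intro w e h
      rw [hw w e h]
      exact_mod_cast h.1
    have hfs := finite_support (k := k) s
    have hN : ∀ (w : Place k F) (e : ℕ), Over w q e →
        e ≤ ∑ w ∈ hfs.toFinset, (w.ord s).natAbs := by
      intro w e h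
      have h1 := hw w e h
      have h2 := hwp w e h
      have h3 : w ∈ hfs.toFinset := by
        rw [hfs.mem_toFinset]
        change w.ord s ≠ 0
        omega
      have h4 := Finset.single_le_sum (f := fun w : Place k F => (w.ord s).natAbs)
        (fun _ _ => Nat.zero_le _) h3
      have h5 : (w.ord s).natAbs ≤ ∑ w ∈ hfs.toFinset, (w.ord s).natAbs := h4
      omega
    have hzreg : ∀ (w : Place k F) (e : ℕ), Over w q e → Ge w 0 z := by
      intro w e h
      by_cases hwP : w = P
      · rw [hwP]
        have h3 := (hz1.mono (by norm_num : (0 : ℤ) ≤ 1)).add (Ge.one (P := P))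
        simpa using h3
      · exact (hz2 w hwP (hwp w e h)).mono (hwp w e h).le
    -- the trace of `z`
    obtain ⟨κ, hκ⟩ := exists_const q (trace_reg q z hzreg)
    have hunit : ¬ Ge q 1 (Algebra.trace k⟮x⟯ F z) := by
      refine trace_unit q z ?_ hzreg P e0 hq hz1
      intro w e h
      have e1 : z ^ 2 - z = z * (z - 1) := by ring
      rw [e1]
      by_cases hwP : w = P
      · subst hwP
        have h3 := (hzreg w e h).mul hz1
        refine h3.mono ?_
        have h4 := hw w e h
        omega
      · have h3 := hz2 w hwP (hwp w e h)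
        have h4 : Ge w 0 (z - 1) := (hzreg w e h).sub Ge.one
        refine (h3.mul h4).mono ?_
        have h5 := hw w e h
        omega
    have hκ0 : κ ≠ 0 := by
      rintro rfl
      apply hunit
      rw [map_zero, sub_zero] at hκ
      exact hκ
    refine ⟨z, κ, fun _ => ⟨hzB, hz1, ?_, hκ0, ?_⟩⟩
    · rw [← hs]
      exact hz2
    · intro f hf hf0 v hv p hp
      have hfz : ∀ (w : Place k F) (e : ℕ), Over w q e → Ge w 1 (f * z - algebraMap k F v * z) := by
        intro w e h
        by_cases hwP : w = P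
        · subst hwP
          have e1 : f * z - algebraMap k F v * z = (f - algebraMap k F v) * z := by ring
          rw [e1]
          have h3 := hv.mul (hzreg w e h)
          simpa using h3
        · have h3 := hz2 w hwP (hwp w e h)
          have h4 : Ge w 1 (algebraMap k F v * z) := by
            refine ((Ge.const (P := w) v).mul h3).mono ?_
            have := hwp w e h
            omega
          have h5 : Ge w 1 (f * z) := by
            have h6 : Ge w (w.ord f) f := Or.inr le_rfl
            refine (h6.mul h3).mono ?_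
            -- `vo w D = 1 - w.ord s`
            have h7 := (ord_der w hD0 (f := s) (by have := hwp w e h; omega)).2
            have h8 : D s = 1 := by
              rw [hs, map_sub, hD, Derivation.map_algebraMap, sub_zero]
            rw [h8, w.ord_one] at h7
            have h9 := hf w
            omega
          exact h5.sub h4
      have h10 := trace_nil q _ _ hN hfz
      have h11 : Algebra.trace k⟮x⟯ F (f * z - algebraMap k F v * z) =
          px x p - algebraMap k k⟮x⟯ v * Algebra.trace k⟮x⟯ F z := by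
        rw [map_sub, hp]
        congr 1
        have h12 := trace_mul_left (algebraMap k k⟮x⟯ v) z
        exact h12
      rw [h11] at h10
      have h12 : Ge q 1 (px x p - algebraMap k k⟮x⟯ (p.eval (a P))) := by
        refine ge_sub_eval q (x := xx) ?_ p
        exact Or.inr (by rw [← hqs])
      have h13 : Ge q 1 (algebraMap k k⟮x⟯ (p.eval (a P) - κ * v)) := by
        have h14 : algebraMap k k⟮x⟯ (p.eval (a P) - κ * v) =
            (px x p - algebraMap k k⟮x⟯ v * Algebra.trace k⟮x⟯ F z) -
            (px x p - algebraMap k k⟮x⟯ (p.eval (a P))) +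
            algebraMap k k⟮x⟯ v * (Algebra.trace k⟮x⟯ F z - algebraMap k k⟮x⟯ κ) := by
          rw [map_sub, map_mul]
          ring
        rw [h14]
        have h15 := (Ge.const (P := q) v).mul hκ
        refine (h10.sub h12).add ?_
        simpa using h15
      have h16 := const_eq_zero q h13
      exact sub_eq_zero.1 h16
  choose z κ hz using hz
  -- the function with simple poles
  obtain ⟨y, hy⟩ : ∃ y : Place k F → F, y = fun P => z P / (x - algebraMap k F (a P)) := ⟨_, rfl⟩
  have hsne : ∀ b : k, x - algebraMap k F b ≠ 0 := sub_const_ne hx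
  have hyz : ∀ P, (x - algebraMap k F (a P)) * y P = z P := by
    intro P
    rw [hy]
    exact mul_div_cancel₀ _ (hsne _)
  -- regularity of `y P` at the other places
  have hyreg : ∀ P ∈ S, ∀ w : Place k F, 0 ≤ w.ord x → w ≠ P → Ge w 0 (y P) := by
    intro P hP w hwx hwP
    obtain ⟨h1, -, h3, -⟩ := hz P hP
    have h5 : Ge w 0 (x - algebraMap k F (a P)) := Ge.sub (Or.inr hwx) (Ge.const _)
    have h6 := h5.resolve_left (hsne _)
    refine Ge.of_mul' (h := x - algebraMap k F (a P)) (m := w.ord (x - algebraMap k F (a P)))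
      (hsne _) rfl ?_
    rw [hyz]
    rcases h6.eq_or_lt with h7 | h7
    · rw [← h7]
      simpa using h1 w hwx
    · simpa using h3 w hwP h7
  have hypole : ∀ P ∈ S, P.ord (y P) = -1 := by
    intro P hP
    obtain ⟨-, h2, -⟩ := hz P hP
    have h3 : z P ≠ 0 ∧ P.ord (z P) = 0 := by
      by_cases h4 : z P - 1 = 0
      · rw [sub_eq_zero.1 h4]
        exact ⟨one_ne_zero, P.ord_one⟩
      · have h5 := h2.resolve_left h4
        have h6 := P.ord_add_eq (f := 1) (g := z P - 1) one_ne_zero h4 (by rw [P.ord_one]; omega)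
        rwa [add_sub_cancel, P.ord_one] at h6
    rw [hy]
    change P.ord (z P / (x - algebraMap k F (a P))) = -1
    rw [P.ord_div h3.1 (hsne _), h3.2, ha P hP]
    norm_num
  obtain ⟨Y, hY⟩ : ∃ Y : F, Y = ∑ P ∈ S, algebraMap k F (c P / κ P) * y P := ⟨_, rfl⟩
  have hmem : Y ∈ BB (k := k) x ⊔ BI (k := k) x := by
    by_contra hcon
    obtain ⟨lam, hlam, hle⟩ := Submodule.exists_le_ker_of_notMem hcon
    have hB : ∀ y ∈ BB (k := k) x, lam y = 0 := fun y hy => hle (Submodule.mem_sup_left hy)
    have hI : ∀ y ∈ BI (k := k) x, lam y = 0 := fun y hy => hle (Submodule.mem_sup_right hy)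
    have hlne : lam ≠ 0 := by
      rintro rfl
      exact hlam rfl
    obtain ⟨f, hf0, hf⟩ := exists_mult lam hI hx hB hlne
    have hfreg := mult_regular hx D hD lam hI hB hf0 hf
    -- the values of `f`
    have hval : ∀ P : Place k F, ∃ v : k, P ∈ S → Ge P 1 (f - algebraMap k F v) := by
      intro P
      by_cases hP : P ∈ S
      · have h1 : vo P D = 0 := by
          have h7 := (ord_der P hD0 (f := x - algebraMap k F (a P)) (by
            rw [ha P hP]; norm_num)).2
          have h8 : D (x - algebraMap k F (a P)) = 1 := by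
            rw [map_sub, hD, Derivation.map_algebraMap, sub_zero]
          rw [h8, P.ord_one, ha P hP] at h7
          omega
        have h2 := hfreg P
        rw [h1] at h2
        obtain ⟨v, hv⟩ := exists_const P (f := f) (Or.inr h2)
        exact ⟨v, fun _ => hv⟩
      · exact ⟨0, fun h => absurd h hP⟩
    choose v hv using hval
    have h1 := hrel f hfreg hf0 v hv
    apply hlam
    have h2 : ∀ P ∈ S, lam (y P) = κ P * v P := by
      intro P hP
      obtain ⟨h3, -, -, -, h5⟩ := hz P hP
      obtain ⟨p, hp⟩ := SS_of_BB lam hI hB h3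
      have h6 : Algebra.trace k⟮x⟯ F (f * z P) = px x p := by
        apply iota_injective hx
        rw [hf, iota_px, hp]
      rw [← h5 f hfreg hf0 (v P) (hv P hP) p h6]
      refine lam_residue hx hI ?_
      rw [hyz, hp]
    rw [hY, map_sum, ← h1]
    refine Finset.sum_congr rfl fun P hP => ?_
    obtain ⟨-, -, -, hκ0, -⟩ := hz P hP
    rw [← Algebra.smul_def, map_smul, smul_eq_mul, h2 P hP]
    field_simp
  obtain ⟨b, hb, g, hg, hbg⟩ := Submodule.mem_sup.1 hmem
  have hge : g = Y - b := by rw [← hbg]; ring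
  have hxS : ∀ P ∈ S, 0 ≤ P.ord x := by
    intro P hP
    by_contra hcon
    push Not at hcon
    have h1 := ha P hP
    by_cases h0 : a P = 0
    · rw [h0, map_zero, sub_zero] at h1
      omega
    · have hx0 : x ≠ 0 := by
        rintro rfl
        exact hx isAlgebraic_zero
      have h2 := P.ord_add_eq (f := x) (g := -algebraMap k F (a P)) hx0 (by simpa using h0) (by
        rw [P.ord_neg, P.ord_const h0]; exact hcon)
      rw [← sub_eq_add_neg] at h2
      omega
  refine ⟨g, fun P hP hc => ?_, fun P hP => ?_⟩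
  · -- a simple pole
    obtain ⟨-, -, -, hκ0, -⟩ := hz P hP
    have h1 : Y = algebraMap k F (c P / κ P) * y P +
        ∑ Q ∈ S.erase P, algebraMap k F (c Q / κ Q) * y Q := by
      rw [hY, Finset.add_sum_erase S (fun Q => algebraMap k F (c Q / κ Q) * y Q) hP]
    have h2 : Ge P 0 (∑ Q ∈ S.erase P, algebraMap k F (c Q / κ Q) * y Q) := by
      refine Ge.sum _ _ fun Q hQ => ?_
      have h3 := hyreg Q (Finset.mem_of_mem_erase hQ) P (hxS P hP) (Finset.ne_of_mem_erase hQ).symm
      have h4 := (Ge.const (P := P) (c Q / κ Q)).mul h3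
      simpa using h4
    have h3 : Ge P 0 (∑ Q ∈ S.erase P, algebraMap k F (c Q / κ Q) * y Q - b) :=
      h2.sub (hb P (hxS P hP))
    have hck : c P / κ P ≠ 0 := div_ne_zero hc hκ0
    have hy0 : y P ≠ 0 := by
      intro h
      have h4 := hypole P hP
      rw [h, P.ord_zero] at h4
      omega
    have h4 : P.ord (algebraMap k F (c P / κ P) * y P) = -1 := by
      rw [P.ord_mul (by simpa using hck) hy0, P.ord_const hck, hypole P hP]
      norm_num
    have h5 : g = algebraMap k F (c P / κ P) * y P +
        (∑ Q ∈ S.erase P, algebraMap k F (c Q / κ Q) * y Q - b) := by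
      rw [hge, h1]
      ring
    have h6 : algebraMap k F (c P / κ P) * y P ≠ 0 := mul_ne_zero (by simpa using hck) hy0
    rw [h5]
    by_cases h7 : ∑ Q ∈ S.erase P, algebraMap k F (c Q / κ Q) * y Q - b = 0
    · rw [h7, add_zero, h4]
    · rw [(P.ord_add_eq h6 h7 (by rw [h4]; have := h3.resolve_left h7; omega)).2, h4]
  · by_cases hPx : P.ord x < 0
    · exact hg P hPx
    · push Not at hPx
      rw [hge]
      refine Ge.sub ?_ (hb P hPx)
      rw [hY]
      refine Ge.sum _ _ fun Q hQ => ?_
      have h3 := hyreg Q hQ P hPx (fun h => hP (by rw [h]; exact hQ))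
      have h4 := (Ge.const (P := P) (c Q / κ Q)).mul h3
      simpa using h4

end

end Pool.Agent.N145.PC
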