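import Pool.Agent.N145.PC.Prod
import Pool.Agent.N145.PC.Base
import Pool.Agent.R882.GLd

/-!
The fibration of a product of curves over the product of all factors except one.
-/

set_option autoImplicit false
set_option linter.overlappingInstances false
set_option linter.unusedSectionVars false
set_option maxHeartbeats 4000000
set_option synthInstance.maxHeartbeats 400000

open Polynomial FF IsDedekindDomain IntermediateField Module

namespace Pool.Agent.N145.PC

open Pool.Agent.W603.LV Pool.Agent.W619.PQ
open Pool.Agent.W602.GT (Divisorial RegAt IsPluri DerReg)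

section

variable {K : Type} [Field K] [Algebra ℂ K] {n : ℕ} (F : Fin (n + 1) → IntermediateField ℂ K)

/-- the functions on the product of the factors except `i0` -/
noncomputable def BB' (i0 : Fin (n + 1)) : IntermediateField ℂ K := ⨆ j : {j : Fin (n + 1) // j ≠ i0}, F j.1

theorem le_BB' {i0 j : Fin (n + 1)} (h : j ≠ i0) : F j ≤ BB' F i0 :=
  le_iSup (fun j : {j : Fin (n + 1) // j ≠ i0} => F j.1) ⟨j, h⟩

variable [∀ i, IsFF ℂ (F i)]

open scoped IntermediateField.algebraAdjoinAdjoin in
/-- nonconstant functions on the factor `i0` are transcendental over the other factors -/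
theorem not_alg (halg : Algebra.IsAlgebraic ↥(⨆ i, F i) K)
    (hK : Algebra.trdeg ℂ K = (n + 1 : ℕ)) (i0 : Fin (n + 1)) {z : F i0}
    (hz : Transcendental ℂ z) : ¬ IsAlgebraic (BB' F i0) (z : K) := by
  classical
  intro h
  choose x0 hx0 using fun i => IsFF.exists_transcendental (k := ℂ) (K := F i)
  obtain ⟨x, hxdef⟩ : ∃ x, x = Function.update x0 i0 z := ⟨_, rfl⟩
  have hx : ∀ i, Transcendental ℂ (x i) := by
    intro i
    rw [hxdef]
    by_cases h : i = i0
    · subst h
      rwa [Function.update_self]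
    · rw [Function.update_of_ne h]
      exact hx0 i
  have hb := Pool.Agent.W619.X.basis_of_alg F halg hK x hx
  obtain ⟨S, hS⟩ : ∃ S, S = IntermediateField.adjoin ℂ
    (Set.range fun j : Fin n => (x (i0.succAbove j) : K)) := ⟨_, rfl⟩
  have hBS : ∀ y ∈ BB' F i0, IsAlgebraic S y := by
    intro y hy
    have h1 := alg_iSup (fun j : {j : Fin (n + 1) // j ≠ i0} => F j.1) (fun j => x j.1)
      (fun j => hx j.1) hy
    have h2 : (Set.range fun j : {j : Fin (n + 1) // j ≠ i0} => (x j.1 : K)) =
        Set.range fun j : Fin n => (x (i0.succAbove j) : K) := by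
      ext y
      constructor
      · rintro ⟨⟨j, hj⟩, rfl⟩
        obtain ⟨j', rfl⟩ := Fin.exists_succAbove_eq hj
        exact ⟨j', rfl⟩
      · rintro ⟨j, rfl⟩
        exact ⟨⟨i0.succAbove j, Fin.succAbove_ne _ _⟩, rfl⟩
    rw [h2, ← hS] at h1
    exact h1
  have hzS : IsAlgebraic S (z : K) := by
    let A : IntermediateField S K := algebraicClosure S K
    let f : BB' F i0 →+* A := ((BB' F i0).val : BB' F i0 →+* K).codRestrict A
      fun y => mem_algebraicClosure_iff.2 (hBS y y.2)
    have h1 : IsAlgebraic A (z : K) :=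
      h.ringHom_of_comp_eq f (RingHom.id K) f.injective (by ext y; rfl)
    have h4 : Algebra.IsAlgebraic S A := algebraicClosure.isAlgebraic S K
    exact IsAlgebraic.restrictScalars S h1
  have h1 : IsAlgebraic (Algebra.adjoin ℂ (Set.range fun j : Fin n =>
      (x (i0.succAbove j) : K))) (z : K) := by
    refine (IsFractionRing.isAlgebraic_iff (Algebra.adjoin ℂ (Set.range fun j : Fin n =>
      (x (i0.succAbove j) : K))) (IntermediateField.adjoin ℂ (Set.range fun j : Fin n =>
      (x (i0.succAbove j) : K))) K).2 ?_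
    rw [← hS]
    exact hzS
  have h2 : AlgebraicIndependent ℂ fun o : Option (Fin n) =>
      (o.elim (z : K) fun l => (x (i0.succAbove l) : K) : K) := by
    have h3 : (fun o : Option (Fin n) => (o.elim (z : K) fun l => (x (i0.succAbove l) : K) : K)) =
        (fun i : Fin (n + 1) => (x i : K)) ∘
          fun o : Option (Fin n) => o.elim i0 i0.succAbove := by
      funext o
      rcases o with _ | l
      · change (z : K) = (x i0 : K)
        rw [hxdef, Function.update_self]
      · rfl
    rw [h3]
    refine hb.1.comp _ ?_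
    rintro (_ | l) (_ | l') h4
    · rfl
    · exact absurd h4 (Fin.succAbove_ne i0 l').symm
    · exact absurd h4 (Fin.succAbove_ne i0 l)
    · exact congrArg some (Fin.succAbove_right_injective h4)
  have h4 : AlgebraicIndependent ℂ fun l : Fin n => (x (i0.succAbove l) : K) :=
    hb.1.comp i0.succAbove Fin.succAbove_right_injective
  exact (h4.option_iff_transcendental _).1 h2 h1

theorem trdeg_BB' (halg : Algebra.IsAlgebraic ↥(⨆ i, F i) K)
    (hK : Algebra.trdeg ℂ K = (n + 1 : ℕ)) (i0 : Fin (n + 1)) :
    Algebra.trdeg ℂ (BB' F i0) = n := by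
  classical
  choose x hx using fun i => IsFF.exists_transcendental (k := ℂ) (K := F i)
  have hb := Pool.Agent.W619.X.basis_of_alg F halg hK x hx
  let t : Fin n → BB' F i0 := fun j => ⟨x (i0.succAbove j),
    le_BB' F (Fin.succAbove_ne i0 j) (x (i0.succAbove j)).2⟩
  have h1 : AlgebraicIndependent ℂ t :=
    AlgebraicIndependent.of_comp (BB' F i0).val (hb.1.comp i0.succAbove Fin.succAbove_right_injective)
  have h2 : (n : Cardinal) ≤ Algebra.trdeg ℂ (BB' F i0) := by
    have h3 := h1.cardinalMk_le_trdeg
    simpa using h3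
  have h3 := trdeg_add_eq ℂ (BB' F i0) (A := K)
  rw [hK] at h3
  have h4 : Algebra.trdeg (BB' F i0) K ≠ 0 := by
    rw [Ne, trdeg_eq_zero_iff]
    intro h
    exact not_alg F halg hK i0 (hx i0) (h.isAlgebraic _)
  have h5 : (1 : Cardinal) ≤ Algebra.trdeg (BB' F i0) K := Cardinal.one_le_iff_ne_zero.2 h4
  have h6 : Algebra.trdeg ℂ (BB' F i0) < Cardinal.aleph0 := by
    refine lt_of_le_of_lt ?_ (Cardinal.natCast_lt_aleph0 (n := n + 1))
    rw [← h3]
    exact self_le_add_right _ _
  obtain ⟨m, hm⟩ := Cardinal.lt_aleph0.1 h6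
  rw [hm] at h2 h3 ⊢
  have h7 : (m : Cardinal) + 1 ≤ ((n + 1 : ℕ) : Cardinal) := by
    rw [← h3]
    exact add_le_add le_rfl h5
  have h8 : n ≤ m := by exact_mod_cast h2
  have h9 : m + 1 ≤ n + 1 := by exact_mod_cast h7
  congr 1
  omega

variable {F}

theorem gen_BB' (hsup : ⨆ i, F i = ⊤) (i0 : Fin (n + 1)) :
    IntermediateField.adjoin (BB' F i0) (F i0 : Set K) = ⊤ := by
  rw [eq_top_iff]
  intro z _
  have h1 : ⨆ i, F i ≤ (IntermediateField.adjoin (BB' F i0) (F i0 : Set K)).restrictScalars ℂ := by
    refine iSup_le fun j y hy => ?_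
    rw [mem_restrictScalars]
    by_cases hj : j = i0
    · subst hj
      exact IntermediateField.subset_adjoin _ _ hy
    · exact (IntermediateField.adjoin (BB' F i0) (F i0 : Set K)).algebraMap_mem
        ⟨y, le_BB' F hj hy⟩
  exact h1 (by rw [hsup]; trivial)

/-- the functions on the product are quotients of sums of products -/
theorem mem_span_of_adjoin {B F0 : IntermediateField ℂ K} {ι : Type} (v : Basis ι ℂ F0) {r : K}
    (hr : r ∈ Algebra.adjoin B (F0 : Set K)) :
    r ∈ Submodule.span B (Set.range fun i => (v i : K)) := by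
  have h1 : r ∈ Submodule.span B (F0 : Set K) := by
    have h2 : r ∈ Subalgebra.toSubmodule (Algebra.adjoin B (F0 : Set K)) := hr
    rw [Algebra.adjoin_eq_span] at h2
    have h3 : (Submonoid.closure (F0 : Set K) : Set K) = F0 := by
      have h4 := Submonoid.closure_eq F0.toSubfield.toSubmonoid
      exact congrArg (fun S : Submonoid K => (S : Set K)) h4
    rwa [h3] at h2
  refine Submodule.span_le.2 ?_ h1
  intro y hy
  have h2 := v.mem_span ⟨y, hy⟩
  have h3 : ∀ w : F0, w ∈ Submodule.span ℂ (Set.range v) →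
      (w : K) ∈ Submodule.span B (Set.range fun i => (v i : K)) := by
    intro w hw
    induction hw using Submodule.span_induction with
    | mem w hw =>
      obtain ⟨i, rfl⟩ := hw
      exact Submodule.subset_span ⟨i, rfl⟩
    | zero => exact Submodule.zero_mem _
    | add a b _ _ ha hb => exact Submodule.add_mem _ ha hb
    | smul c a _ ha =>
      have h4 : ((c • a : F0) : K) = (algebraMap ℂ B c) • (a : K) := by
        rw [Algebra.smul_def, Algebra.smul_def]
        rfl
      rw [h4]
      exact Submodule.smul_mem _ _ ha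
  exact h3 _ h2

/-- the other factors are algebraically closed in the product -/
theorem closed_BB' [hess : Algebra.EssFiniteType ℂ K] (hsup : ⨆ i, F i = ⊤)
    (hK : Algebra.trdeg ℂ K = (n + 1 : ℕ)) (i0 : Fin (n + 1)) (z : K)
    (hz : IsAlgebraic (BB' F i0) z) : z ∈ BB' F i0 := by
  classical
  have halg := Pool.Agent.W619.X.alg_of_sup F hsup
  have hB := trdeg_BB' F halg hK i0
  have hna : ∀ y : F i0, Transcendental ℂ y → ¬ IsAlgebraic (BB' F i0) (y : K) :=
    fun y hy => not_alg F halg hK i0 hy
  have hgen0 := gen_BB' hsup i0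
  obtain ⟨B, hBdef⟩ : ∃ B, B = BB' F i0 := ⟨_, rfl⟩
  rw [← hBdef] at hB hna hgen0 hz ⊢
  let Ω := AlgebraicClosure K
  let Λ : IntermediateField B Ω := algebraicClosure B Ω
  have hΛ : IsAlgClosed Λ := (algebraicClosure.isAlgClosure B Ω).isAlgClosed
  have hΛalg : Algebra.IsAlgebraic B Λ := inferInstance
  let E : IntermediateField Λ Ω := IntermediateField.adjoin Λ (Set.range (algebraMap K Ω))
  have hTL : IsScalarTower ℂ B Ω := IsScalarTower.of_algebraMap_eq fun z => by
    rw [IsScalarTower.algebraMap_apply ℂ K Ω]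
    rfl
  have hTΛ : IsScalarTower ℂ Λ Ω := IsScalarTower.of_algebraMap_eq fun z => by
    rw [IsScalarTower.algebraMap_apply ℂ B Ω]
    rfl
  let φ0 : K →+* E :=
    { toFun := fun z => ⟨algebraMap K Ω z, IntermediateField.subset_adjoin _ _ ⟨z, rfl⟩⟩
      map_one' := Subtype.ext (map_one _)
      map_mul' := fun a b => Subtype.ext (map_mul _ _ _)
      map_zero' := Subtype.ext (map_zero _)
      map_add' := fun a b => Subtype.ext (map_add _ _ _) }
  let iKF : Algebra K E := φ0.toAlgebra
  have hKF : ∀ z : K, ((algebraMap K E z : E) : Ω) = algebraMap K Ω z := fun z => rfl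
  have hT1 : IsScalarTower B K E := IsScalarTower.of_algebraMap_eq fun z => Subtype.ext rfl
  have hT2 : IsScalarTower ℂ K E := IsScalarTower.of_algebraMap_eq fun z => by
    apply Subtype.ext
    rw [hKF, ← IsScalarTower.algebraMap_apply ℂ K Ω]
    rfl
  have hT3 : IsScalarTower ℂ B Λ := inferInstance
  have hT4 : IsScalarTower B Λ E := IsScalarTower.of_algebraMap_eq fun z => Subtype.ext rfl
  have hT5 : IsScalarTower ℂ Λ E := inferInstance
  have hgenF : IntermediateField.adjoin Λ (Set.range (algebraMap K E)) = ⊤ := by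
    have h1 : (IntermediateField.adjoin Λ (Set.range (algebraMap K E))).map E.val =
        (⊤ : IntermediateField Λ E).map E.val := by
      rw [IntermediateField.adjoin_map, ← AlgHom.fieldRange_eq_map,
        IntermediateField.fieldRange_val]
      congr 1
      ext z
      simp only [Set.mem_image, Set.mem_range]
      constructor
      · rintro ⟨_, ⟨y, rfl⟩, rfl⟩
        exact ⟨y, rfl⟩
      · rintro ⟨y, rfl⟩
        exact ⟨_, ⟨y, rfl⟩, rfl⟩
    exact IntermediateField.map_injective _ h1
  have hLK : Algebra.trdeg B K = (1 : ℕ) := Pool.Agent.Y174.trdeg_LK (r := 1) hB hK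
  have htrF : Algebra.trdeg Λ E = (1 : ℕ) :=
    Pool.Agent.Y174.trdeg_F (L := B) (K := K) hLK hgenF
  have hessF : Algebra.EssFiniteType Λ E := Pool.Agent.Y174.ess_F (k := ℂ) (K := K) hess hgenF
  have hFF : IsFF Λ E := ⟨hessF, by rw [htrF]; simp⟩
  have htransc : ∀ z : K, ¬ IsAlgebraic B z → Transcendental Λ (algebraMap K E z) := by
    intro z hz h
    apply hz
    have h1 : IsAlgebraic B (algebraMap K E z) := h.restrictScalars B
    exact (isAlgebraic_algebraMap_iff (R := B) (algebraMap K E).injective).1 h1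
  have hΛ0 : CharZero Λ := charZero_of_injective_algebraMap (algebraMap ℂ Λ).injective
  let ψ : F i0 →ₐ[ℂ] E := (IsScalarTower.toAlgHom ℂ K E).comp (F i0).val
  let iF0 : Algebra (F i0) E := ψ.toRingHom.toAlgebra
  have hψ : ∀ y : F i0, algebraMap (F i0) E y = algebraMap K E (y : K) := fun y => rfl
  have hT6 : IsScalarTower ℂ (F i0) E :=
    IsScalarTower.of_algebraMap_eq fun c => (ψ.commutes c).symm
  let v := Basis.ofVectorSpace ℂ (F i0)
  have hli := lin_indep (k := ℂ) (F0 := F i0) (Λ := Λ) (E := E)
    (fun y hy => htransc y (hna y hy)) v v.linearIndependent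
  -- quotients
  have hz' : z ∈ IntermediateField.adjoin B (F i0 : Set K) := by rw [hgen0]; trivial
  rw [IntermediateField.mem_adjoin_iff_div] at hz'
  obtain ⟨r, hr, s, hs, hrs⟩ := hz'
  by_cases hs0 : s = 0
  · rw [hrs, hs0, div_zero]
    exact B.zero_mem
  obtain ⟨a, ha⟩ := Finsupp.mem_span_range_iff_exists_finsupp.1 (mem_span_of_adjoin v hr)
  obtain ⟨b, hb⟩ := Finsupp.mem_span_range_iff_exists_finsupp.1 (mem_span_of_adjoin v hs)
  have hval : ∀ (a : _ →₀ B), algebraMap K E (a.sum fun i c => c • (v i : K)) =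
      Finsupp.linearCombination Λ (fun i => algebraMap (F i0) E (v i))
        (a.mapRange (algebraMap B Λ) (map_zero _)) := by
    intro a
    rw [Finsupp.linearCombination_apply, Finsupp.sum_mapRange_index (by intro i; exact zero_smul _ _),
      Finsupp.sum, Finsupp.sum, map_sum]
    refine Finset.sum_congr rfl fun i _ => ?_
    rw [Algebra.smul_def, map_mul, hψ, Algebra.smul_def, ← IsScalarTower.algebraMap_apply B Λ E,
      ← IsScalarTower.algebraMap_apply B K E]
  have hzΛ : IsAlgebraic B (algebraMap K Ω z) := hz.algebraMap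
  let zΛ : Λ := ⟨algebraMap K Ω z, mem_algebraicClosure_iff.2 hzΛ⟩
  have hzE : algebraMap Λ E zΛ = algebraMap K E z := Subtype.ext rfl
  have h1 : Finsupp.linearCombination Λ (fun i => algebraMap (F i0) E (v i))
      (zΛ • b.mapRange (algebraMap B Λ) (map_zero _)) =
      Finsupp.linearCombination Λ (fun i => algebraMap (F i0) E (v i))
      (a.mapRange (algebraMap B Λ) (map_zero _)) := by
    rw [map_smul, ← hval, ← hval, ha, hb, Algebra.smul_def, hzE, ← map_mul]
    congr 1
    rw [hrs]
    field_simp
  have h2 := hli h1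
  obtain ⟨i, hi⟩ : ∃ i, b i ≠ 0 := by
    by_contra hcon
    push Not at hcon
    apply hs0
    rw [← hb]
    refine Finset.sum_eq_zero fun i _ => ?_
    change b i • (v i : K) = 0
    rw [hcon, zero_smul]
  have h3 := DFunLike.congr_fun h2 i
  rw [Finsupp.smul_apply, Finsupp.mapRange_apply, Finsupp.mapRange_apply, smul_eq_mul] at h3
  have h4 := congrArg (Subtype.val : Λ → Ω) h3
  have h5 : algebraMap K Ω z * algebraMap K Ω (b i : K) = algebraMap K Ω (a i : K) := h4
  rw [← map_mul] at h5
  have h6 := (algebraMap K Ω).injective h5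
  have h7 : (b i : K) ≠ 0 := fun h => hi (Subtype.ext h)
  have h8 : z = (a i : K) / (b i : K) := by
    rw [eq_div_iff h7]
    exact h6
  rw [h8]
  exact B.div_mem (a i).2 (b i).2

end

end Pool.Agent.N145.PC
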