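import Pool.Agent.N145.PC.Fib

/-!
The regular differentials of the fibres of a product of curves.
-/

set_option autoImplicit false
set_option linter.overlappingInstances false
set_option linter.unusedSectionVars false
set_option maxHeartbeats 4000000
set_option synthInstance.maxHeartbeats 400000

open Polynomial FF IsDedekindDomain IntermediateField Module

namespace Pool.Agent.N145.PC

open Pool.Agent.W603.LV Pool.Agent.W619.PQ
open Pool.Agent.W602.GT (Divisorial RegAt IsPluri DerReg)
open Pool.Agent.R882.GL (SpanFib)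

section

variable {K : Type} [Field K] [Algebra ℂ K] {n : ℕ}

/-- a determinant with a row which is almost zero -/
theorem det_one {A : Matrix (Fin (n + 1)) (Fin (n + 1)) K} {i0 : Fin (n + 1)}
    (hA : ∀ j, j ≠ i0 → A (Fin.last n) j = 0) : ∃ ε : ℤ, ε ≠ 0 ∧
    A.det = (ε : K) * A (Fin.last n) i0 * (A.submatrix Fin.castSucc i0.succAbove).det := by
  rw [Matrix.det_succ_row A (Fin.last n), Finset.sum_eq_single i0]
  · refine ⟨(-1) ^ ((Fin.last n : ℕ) + (i0 : ℕ)), pow_ne_zero _ (by norm_num), ?_⟩
    push_cast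
    congr 2
    ext i j
    rw [Matrix.submatrix_apply, Matrix.submatrix_apply, Fin.succAbove_last]
  · intro j _ hj
    rw [hA j hj]
    ring
  · intro h
    exact absurd (Finset.mem_univ _) h

variable {F : Fin (n + 1) → IntermediateField ℂ K} [∀ i, IsFF ℂ (F i)]

/-- **The regular differentials of the fibres.** -/
theorem span_prod (hsup : ⨆ i, F i = ⊤) (hK : Algebra.trdeg ℂ K = (n + 1 : ℕ))
    (i0 : Fin (n + 1)) {x : ∀ i, F i} (hx : ∀ i, Transcendental ℂ (x i))
    {D0 : ∀ i, Derivation ℂ (F i) (F i)} (hD0 : ∀ i, D0 i (x i) = 1) {J : Type} (b : J → F i0)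
    (hb : Submodule.span ℂ (Set.range b) = HH (D0 i0)) (g : ∀ i, F i) (hg : ∀ i, i ≠ i0 → g i ≠ 0) :
    SpanFib (BB' F i0) (fun j => extForm (K := K) 1 D0 x (Function.update g i0 (b j))) := by
  classical
  have halg := Pool.Agent.W619.X.alg_of_sup F hsup
  have hbas := Pool.Agent.W619.X.basis_of_alg F halg hK x hx
  intro Λ E' _ _ _ _ _ _ _ φ hFF hgenF hBΛ htransc t ξ ht hZ E hE D hD hreg f hf0 hf
  have hΛ0 : CharZero Λ := charZero_of_injective_algebraMap (algebraMap ℂ Λ).injective
  let iA : Algebra K E' := φ.toRingHom.toAlgebra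
  have hTw : IsScalarTower ℂ K E' := IsScalarTower.of_algebraMap_eq fun z => (φ.commutes z).symm
  have hφ : ∀ z, algebraMap K E' z = φ z := fun _ => rfl
  have hinj : Function.Injective φ := (φ : K →+* E').injective
  have hDne : D ≠ 0 := by
    intro h
    rw [h] at hD
    exact zero_ne_one hD
  -- the derivation of the fibre
  have happ : ∀ l : Fin n, Fin.append t (fun _ : Fin 1 => ξ) l.castSucc = t l := fun l =>
    Fin.append_left t _ l
  have happ' : Fin.append t (fun _ : Fin 1 => ξ) (Fin.last n) = ξ :=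
    Fin.append_right t (fun _ : Fin 1 => ξ) 0
  have hlast : ∀ z : K, D (φ z) = φ (E (Fin.last n) z) := by
    intro z
    have h1 := Pool.Agent.W73.PG.PULL.chain (L := E') _ hZ E hE (D.restrictScalars ℂ) z
    rw [Fin.sum_univ_castSucc, Finset.sum_eq_zero, zero_add] at h1
    · rw [happ'] at h1
      change D (φ z) = D (φ ξ) * φ (E (Fin.last n) z) at h1
      rw [hD, one_mul] at h1
      exact h1
    · intro l _
      rw [happ]
      change D (φ (t l)) * _ = 0
      obtain ⟨w, hw⟩ := hBΛ (t l) (ht l)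
      rw [← hw, Derivation.map_algebraMap, zero_mul]
  have hconst : ∀ z : K, E (Fin.last n) z = 0 → ∃ w : Λ, algebraMap Λ E' w = φ z := by
    intro z hz
    obtain ⟨w, hw⟩ := const_of_der (k := Λ) hDne (h := φ z) (by rw [hlast, hz, map_zero])
    exact ⟨w, hw.symm⟩
  have hcomm : ∀ i (z : K), E (Fin.last n) (E i z) = E i (E (Fin.last n) z) := by
    intro i z
    have h1 := Pool.Agent.W619.TW.der_zero (⁅E (Fin.last n), E i⁆) _ hZ (fun j => by
      rw [Derivation.commutator_apply, hE, hE]
      split_ifs <;> simp) z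
    rw [Derivation.commutator_apply] at h1
    exact sub_eq_zero.1 h1
  have hxB : ∀ z ∈ BB' F i0, E (Fin.last n) z = 0 := by
    intro z hz
    obtain ⟨w, hw⟩ := hBΛ z hz
    have h1 := hlast z
    rw [← hw, Derivation.map_algebraMap] at h1
    exact hinj (by rw [← h1, map_zero])
  have hmB : ∀ i, i ≠ i0 → ∀ z : F i, (z : K) ∈ BB' F i0 := fun i hi z => le_BB' F hi z.2
  choose lam hlam using fun (i j : Fin n) => hconst (E i.castSucc (x (i0.succAbove j) : K)) (by
    rw [hcomm, hxB _ (hmB _ (Fin.succAbove_ne i0 j) _), map_zero])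
  -- the value of the forms
  obtain ⟨h, hdef⟩ : ∃ h, h = (Matrix.of fun j i => E j (algebraMap (F i) K (x i)) :
    Matrix (Fin (n + 1)) (Fin (n + 1)) K).det := ⟨_, rfl⟩
  have hh0 : h ≠ 0 := by
    obtain ⟨D1, hD1⟩ := extForm_ne (K := K) 1 D0 x (fun _ => 1) (fun _ => one_ne_zero)
      (fun i => by rw [hD0]; exact one_ne_zero) hbas
    intro h0
    apply hD1
    rw [Pool.Agent.Y172.pluri_coord hZ hE (prod_pluri x D0 _) D1, prod_val hD0, ← hdef, h0,
      mul_zero, mul_zero]
  obtain ⟨ε, hε0, hε⟩ := det_one (A := (Matrix.of fun j i => E j (algebraMap (F i) K (x i)) :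
    Matrix (Fin (n + 1)) (Fin (n + 1)) K)) (i0 := i0) (by
      intro j hj
      rw [Matrix.of_apply]
      exact hxB _ (hmB j hj _))
  rw [← hdef, Matrix.of_apply] at hε
  have hminor : φ ((Matrix.of fun j i => E j (algebraMap (F i) K (x i)) :
      Matrix (Fin (n + 1)) (Fin (n + 1)) K).submatrix Fin.castSucc i0.succAbove).det =
      algebraMap Λ E' (Matrix.of lam).det := by
    have h4 := RingHom.map_det (φ : K →+* E') ((Matrix.of fun j i =>
      E j (algebraMap (F i) K (x i)) : Matrix (Fin (n + 1)) (Fin (n + 1)) K).submatrix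
        Fin.castSucc i0.succAbove)
    have h5 := RingHom.map_det (algebraMap Λ E') (Matrix.of lam)
    rw [h5]
    refine h4.trans ?_
    congr 1
    ext i j
    exact (hlam i j).symm
  have hgΛ : ∃ c : Λ, algebraMap Λ E' c = φ (∏ i ∈ Finset.univ.erase i0, (g i : K)) := by
    apply hBΛ
    exact prod_mem fun i hi => hmB i (Finset.ne_of_mem_erase hi) _
  obtain ⟨c, hc⟩ := hgΛ
  have hprod : ∀ j, ∏ i, algebraMap (F i) K (Function.update g i0 (b j) i) =
      (b j : K) * ∏ i ∈ Finset.univ.erase i0, (g i : K) := by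
    intro j
    rw [← Finset.mul_prod_erase _ _ (Finset.mem_univ i0), Function.update_self]
    congr 1
    refine Finset.prod_congr rfl fun i hi => ?_
    rw [Function.update_of_ne (Finset.ne_of_mem_erase hi)]
    rfl
  have hval : ∀ j, φ (extForm (K := K) 1 D0 x (Function.update g i0 (b j)) E) =
      algebraMap Λ E' ((ε : Λ) * (Matrix.of lam).det * c) * (D (φ (x i0 : K)) * φ (b j : K)) := by
    intro j
    rw [prod_val hD0, ← hdef, hε, hprod, map_mul, map_mul, map_mul, map_mul, hminor, ← hc,
      map_intCast, hlast, map_mul, map_mul, map_intCast]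
    change φ (b j : K) * _ * (_ * φ (E (Fin.last n) (x i0 : K)) * _) = _
    ring
  have hc0 : c ≠ 0 := by
    rintro rfl
    rw [map_zero] at hc
    have h1 : (∏ i ∈ Finset.univ.erase i0, (g i : K)) = 0 := hinj (by rw [← hc, map_zero])
    obtain ⟨i, hi, h2⟩ := Finset.prod_eq_zero_iff.1 h1
    exact hg i (Finset.ne_of_mem_erase hi) (Subtype.ext h2)
  have hdet0 : (Matrix.of lam).det ≠ 0 := by
    intro h1
    rw [h1, map_zero] at hminor
    have h2 := hinj (hminor.trans (map_zero φ).symm)
    apply hh0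
    rw [hε, h2, mul_zero]
  have hEx : E (Fin.last n) (x i0 : K) ≠ 0 := by
    intro h1
    apply hh0
    rw [hε]
    change (ε : K) * E (Fin.last n) (x i0 : K) * _ = 0
    rw [h1]
    ring
  have hεΛ : (ε : Λ) ≠ 0 := by exact_mod_cast hε0
  have hDx : D (φ (x i0 : K)) ≠ 0 := by
    rw [hlast]
    exact (_root_.map_ne_zero φ).2 hEx
  -- base change
  let ψ : F i0 →ₐ[ℂ] E' := φ.comp (F i0).val
  let iF0 : Algebra (F i0) E' := ψ.toRingHom.toAlgebra
  have hψ : ∀ y : F i0, algebraMap (F i0) E' y = φ (y : K) := fun y => rfl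
  have hT6 : IsScalarTower ℂ (F i0) E' :=
    IsScalarTower.of_algebraMap_eq fun c => (ψ.commutes c).symm
  have hgen' : IntermediateField.adjoin Λ (Set.range (algebraMap (F i0) E')) = ⊤ := by
    rw [eq_top_iff, ← hgenF, IntermediateField.adjoin_le_iff]
    rintro _ ⟨z, rfl⟩
    have h1 : ⨆ i, F i ≤ ((IntermediateField.adjoin Λ
        (Set.range (algebraMap (F i0) E'))).restrictScalars ℂ).comap φ := by
      refine iSup_le fun i y hy => ?_
      change φ y ∈ IntermediateField.adjoin Λ (Set.range (algebraMap (F i0) E'))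
      by_cases hi : i = i0
      · subst hi
        exact IntermediateField.subset_adjoin _ _ ⟨⟨y, hy⟩, rfl⟩
      · obtain ⟨w, hw⟩ := hBΛ y (hmB i hi ⟨y, hy⟩)
        rw [← hw]
        exact IntermediateField.algebraMap_mem _ _
    exact h1 (by rw [hsup]; trivial)
  have hbc := base_change (k := ℂ) (F0 := F i0) (Λ := Λ) (E := E') hgen'
    (fun y hy => htransc _ (not_alg F halg hK i0 hy)) (hx i0) (hD0 i0)
    (D := (D (φ (x i0 : K)))⁻¹ • D) (by
      rw [Derivation.smul_apply, smul_eq_mul, hψ]
      exact inv_mul_cancel₀ hDx) (f := f / D (φ (x i0 : K))) (by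
      intro Q
      right
      rw [vo_smul Q hDne (inv_ne_zero hDx), Q.ord_inv, Q.ord_div hf0 hDx]
      have := hf Q
      linarith)
  have h9 : ∀ y : E', y ∈ Submodule.span Λ (algebraMap (F i0) E' '' (HH (D0 i0) : Set (F i0))) →
      y * D (φ (x i0 : K)) ∈ Submodule.span Λ (Set.range fun j =>
        φ (extForm (K := K) 1 D0 x (Function.update g i0 (b j)) E)) := by
    intro y hy
    induction hy using Submodule.span_induction with
    | zero => rw [zero_mul]; exact Submodule.zero_mem _
    | add u v _ _ hu hv => rw [add_mul]; exact Submodule.add_mem _ hu hv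
    | smul a u _ hu => rw [smul_mul_assoc]; exact Submodule.smul_mem _ _ hu
    | mem y hy =>
      obtain ⟨w, hw, rfl⟩ := hy
      rw [← hb] at hw
      induction hw using Submodule.span_induction with
      | zero => rw [map_zero, zero_mul]; exact Submodule.zero_mem _
      | add u v _ _ hu hv => rw [map_add, add_mul]; exact Submodule.add_mem _ hu hv
      | smul a u _ hu =>
        have h10 : algebraMap (F i0) E' (a • u) * D (φ (x i0 : K)) =
            (algebraMap ℂ Λ a) • (algebraMap (F i0) E' u * D (φ (x i0 : K))) := by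
          rw [Algebra.smul_def, map_mul, Algebra.smul_def, ← IsScalarTower.algebraMap_apply ℂ (F i0) E',
            ← IsScalarTower.algebraMap_apply ℂ Λ E', mul_assoc]
        rw [h10]
        exact Submodule.smul_mem _ _ hu
      | mem w hw =>
        obtain ⟨j, rfl⟩ := hw
        obtain ⟨μ, hμ⟩ : ∃ μ : Λ, μ = (ε : Λ) * (Matrix.of lam).det * c := ⟨_, rfl⟩
        have hμ0 : μ ≠ 0 := by
          rw [hμ]
          exact mul_ne_zero (mul_ne_zero hεΛ hdet0) hc0
        have h10 : algebraMap (F i0) E' (b j) * D (φ (x i0 : K)) = μ⁻¹ •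
            φ (extForm (K := K) 1 D0 x (Function.update g i0 (b j)) E) := by
          rw [hval, ← hμ, Algebra.smul_def, map_inv₀, hψ]
          have h11 : algebraMap Λ E' μ ≠ 0 := (_root_.map_ne_zero _).2 hμ0
          field_simp
        rw [h10]
        exact Submodule.smul_mem _ _ (Submodule.subset_span ⟨j, rfl⟩)
  have h10 := h9 _ hbc
  rwa [div_mul_cancel₀ _ hDx] at h10

end

end Pool.Agent.N145.PC
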