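import Mathlib

/-!
A generic pair of embeddings over a subfield.
-/

set_option autoImplicit false
set_option linter.overlappingInstances false
set_option linter.unusedSectionVars false

open MvPolynomial

namespace Pool.Agent.N145.PC

/-- a field is algebraic over the polynomials in a transcendence basis -/
theorem alg_mv {N Ω ι : Type} [Field N] [Field Ω] [Algebra N Ω] (x : ι → Ω)
    (hx : IsTranscendenceBasis N x) [iA : Algebra (MvPolynomial ι N) Ω]
    (hA : ∀ p : MvPolynomial ι N, algebraMap (MvPolynomial ι N) Ω p = aeval x p) :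
    Algebra.IsAlgebraic (MvPolynomial ι N) Ω := by
  have hinj : Function.Injective (aeval x : MvPolynomial ι N →ₐ[N] Ω) := hx.1
  have h1 := hx.isAlgebraic
  constructor
  intro f
  have h2 := h1.isAlgebraic f
  obtain ⟨p, hp0, hp⟩ := h2
  have hsurj : ∀ a : Algebra.adjoin N (Set.range x), ∃ q : MvPolynomial ι N, aeval x q = (a : Ω) := by
    rintro ⟨a, ha⟩
    rw [Algebra.adjoin_range_eq_range_aeval] at ha
    exact ha
  choose q hq using hsurj
  have hq0 : ∀ a, q a = 0 ↔ a = 0 := by
    intro a
    constructor
    · intro h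
      have := hq a
      rw [h, map_zero] at this
      exact Subtype.ext this.symm
    · rintro rfl
      apply hinj
      rw [hq 0, map_zero]; rfl
  refine ⟨∑ i ∈ p.support, Polynomial.monomial i (q (p.coeff i)), ?_, ?_⟩
  · obtain ⟨i, hi⟩ := (Polynomial.support_nonempty.2 hp0)
    intro h0
    have h1 := congrArg (fun r => Polynomial.coeff r i) h0
    simp only [Polynomial.finsetSum_coeff, Polynomial.coeff_monomial, Polynomial.coeff_zero,
      Finset.sum_ite_eq', hi, if_true] at h1
    rw [hq0] at h1
    exact (Polynomial.mem_support_iff.1 hi) h1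
  · rw [map_sum]
    have h2 : Polynomial.aeval f p = ∑ i ∈ p.support, (p.coeff i : Ω) * f ^ i := by
      rw [Polynomial.aeval_def, Polynomial.eval₂_eq_sum, Polynomial.sum]
      rfl
    rw [← hp, h2]
    refine Finset.sum_congr rfl fun i _ => ?_
    rw [Polynomial.aeval_monomial]
    congr 1
    rw [hA]
    exact hq _

/-- **A generic pair of embeddings.** -/
theorem exists_generic (N Ω : Type) [Field N] [Field Ω] [Algebra N Ω] :
    ∃ (Ω' : Type) (_ : Field Ω') (_ : IsAlgClosed Ω') (ι θ : Ω →+* Ω'),
      (∀ c : N, θ (algebraMap N Ω c) = ι (algebraMap N Ω c)) ∧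
      ∀ a b : Ω, ι a = θ b → IsAlgebraic N a := by
  obtain ⟨J, x, hx⟩ := exists_isTranscendenceBasis' N Ω
  let Ω' := AlgebraicClosure (FractionRing (MvPolynomial J Ω))
  let T : J → Ω' := fun j => algebraMap (MvPolynomial J Ω) Ω' (X j)
  have hTΩ : AlgebraicIndependent Ω T := by
    have h1 : AlgebraicIndependent Ω (X : J → MvPolynomial J Ω) := algebraicIndependent_X J Ω
    refine h1.map' (f := IsScalarTower.toAlgHom Ω (MvPolynomial J Ω) Ω') ?_
    change Function.Injective (algebraMap (MvPolynomial J Ω) Ω')
    rw [IsScalarTower.algebraMap_eq (MvPolynomial J Ω) (FractionRing (MvPolynomial J Ω)) Ω']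
    exact (algebraMap (FractionRing (MvPolynomial J Ω)) Ω').injective.comp
      (IsFractionRing.injective (MvPolynomial J Ω) (FractionRing (MvPolynomial J Ω)))
  have hT1 : IsScalarTower N Ω Ω' := inferInstance
  have hTN : AlgebraicIndependent N T :=
    hTΩ.restrictScalars (algebraMap N Ω).injective
  let iR1 : Algebra (MvPolynomial J N) Ω := (aeval x : MvPolynomial J N →ₐ[N] Ω).toRingHom.toAlgebra
  let iR2 : Algebra (MvPolynomial J N) Ω' :=
    (aeval T : MvPolynomial J N →ₐ[N] Ω').toRingHom.toAlgebra
  have hR1 : ∀ p : MvPolynomial J N, algebraMap (MvPolynomial J N) Ω p = aeval x p := fun _ => rfl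
  have hR2 : ∀ p : MvPolynomial J N, algebraMap (MvPolynomial J N) Ω' p = aeval T p := fun _ => rfl
  have htf1 : Module.IsTorsionFree (MvPolynomial J N) Ω :=
    Module.isTorsionFree_iff_algebraMap_injective.2 hx.1
  have htf2 : Module.IsTorsionFree (MvPolynomial J N) Ω' :=
    Module.isTorsionFree_iff_algebraMap_injective.2 hTN
  have halg := alg_mv x hx hR1
  let θ : Ω →ₐ[MvPolynomial J N] Ω' := IsAlgClosed.lift
  have hθC : ∀ c : N, θ (algebraMap N Ω c) = algebraMap N Ω' c := by
    intro c
    have h1 := θ.commutes (C c)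
    rw [hR1, hR2, aeval_C, aeval_C] at h1
    exact h1
  have hθx : ∀ j, θ (x j) = T j := by
    intro j
    have h1 := θ.commutes (X j)
    rw [hR1, hR2, aeval_X, aeval_X] at h1
    exact h1
  refine ⟨Ω', inferInstance, inferInstance, algebraMap Ω Ω', θ, fun c => (hθC c).trans
    (IsScalarTower.algebraMap_apply N Ω Ω' c), ?_⟩
  intro a b hab
  by_contra ha
  -- `a` and `T` are independent
  have h1 : AlgebraicIndependent N (fun _ : Unit => a) :=
    (algebraicIndependent_unique_type_iff).2 ha
  have h2 := AlgebraicIndependent.sumElim_comp h1 hTΩ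
  have h3 : AlgebraicIndependent N (Sum.elim (algebraMap Ω Ω' ∘ fun _ : Unit => a) T) := by
    have h4 := h2.comp Sum.swap Sum.swap_leftInverse.injective
    convert h4 using 1
    funext s
    rcases s with s | s <;> rfl
  have h4 := (AlgebraicIndependent.sumElim_iff.1 h3).2
  have h5 : Transcendental (Algebra.adjoin N (Set.range T)) (algebraMap Ω Ω' a) :=
    (algebraicIndependent_unique_type_iff).1 h4
  apply h5
  rw [hab]
  have h6 : IsAlgebraic (MvPolynomial J N) b := halg.isAlgebraic b
  let f : MvPolynomial J N →+* Algebra.adjoin N (Set.range T) :=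
    ((aeval T : MvPolynomial J N →ₐ[N] Ω') : MvPolynomial J N →+* Ω').codRestrict
      (Algebra.adjoin N (Set.range T)).toSubring fun p => by
        change aeval T p ∈ Algebra.adjoin N (Set.range T)
        rw [Algebra.adjoin_range_eq_range_aeval]
        exact ⟨p, rfl⟩
  have hf : Function.Injective f := by
    intro p q h
    exact hTN (congrArg Subtype.val h)
  refine h6.ringHom_of_comp_eq f (θ : Ω →+* Ω') hf ?_
  ext p
  · change (aeval T (C p : MvPolynomial J N) : Ω') = θ (aeval x (C p : MvPolynomial J N))
    rw [aeval_C, aeval_C, hθC]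
  · change (aeval T (X p : MvPolynomial J N) : Ω') = θ (aeval x (X p : MvPolynomial J N))
    rw [aeval_X, aeval_X, hθx]

end Pool.Agent.N145.PC
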