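import Pool.Agent.N145.PC.Two
import Pool.Agent.R882.TCore
import Pool.Agent.R882.TRat

/-!
Canonical forms from traces, and the field generated by their ratios.
-/

set_option autoImplicit false
set_option linter.overlappingInstances false
set_option linter.unusedSectionVars false
set_option linter.unusedVariables false
set_option maxHeartbeats 4000000
set_option synthInstance.maxHeartbeats 400000

open Polynomial FF IsDedekindDomain IntermediateField Module

namespace Pool.Agent.N145.PC

open Pool.Agent.W603.LV Pool.Agent.W619.PQ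
open Pool.Agent.W602.GT (Divisorial RegAt IsPluri DerReg KodGe LogSec)
open Pool.Agent.Y184.NT (trForm trForm_pluri)

open scoped Classical

section

variable {K : Type} [Field K] [Algebra ℂ K] {n : ℕ} {E : Fin n → Type} [∀ i, Field (E i)]
  [∀ i, Algebra ℂ (E i)] [∀ i, Algebra (E i) K] [∀ i, IsScalarTower ℂ (E i) K]
  [∀ i, IsFF ℂ (E i)] {L : Type} [Field L] [Algebra ℂ L] [Algebra L K] [IsScalarTower ℂ L K]
  [FiniteDimensional L K]

/-- **The traces are canonical forms.** -/
theorem exists_trace2 [Algebra.EssFiniteType ℂ K] [Algebra.EssFiniteType ℂ L]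
    (htr : Algebra.trdeg ℂ K = n) (hL : Algebra.trdeg ℂ L = n) {x : ∀ i, E i}
    (hx : ∀ i, Transcendental ℂ (x i)) (hb : IsTranscendenceBasis ℂ fun i => algebraMap (E i) K (x i))
    {D0 : ∀ i, Derivation ℂ (E i) (E i)} (hD0 : ∀ i, D0 i (x i) = 1) :
    ∃ (y : Fin n → L) (G : Fin n → Derivation ℂ L L) (h : K), IsTranscendenceBasis ℂ y ∧
      (∀ i j, G i (y j) = if i = j then 1 else 0) ∧ h ≠ 0 ∧
      h ∈ IntermediateField.adjoin L (⋃ i, Set.range (algebraMap (E i) K)) ∧
      (∀ f : ∀ i, E i, (∀ i, f i ∈ HH (D0 i)) → ∀ P : Place ℂ L, Divisorial n P →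
        RegAt P (trForm y (Algebra.trace L K (h * ∏ i, algebraMap (E i) K (f i))))) ∧
      ∀ (M : IntermediateField L K) (f : ∀ i, E i) (D : Fin n → Derivation ℂ M M)
        (D' : Fin n → Derivation ℂ K K),
        (∀ i g, D' i (algebraMap M K g) = algebraMap M K (D i g)) →
        ∃ a : M, extForm 1 D0 x f D' = algebraMap M K a * (h * ∏ i, algebraMap (E i) K (f i)) := by
  classical
  obtain ⟨K1, hK1⟩ : ∃ K1, K1 = IntermediateField.adjoin L (⋃ i, Set.range (algebraMap (E i) K)) :=
    ⟨_, rfl⟩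
  have hT1 : IsScalarTower ℂ K1 K := IsScalarTower.of_algebraMap_eq fun z => rfl
  have hess1 : Algebra.EssFiniteType ℂ K1 := Pool.Agent.TH466.QG.ess_below (K := K)
  have htr1 : Algebra.trdeg ℂ K1 = n := Pool.Agent.Y184.NT.trdeg_below (K := K) htr
  obtain ⟨y, G, hy, hG⟩ := Pool.Agent.Y172.exists_crd hL
  choose G1 hG1 using fun i => Pool.Agent.Y172.exists_lift (L := K1) hL (G i)
  choose G' hG' using fun i => Pool.Agent.Y172.exists_lift (L := K) htr1 (G1 i)
  have hGG : ∀ i f, G' i (algebraMap L K f) = algebraMap L K (G i f) := by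
    intro i f
    have h1 := hG' i (algebraMap L K1 f)
    rw [hG1] at h1
    exact h1
  have hyK : IsTranscendenceBasis ℂ (fun j => algebraMap L K (y j)) := hy.algebraMap_comp
  have hGK := Pool.Agent.Y172.lift_dual hG hGG
  have hmem : ∀ i (z : E i), algebraMap (E i) K z ∈ K1 := by
    intro i z
    rw [hK1]
    exact IntermediateField.subset_adjoin _ _ (Set.mem_iUnion.2 ⟨i, z, rfl⟩)
  obtain ⟨h, hdef⟩ : ∃ h, h = (Matrix.of fun j i => G' j (algebraMap (E i) K (x i)) :
    Matrix (Fin n) (Fin n) K).det := ⟨_, rfl⟩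
  have hval : ∀ f : ∀ i, E i, extForm 1 D0 x f G' = h * ∏ i, algebraMap (E i) K (f i) := by
    intro f
    rw [prod_val hD0, hdef, mul_comm]
  refine ⟨y, G, h, hy, hG, ?_, ?_, ?_, ?_⟩
  · obtain ⟨D, hD⟩ := extForm_ne (K := K) 1 D0 x (fun _ => 1) (fun _ => one_ne_zero)
      (fun i => by rw [hD0]; exact one_ne_zero) hb
    intro h0
    apply hD
    rw [Pool.Agent.Y172.pluri_coord hyK hGK (prod_pluri x D0 _) D, hval, h0, zero_mul, mul_zero]
  · rw [← hK1, hdef]
    have h1 : (Matrix.of fun j i => G' j (algebraMap (E i) K (x i)) :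
        Matrix (Fin n) (Fin n) K) = (algebraMap K1 K).mapMatrix
          (Matrix.of fun j i => G1 j ⟨algebraMap (E i) K (x i), hmem i (x i)⟩) := by
      ext j i
      rw [RingHom.mapMatrix_apply, Matrix.map_apply, Matrix.of_apply, Matrix.of_apply]
      exact hG' j ⟨algebraMap (E i) K (x i), hmem i (x i)⟩
    rw [h1, ← RingHom.map_det]
    exact (Matrix.det _ : K1).2
  · intro f hf P hP
    rw [← hval]
    exact (Pool.Agent.R882.LT.trForm_sec (BK := fun _ => False) (BL := fun _ => False) hL hy hG hGG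
      _ (prod_pluri x D0 f) (fun _ _ _ _ h => h)
      (fun Q _ => Pool.Agent.R882.LT.secAt_of (prod_regular hx hD0 hf Q)) P hP).2 fun h => h
  · intro M f D D' hD
    rw [Pool.Agent.Y172.pluri_coord hyK hGK (prod_pluri x D0 _) D', hval, pow_one]
    refine ⟨(Matrix.of fun i j => D i (algebraMap L M (y j)) : Matrix (Fin n) (Fin n) M).det, ?_⟩
    rw [RingHom.map_det]
    congr 2
    ext i j
    rw [RingHom.mapMatrix_apply, Matrix.map_apply, Matrix.of_apply, Matrix.of_apply]
    rw [← hD]
    rfl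

end

section

variable {K L : Type} [Field K] [Field L] [Algebra ℂ K] [Algebra ℂ L] [Algebra L K]
  [IsScalarTower ℂ L K]

/-- vector fields and algebraic elements -/
theorem der_alg2 (N : IntermediateField ℂ L) (D : Derivation ℂ K K)
    (hN : ∀ c ∈ N, D (algebraMap L K c) = 0) {z : K} (hz : IsAlgebraic N z) : D z = 0 := by
  obtain ⟨E, hE⟩ : ∃ E, E = N.map (IsScalarTower.toAlgHom ℂ L K) := ⟨_, rfl⟩
  have hmem : ∀ c : N, algebraMap L K c ∈ E := fun c => by
    rw [hE]
    exact ⟨c, c.2, rfl⟩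
  refine Pool.Agent.R882.WR.der_alg (E := E) D (fun c hc => ?_) ?_
  · rw [hE] at hc
    obtain ⟨c', hc', rfl⟩ := hc
    exact hN c' hc'
  · let f : N →+* E := ((algebraMap L K).comp (algebraMap N L)).codRestrict E.toSubring hmem
    obtain ⟨p, hp0, hp⟩ := hz
    refine ⟨p.map f, (Polynomial.map_ne_zero_iff f.injective).2 hp0, ?_⟩
    rw [Polynomial.aeval_def, Polynomial.eval₂_map]
    exact hp

/-- the field generated by the ratios -/
noncomputable def Rt {ι : Type} (T : ι → L) : IntermediateField ℂ L :=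
  IntermediateField.adjoin ℂ (Set.range fun p : ι × ι => T p.1 / T p.2)

theorem ratio_mem {ι : Type} (T : ι → L) (f g : ι) : T f / T g ∈ Rt T :=
  IntermediateField.subset_adjoin _ _ ⟨(f, g), rfl⟩

theorem der_ratio {ι : Type} (T : ι → L) (D : Derivation ℂ L L)
    (hD : ∀ f g, T f * D (T g) = T g * D (T f)) : ∀ c ∈ Rt T, D c = 0 := by
  let C0 : IntermediateField ℂ L :=
    { carrier := {f | D f = 0}
      mul_mem' := fun {f g} hf hg => by
        change D (f * g) = 0
        rw [D.leibniz, show D f = 0 from hf, show D g = 0 from hg]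
        simp
      add_mem' := fun {f g} hf hg => by
        change D (f + g) = 0
        rw [map_add, show D f = 0 from hf, show D g = 0 from hg, add_zero]
      algebraMap_mem' := fun c => D.map_algebraMap c
      inv_mem' := fun f hf => by
        change D f⁻¹ = 0
        rw [D.leibniz_inv, show D f = 0 from hf, smul_zero] }
  have h1 : Rt T ≤ C0 := by
    unfold Rt
    rw [IntermediateField.adjoin_le_iff]
    rintro _ ⟨⟨f, g⟩, rfl⟩
    change D (T f / T g) = 0
    rw [div_eq_mul_inv, D.leibniz, D.leibniz_inv, smul_eq_mul, smul_eq_mul, smul_eq_mul]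
    have h2 := hD f g
    by_cases hg : T g = 0
    · rw [hg]
      simp
    · field_simp
      linear_combination -h2
  exact fun c hc => h1 hc

/-- **Kodaira dimension from algebraic ratios.** -/
theorem kodGe_of_alg [FiniteDimensional L K] [Algebra.EssFiniteType ℂ L] {n N d : ℕ}
    (hL : Algebra.trdeg ℂ L = n) {y : Fin n → L} {G : Fin n → Derivation ℂ L L}
    (hG : ∀ i j, G i (y j) = if i = j then 1 else 0) {ι : Type}
    (T : ι → L) (hT0 : ∃ f, T f ≠ 0)
    (hreg : ∀ f, ∀ P : Place ℂ L, Divisorial n P → RegAt P (trForm y (T f))) {x : Fin N → K}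
    (hd : Algebra.trdeg ℂ (IntermediateField.adjoin ℂ (Set.range x)) = d)
    (halg : ∀ j, IsAlgebraic (Rt T) (x j)) : KodGe ℂ L n (fun _ => False) d := by
  obtain ⟨s, hs0, hs⟩ := Pool.Agent.R882.LT.exists_ratios_d (d := d) hL hd T hT0
    fun D h1 D' h2 j => der_alg2 (Rt T) D' (fun c hc => by
      rw [h2, der_ratio T D h1 c hc, map_zero]) (halg j)
  have hθE : ∀ t, trForm y t G = t := by
    intro t
    have h1 : (Matrix.of fun i j => G i (y j) : Matrix (Fin n) (Fin n) L) = 1 := by
      ext i j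
      rw [Matrix.of_apply, hG, Matrix.one_apply]
    rw [trForm, h1, Matrix.det_one, one_mul]
  refine ⟨1, one_pos, fun j => trForm y (T (s j)), fun l =>
    ⟨trForm_pluri y _, fun P hP D' hD' => hreg _ P hP D' fun i =>
      Pool.Agent.TH466.QG.derReg_of_log (hD' i), fun P hP _ => hreg _ P hP⟩, G, ?_, ?_⟩
  · change trForm y (T (s 0)) G ≠ 0
    rw [hθE]
    exact hs0
  · simp only [hθE]
    exact hs

end

section

/-- **A second point with the same canonical image.** -/
theorem exists_pts {L : Type} [Field L] [Algebra ℂ L] {ι : Type} (T : ι → L) {f1 : ι}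
    (h1 : T f1 ≠ 0) :
    ∃ (Ω' : Type) (_ : Field Ω') (_ : Algebra ℂ Ω') (_ : IsAlgClosed Ω')
      (i1 i2 : AlgebraicClosure L →ₐ[ℂ] Ω') (lam : Ω'), lam ≠ 0 ∧
      (∀ f, i2 (algebraMap L (AlgebraicClosure L) (T f)) =
        lam * i1 (algebraMap L (AlgebraicClosure L) (T f))) ∧
      ∀ a b : AlgebraicClosure L, i1 a = i2 b → IsAlgebraic (Rt T) a := by
  obtain ⟨Ω', iF, iC, i1, i2, h2, h3⟩ := exists_generic (Rt T) (AlgebraicClosure L)
  let iA : Algebra ℂ Ω' := (i1.comp (algebraMap ℂ (AlgebraicClosure L))).toAlgebra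
  have h4 : ∀ c : Rt T, i2 (algebraMap L (AlgebraicClosure L) c) =
      i1 (algebraMap L (AlgebraicClosure L) c) := h2
  let j1 : AlgebraicClosure L →ₐ[ℂ] Ω' := { i1 with commutes' := fun c => rfl }
  let j2 : AlgebraicClosure L →ₐ[ℂ] Ω' := { i2 with
    commutes' := fun c => by
      have h5 := h4 (algebraMap ℂ (Rt T) c)
      change i2 (algebraMap ℂ (AlgebraicClosure L) c) = i1 (algebraMap ℂ (AlgebraicClosure L) c)
      rw [IsScalarTower.algebraMap_apply ℂ L (AlgebraicClosure L)]
      exact h5 }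
  have hne : ∀ (j : AlgebraicClosure L →ₐ[ℂ] Ω'), j (algebraMap L _ (T f1)) ≠ 0 := by
    intro j
    rw [_root_.map_ne_zero, _root_.map_ne_zero]
    exact h1
  refine ⟨Ω', iF, iA, iC, j1, j2, j2 (algebraMap L _ (T f1)) / j1 (algebraMap L _ (T f1)),
    div_ne_zero (hne _) (hne _), ?_, ?_⟩
  · intro f
    have h5 : j2 (algebraMap L (AlgebraicClosure L) (T f / T f1)) =
        j1 (algebraMap L (AlgebraicClosure L) (T f / T f1)) := h4 ⟨_, ratio_mem T f f1⟩
    rw [map_div₀, map_div₀, map_div₀, div_eq_div_iff (hne _) (hne _)] at h5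
    rw [div_mul_eq_mul_div, eq_div_iff (hne _)]
    linear_combination h5
  · exact h3

end

end Pool.Agent.N145.PC
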