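import Pool.Agent.N145.PC.Rel
import Pool.Agent.N145.PC.Fib2

/-!
Varieties dominated by products of curves of large gonality.
-/

set_option autoImplicit false
set_option linter.overlappingInstances false
set_option linter.unusedSectionVars false
set_option linter.unusedVariables false
set_option maxHeartbeats 4000000
set_option synthInstance.maxHeartbeats 400000

open Polynomial FF IsDedekindDomain IntermediateField Module

namespace Pool.Agent.N145.PC

open Pool.Agent.W603.LV Pool.Agent.W619.PQ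
open Pool.Agent.W602.GT (Divisorial RegAt IsPluri DerReg)
open Pool.Agent.R882.GL (SpanFib)
open Pool.Agent.R882.LT (TraceNe)

open scoped Classical

section

variable {K : Type} [Field K] [Algebra ℂ K] {n : ℕ} {F : Fin n → IntermediateField ℂ K}
  [∀ i, IsFF ℂ (F i)] {L Ω : Type} [Field L] [Field Ω] [Algebra ℂ L] [Algebra ℂ Ω]
  [Algebra L K] [IsScalarTower ℂ L K] [Algebra L Ω] [IsScalarTower ℂ L Ω]
  [FiniteDimensional L K] [IsAlgClosed Ω]

/-- the functions on the image of `V` in `W × ∏ i ∈ J, C i` -/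
noncomputable abbrev MF (F : Fin n → IntermediateField ℂ K) (L : Type) [Field L] [Algebra L K]
    (J : Finset (Fin n)) : IntermediateField L K := MJ (K := K) (fun i => F i) L J

/-- the evaluation of functions at points -/
noncomputable def ev (Ω : Type) [Field Ω] [Algebra ℂ Ω] (F : Fin n → IntermediateField ℂ K)
    (i : Fin n) (f : F i) (σ : F i →ₐ[ℂ] Ω) : Ω := σ f

/-- the relation between the points of a fibre with the same coordinates in `J` as `τ0` -/
def RlJ (D0 : ∀ i, Derivation ℂ (F i) (F i)) (h : K) (τ0 : K →ₐ[L] Ω) (J : Finset (Fin n)) : Prop :=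
  Rl (fun i => res (K := K) (L := L) (Ω := Ω) (F i)) (ev Ω F)
    (fun i => (HH (D0 i) : Set (F i))) (fun τ => τ h) τ0 J

theorem sep_F {D0 : ∀ i, Derivation ℂ (F i) (F i)} {x : ∀ i, F i}
    (hx : ∀ i, Transcendental ℂ (x i)) (hD0 : ∀ i, D0 i (x i) = 1) {i : Fin n} {g : ℕ}
    (hg : ∀ y : F i, Transcendental ℂ y → g ≤ finrank ℂ⟮y⟯ (F i)) :
    Sep (ev Ω F i) (HH (D0 i) : Set (F i)) g :=
  fun A hA c hc => sep_of_gonality (hx i) (hD0 i) hg A hA c hc

/-- the relation for all points -/
theorem rel_zero {D0 : ∀ i, Derivation ℂ (F i) (F i)} {h : K}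
    (htr : ∀ f : ∀ i, F i, (∀ i, f i ∈ HH (D0 i)) →
      Algebra.trace L K (h * ∏ i, algebraMap (F i) K (f i)) = 0) (τ0 : K →ₐ[L] Ω) :
    RlJ D0 h τ0 ∅ := by
  intro f hf
  have hchar : CharZero L := charZero_L
  have h1 := trace_eq_sum_embeddings (K := L) (L := K) Ω
    (x := h * ∏ i, algebraMap (F i) K (f i))
  rw [htr f fun i => hf i (Finset.notMem_empty _), map_zero] at h1
  rw [h1]
  refine Finset.sum_congr ?_ fun τ _ => ?_
  · ext τ
    simp [mem_SJ]
  · rw [map_mul, map_prod, Finset.compl_empty]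
    rfl

theorem count_le (τ0 : K →ₐ[L] Ω) (J : Finset (Fin n)) (l : Fin n) :
    ((SJ (fun i => res (K := K) (L := L) (Ω := Ω) (F i)) τ0 J).image (res (F l))).card ≤
      finrank (MF F L J)
        (IntermediateField.adjoin (MF F L J) (F l : Set K)) := by
  have h1 := card_image_le (MF F L J) τ0 _ (mem_iff τ0 J) (F l)
  have h2 : Set.range (algebraMap (F l) K) = (F l : Set K) := by
    ext y
    constructor
    · rintro ⟨z, rfl⟩
      exact z.2
    · intro h
      exact ⟨⟨y, h⟩, rfl⟩
  rw [h2] at h1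
  exact h1

theorem card_le' (τ0 : K →ₐ[L] Ω) (J : Finset (Fin n)) :
    (SJ (fun i => res (K := K) (L := L) (Ω := Ω) (F i)) τ0 J).card =
      finrank (MF F L J) K :=
  card_S (MF F L J) τ0 _ (mem_iff τ0 J)

/-- the first coordinates -/
def Js (n s : ℕ) : Finset (Fin n) := Finset.univ.filter fun l => l.val < s

theorem mem_Js {s : ℕ} {l : Fin n} : l ∈ Js n s ↔ l.val < s := by simp [Js]

theorem rel_chain {D0 : ∀ i, Derivation ℂ (F i) (F i)} {h : K} {τ0 : K →ₐ[L] Ω}
    (h0 : RlJ D0 h τ0 ∅) {g : Fin n → ℕ}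
    (hsep : ∀ i, Sep (ev Ω F i) (HH (D0 i) : Set (F i)) (g i)) {s : ℕ}
    (hs : ∀ l : Fin n, l.val < s → finrank (MF F L (Js n l))
      (IntermediateField.adjoin (MF F L (Js n l)) (F l : Set K)) < g l) :
    RlJ D0 h τ0 (Js n s) := by
  induction s with
  | zero =>
    have : Js n 0 = ∅ := by
      ext l
      simp [mem_Js]
    rw [this]
    exact h0
  | succ s ih =>
    have h1 := ih fun l hl => hs l (by omega)
    by_cases hsn : s < n
    · have h2 : Js n (s + 1) = insert ⟨s, hsn⟩ (Js n s) := by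
        ext l
        rw [Finset.mem_insert, mem_Js, mem_Js, Fin.ext_iff]
        change l.val < s + 1 ↔ l.val = s ∨ l.val < s
        omega
      rw [h2]
      exact Rl.step h1 (l := ⟨s, hsn⟩) (by rw [mem_Js]; exact lt_irrefl _) (hsep _)
        (lt_of_le_of_lt (count_le τ0 _ _) (hs ⟨s, hsn⟩ (by simp)))
    · have h2 : Js n (s + 1) = Js n s := by
        ext l
        rw [mem_Js, mem_Js]
        have := l.2
        omega
      rw [h2]
      exact h1

/-- the relation with all coordinates fixed is a contradiction -/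
theorem rel_univ {D0 : ∀ i, Derivation ℂ (F i) (F i)} {h : K} {τ0 : K →ₐ[L] Ω} (hh : h ≠ 0)
    (hm : h ∈ MF F L Finset.univ) (h1 : RlJ D0 h τ0 Finset.univ) : False := by
  have h2 := h1 (fun _ => 0) (fun i hi => absurd (Finset.mem_univ i) hi)
  rw [Finset.compl_univ] at h2
  have h3 : ∀ τ ∈ SJ (fun i => res (K := K) (L := L) (Ω := Ω) (F i)) τ0 Finset.univ,
      τ h * ∏ i ∈ (∅ : Finset (Fin n)), ev Ω F i 0 (res (K := K) (L := L) (F i) τ) = τ0 h := by
    intro τ hτ
    rw [Finset.prod_empty, mul_one]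
    exact (mem_iff τ0 _ τ).1 hτ h hm
  rw [Finset.sum_congr rfl h3, Finset.sum_const, nsmul_eq_mul] at h2
  have hchar : CharZero Ω := charZero_of_injective_algebraMap (algebraMap ℂ Ω).injective
  rcases mul_eq_zero.1 h2 with h4 | h4
  · rw [Nat.cast_eq_zero, Finset.card_eq_zero] at h4
    exact absurd (self_SJ (p := fun i => res (K := K) (L := L) (Ω := Ω) (F i)) (τ0 := τ0)
      Finset.univ) (by rw [h4]; exact Finset.notMem_empty _)
  · exact hh (by simpa using h4)

/-- the relation with all coordinates except one fixed is a trace relation -/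
theorem rel_erase {D0 : ∀ i, Derivation ℂ (F i) (F i)} {h : K} {τ0 : K →ₐ[L] Ω} {i0 : Fin n}
    (h1 : RlJ D0 h τ0 (Finset.univ.erase i0)) (f : ∀ i, F i) (hf : f i0 ∈ HH (D0 i0)) :
    Algebra.trace (MF F L (Finset.univ.erase i0)) K
      (h * ∏ i, algebraMap (F i) K (f i)) = 0 := by
  have h2 := sum_trace (MF F L (Finset.univ.erase i0)) τ0 _
    (mem_iff τ0 (Finset.univ.erase i0)) (h * ∏ i, algebraMap (F i) K (f i))
  have h3 := h1 f (by
    intro i hi
    have : i = i0 := by
      by_contra hne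
      exact hi (Finset.mem_erase.2 ⟨hne, Finset.mem_univ _⟩)
    subst this
    exact hf)
  have h4 : (Finset.univ.erase i0 : Finset (Fin n))ᶜ = {i0} := by
    ext i
    simp
  have h5 : ∑ τ ∈ SJ (fun i => res (K := K) (L := L) (Ω := Ω) (F i)) τ0 (Finset.univ.erase i0),
      τ (h * ∏ i, algebraMap (F i) K (f i)) = 0 := by
    have h6 : ∀ τ ∈ SJ (fun i => res (K := K) (L := L) (Ω := Ω) (F i)) τ0 (Finset.univ.erase i0),
        τ (h * ∏ i, algebraMap (F i) K (f i)) =
        (τ h * ∏ i ∈ (Finset.univ.erase i0 : Finset (Fin n))ᶜ, ev Ω F i (f i)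
          (res (K := K) (L := L) (F i) τ)) *
          ∏ i ∈ Finset.univ.erase i0, τ0 (algebraMap (F i) K (f i)) := by
      intro τ hτ
      rw [h4, Finset.prod_singleton, map_mul, map_prod,
        ← Finset.mul_prod_erase _ _ (Finset.mem_univ i0), mul_assoc]
      congr 2
      refine Finset.prod_congr rfl fun i hi => ?_
      exact (mem_iff τ0 _ τ).1 hτ _ (mem_MJ (E := fun i => F i) _ hi (f i))
    rw [Finset.sum_congr rfl h6, ← Finset.sum_mul, h3, zero_mul]
  rw [h5] at h2
  have h6 := h2.symm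
  rw [map_eq_zero, map_eq_zero] at h6
  exact h6

end

section

variable {K : Type} [Field K] [Algebra ℂ K] {n : ℕ} {F : Fin n → IntermediateField ℂ K}
  [∀ i, IsFF ℂ (F i)] {L : Type} [Field L] [Algebra ℂ L] [Algebra L K] [IsScalarTower ℂ L K]
  [FiniteDimensional L K]

/-- **Varieties dominated by covers of products of curves.** -/
theorem genus_ne [hess : Algebra.EssFiniteType ℂ K] (halg : Algebra.IsAlgebraic ↥(⨆ i, F i) K)
    (hK : Algebra.trdeg ℂ K = n) {g : Fin n → ℕ}
    (hg : ∀ i, ∀ y : F i, Transcendental ℂ y → g i ≤ finrank ℂ⟮y⟯ (F i))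
    (hs : ∀ l : Fin n, finrank (MF F L (Js n l))
      (IntermediateField.adjoin (MF F L (Js n l)) (F l : Set K)) < g l)
    (hgz : ∀ ω : (Fin n → Derivation ℂ L L) → L, IsPluri 1 ω →
      (∀ P : Place ℂ L, Divisorial n P → RegAt P ω) → ∀ D, ω D = 0) : False := by
  have hL : Algebra.trdeg ℂ L = n := Pool.Agent.Y184.NT.trdeg_below (K := K) hK
  have hessL : Algebra.EssFiniteType ℂ L := Pool.Agent.TH466.QG.ess_below (K := K)
  choose x hx using fun i => IsFF.exists_transcendental (k := ℂ) (K := F i)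
  choose D0 hD0 using fun i => exists_D (hx i)
  have hb := Pool.Agent.W619.X.basis_of_alg F halg hK x hx
  obtain ⟨h, hh, hm, htr, -⟩ := exists_trace (L := L) hK hL hx hb hD0 hgz
  obtain ⟨τ0⟩ : Nonempty (K →ₐ[L] AlgebraicClosure L) :=
    ⟨IsAlgClosed.lift (R := L) (M := AlgebraicClosure L) (S := K)⟩
  have hT : IsScalarTower ℂ L (AlgebraicClosure L) := inferInstance
  have h0 := rel_zero htr τ0
  have h1 := rel_chain h0 (fun i => sep_F hx hD0 (hg i)) (s := n) (fun l _ => hs l)
  have h2 : Js n n = Finset.univ := by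
    ext l
    simp [mem_Js]
  rw [h2] at h1
  refine rel_univ hh ?_ h1
  have h3 : MF F L Finset.univ =
      IntermediateField.adjoin L (⋃ i, Set.range (algebraMap (F i) K)) := by
    unfold MF MJ
    congr 1
    ext y
    simp
  rw [h3]
  exact hm

/-- **Varieties dominated by products of curves.** -/
theorem uniruled_of [hess : Algebra.EssFiniteType ℂ K] (hsup : ⨆ i, F i = ⊤)
    (hK : Algebra.trdeg ℂ K = n) {g : Fin n → ℕ}
    (hg : ∀ i, ∀ y : F i, Transcendental ℂ y → g i ≤ finrank ℂ⟮y⟯ (F i)) {s : ℕ}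
    (hs : ∀ l : Fin n, l.val < s → finrank (MF F L (Js n l))
      (IntermediateField.adjoin (MF F L (Js n l)) (F l : Set K)) < g l)
    (hpair : ∀ i j : Fin n, s ≤ i.val → s ≤ j.val → i ≠ j →
      finrank (MF F L (Js n s)) (IntermediateField.adjoin (MF F L (Js n s)) (F i : Set K)) < g i ∨
      finrank (MF F L (Js n s)) (IntermediateField.adjoin (MF F L (Js n s)) (F j : Set K)) < g j ∨
      finrank (MF F L (Js n s)) K + 3 ≤ g i + g j)
    (hgz : ∀ ω : (Fin n → Derivation ℂ L L) → L, IsPluri 1 ω →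
      (∀ P : Place ℂ L, Divisorial n P → RegAt P ω) → ∀ D, ω D = 0) : IsUniruled ℂ L n := by
  have hL : Algebra.trdeg ℂ L = n := Pool.Agent.Y184.NT.trdeg_below (K := K) hK
  have hessL : Algebra.EssFiniteType ℂ L := Pool.Agent.TH466.QG.ess_below (K := K)
  by_cases hrat : ∃ i, ∃ t : F i, ℂ⟮t⟯ = ⊤
  · obtain ⟨i0, t, ht⟩ := hrat
    obtain ⟨M, h1, h2, h3, h4⟩ := rational_factor F hsup hK i0 t ht
    refine ⟨M, inferInstance, inferInstance, h1, h2, ⟨?_⟩⟩
    let e1 : RatFunc M ≃ₐ[M] M⟮(t : K)⟯ := RatFunc.algEquivOfTranscendental (t : K) h3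
    let e2 : M⟮(t : K)⟯ ≃ₐ[M] K := (equivOfEq h4).trans topEquiv
    exact (((e1.trans e2).symm.restrictScalars ℂ : K ≃ₐ[ℂ] RatFunc M) : K →ₐ[ℂ] RatFunc M).comp
      (IsScalarTower.toAlgHom ℂ L K)
  push Not at hrat
  choose x hx using fun i => IsFF.exists_transcendental (k := ℂ) (K := F i)
  choose D0 hD0 using fun i => exists_D (hx i)
  have hD0' : ∀ i, D0 i ≠ 0 := by
    intro i h
    have := hD0 i
    rw [h] at this
    simp at this
  have halg := Pool.Agent.W619.X.alg_of_sup F hsup
  have hb := Pool.Agent.W619.X.basis_of_alg F halg hK x hx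
  obtain ⟨h, hh, hm, htr, hval⟩ := exists_trace (L := L) hK hL hx hb hD0 hgz
  obtain ⟨τ0⟩ : Nonempty (K →ₐ[L] AlgebraicClosure L) :=
    ⟨IsAlgClosed.lift (R := L) (M := AlgebraicClosure L) (S := K)⟩
  have hT : IsScalarTower ℂ L (AlgebraicClosure L) := inferInstance
  have h0 := rel_zero htr τ0
  have hsep := fun i => sep_F (Ω := AlgebraicClosure L) hx hD0 (hg i)
  have h1 := rel_chain h0 hsep hs
  choose f0 hf0 hf0' using fun i => exists_regular (k := ℂ) (F := F i)
    (fun ⟨t, ht⟩ => hrat i t ht) (hD0' i)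
  have hτne : ∀ (τ : K →ₐ[L] AlgebraicClosure L) (z : K), z ≠ 0 → τ z ≠ 0 := fun τ z hz =>
    (_root_.map_ne_zero τ).2 hz
  have h2 := Rl.all_but_one h1 (fun τ => hτne τ h hh) g hsep f0 (fun l _ P => Or.inr (hf0' l P))
    (fun l τ => hτne τ (f0 l : K) (fun h => hf0 l (Subtype.ext h))) (by
      intro i j hi hj hij
      rw [mem_Js, not_lt] at hi hj
      rcases hpair i j hi hj hij with h3 | h3 | h3
      · exact Or.inl (lt_of_le_of_lt (count_le τ0 _ _) h3)
      · exact Or.inr (Or.inl (lt_of_le_of_lt (count_le τ0 _ _) h3))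
      · right; right
        rw [card_le']
        exact h3)
  rcases h2 with h2 | ⟨i0, h2⟩
  · exfalso
    refine rel_univ hh ?_ h2
    have h3 : MF F L Finset.univ =
        IntermediateField.adjoin L (⋃ i, Set.range (algebraMap (F i) K)) := by
      unfold MF MJ
      congr 1
      ext y
      simp
    rw [h3]
    exact hm
  · obtain ⟨m, rfl⟩ : ∃ m, n = m + 1 := ⟨n - 1, by have := i0.2; omega⟩
    -- the image in the product with the other factors
    obtain ⟨M, hM⟩ : ∃ M, M = MF F L (Finset.univ.erase i0) := ⟨_, rfl⟩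
    have hle : BB' F i0 ≤ M.restrictScalars ℂ := by
      refine iSup_le fun j y hy => ?_
      rw [mem_restrictScalars, hM]
      exact mem_MJ (E := fun i => F i) _ (Finset.mem_erase.2 ⟨j.2, Finset.mem_univ _⟩) ⟨y, hy⟩
    obtain ⟨E', hE'⟩ : ∃ E' : IntermediateField (BB' F i0) K,
        E' = IntermediateField.extendScalars hle := ⟨_, rfl⟩
    have hE'r : E'.restrictScalars ℂ = M.restrictScalars ℂ := by
      rw [hE']
      exact IntermediateField.extendScalars_restrictScalars hle
    have hfinE : FiniteDimensional E' K := by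
      have h1 : FiniteDimensional M K := inferInstance
      rw [hE']
      exact h1
    have hfin := HH_finite (hD0' i0)
    obtain ⟨b, hb'⟩ : ∃ b, b = Module.finBasis ℂ (HH (D0 i0)) := ⟨_, rfl⟩
    have hspan : Submodule.span ℂ (Set.range fun j => (b j : F i0)) = HH (D0 i0) := by
      have h3 : (Set.range fun j => (b j : F i0)) = (HH (D0 i0)).subtype '' Set.range b := by
        rw [← Set.range_comp]
        rfl
      rw [h3, Submodule.span_image, b.span_eq, Submodule.map_subtype_top]
    have hS := span_prod hsup hK i0 hx hD0 (fun j => (b j : F i0)) hspan f0 (fun i _ => hf0 i)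
    have h3 := Pool.Agent.R882.GL.dich hK (BB' F i0) (trdeg_BB' F halg hK i0)
      (closed_BB' hsup hK i0) E' _ (fun j => prod_pluri x D0 _)
      (fun j P _ => prod_regular hx hD0 (by
        intro i
        by_cases hi : i = i0
        · subst hi
          rw [Function.update_self]
          exact (b j).2
        · rw [Function.update_of_ne hi]
          exact fun P => Or.inr (hf0' i P)) P) hS (by
        intro j
        rw [hE'r]
        rintro ⟨D, D', hDD, hne⟩
        obtain ⟨a, ha⟩ := hval M (Function.update f0 i0 (b j)) D D' hDD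
        have h7 : Algebra.trace M K (h * ∏ i, algebraMap (F i) K
            (Function.update f0 i0 (b j : F i0) i)) = 0 := by
          subst hM
          exact rel_erase h2 _ (by rw [Function.update_self]; exact (b j).2)
        have h8 : Algebra.trace M K (extForm 1 D0 x (Function.update f0 i0 (b j)) D') = 0 := by
          rw [ha, ← Algebra.smul_def, map_smul, h7, smul_zero]
        exact hne h8)
    rw [hE'r] at h3
    obtain ⟨C, i1, i2, hC, htrC, ⟨ψ⟩⟩ := h3
    let φ : L →ₐ[ℂ] (M.restrictScalars ℂ : IntermediateField ℂ K) :=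
      { toFun := fun g => ⟨algebraMap L K g, M.algebraMap_mem g⟩
        map_one' := Subtype.ext (map_one _)
        map_mul' := fun a b => Subtype.ext (map_mul _ _ _)
        map_zero' := Subtype.ext (map_zero _)
        map_add' := fun a b => Subtype.ext (map_add _ _ _)
        commutes' := fun c => Subtype.ext (IsScalarTower.algebraMap_apply ℂ L K c).symm }
    exact ⟨C, i1, i2, hC, htrC, ⟨ψ.comp φ⟩⟩

end

end Pool.Agent.N145.PC
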