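import Pool.Agent.W619.PQ.Genus

/-!
Traces of elements which vanish at all places over a place.
-/

set_option autoImplicit false
set_option linter.overlappingInstances false
set_option linter.unusedSectionVars false

open Polynomial FF IsDedekindDomain IntermediateField

namespace Pool.Agent.N145.PC

open Pool.Agent.W603.LV Pool.Agent.W619.PQ

section

variable {k K F : Type} [Field k] [Field K] [Field F] [Algebra k K] [Algebra k F] [Algebra K F]
  [IsScalarTower k K F]

/-- the trace of an element which is regular at all places over `q` is regular -/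
theorem trace_reg [CharZero k] [FiniteDimensional K F] (q : Place k K) (z : F)
    (hz : ∀ (w : Place k F) (e : ℕ), Over w q e → Ge w 0 z) : Ge q 0 (Algebra.trace K F z) := by
  let iA : Algebra q.O F := algO q
  have h1 : IsIntegral q.O z := isIntegral_of_reg q z hz
  have : IsScalarTower q.O K F := IsScalarTower.of_algebraMap_eq fun _ => rfl
  have h2 : IsIntegral q.O (Algebra.trace K F z) := Algebra.isIntegral_trace h1
  obtain ⟨a, ha⟩ := IsIntegrallyClosed.isIntegral_iff.1 h2
  rw [← ha]
  exact a.2

/-- the trace of an element which vanishes at all places over `q` vanishes at `q` -/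
theorem trace_nil [CharZero k] [FiniteDimensional K F] (q : Place k K) (y : F) (N : ℕ)
    (hN : ∀ (w : Place k F) (e : ℕ), Over w q e → e ≤ N)
    (hy : ∀ (w : Place k F) (e : ℕ), Over w q e → Ge w 1 y) :
    Ge q 1 (Algebra.trace K F y) := by
  classical
  let iA : Algebra q.O F := algO q
  let ik : Algebra k q.O := algk q
  obtain ⟨t, ht0, ht⟩ := q.surj
  have htr : q.Reg t := Or.inr (by omega)
  have htF : algebraMap K F t ≠ 0 := by simpa using ht0
  have : IsDiscreteValuationRing q.O := q.isDVR
  have : CharZero K := charZero_of_injective_algebraMap (algebraMap k K).injective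
  have : IsScalarTower q.O K F := IsScalarTower.of_algebraMap_eq fun _ => rfl
  have : IsScalarTower k q.O F := IsScalarTower.of_algebraMap_eq fun c => by
    rw [IsScalarTower.algebraMap_apply k K F]
    rfl
  let B := integralClosure q.O F
  have : IsDedekindDomain B := integralClosure.isDedekindDomain q.O K F
  have : IsFractionRing B F := integralClosure.isFractionRing_of_finite_extension K F
  have hfin : Module.Finite q.O B := IsIntegralClosure.finite q.O K F B
  have hinj : Function.Injective (algebraMap q.O F) := by
    rw [IsScalarTower.algebraMap_eq q.O K F]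
    exact (algebraMap K F).injective.comp (IsFractionRing.injective q.O K)
  have htf : Module.IsTorsionFree q.O B := by
    have hinj' : Function.Injective (algebraMap q.O B) := by
      intro a b h
      apply hinj
      rw [IsScalarTower.algebraMap_apply q.O B F, IsScalarTower.algebraMap_apply q.O B F, h]
    exact Module.isTorsionFree_iff_algebraMap_injective.2 hinj'
  have hfree : Module.Free q.O B := inferInstance
  have hyB : IsIntegral q.O y := isIntegral_of_reg q y fun w e hw =>
    (hy w e hw).mono (by norm_num)
  have hzB : IsIntegral q.O (y ^ N / algebraMap K F t) := by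
    refine isIntegral_of_reg q _ fun w e hwe => ?_
    have h2 := (hy w e hwe).pow N
    rcases h2 with h3 | h3
    · left; rw [h3, zero_div]
    · by_cases h4 : y ^ N = 0
      · left; rw [h4, zero_div]
      · right
        rw [w.ord_div h4 htF, hwe.2, ht]
        have h5 := hN w e hwe
        have h6 : (e : ℤ) ≤ N := by exact_mod_cast h5
        linarith
  let yB : B := ⟨y, hyB⟩
  let zB : B := ⟨y ^ N / algebraMap K F t, hzB⟩
  let tA : q.O := ⟨t, htr⟩
  have hmul : yB ^ N = algebraMap q.O B tA * zB := by
    apply Subtype.ext
    change y ^ N = algebraMap K F t * (y ^ N / algebraMap K F t)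
    field_simp
  -- trace over the valuation ring
  have htrace : algebraMap q.O K (Algebra.trace q.O B yB) = Algebra.trace K F y := by
    rw [← Algebra.intTrace_eq_trace, Algebra.algebraMap_intTrace (L := F)]
    rfl
  let p := IsLocalRing.maximalIdeal q.O
  let _ : Field (q.O ⧸ p) := Ideal.Quotient.field p
  have hq := Algebra.trace_quotient_mk (R := q.O) (S := B) yB
  have hnil : IsNilpotent (Algebra.lmul (q.O ⧸ p) (B ⧸ Ideal.map (algebraMap q.O B) p)
      (Ideal.Quotient.mk (Ideal.map (algebraMap q.O B) p) yB)) := by
    refine ⟨N, ?_⟩
    rw [← map_pow, ← map_pow, hmul]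
    have h1 : Ideal.Quotient.mk (Ideal.map (algebraMap q.O B) p) (algebraMap q.O B tA * zB) = 0 := by
      rw [Ideal.Quotient.eq_zero_iff_mem]
      exact Ideal.mul_mem_right _ _ (Ideal.mem_map_of_mem _
        ((mem_maximalIdeal_iff q tA).2 (Or.inr ht.ge)))
    rw [h1, map_zero]
  have h5 := LinearMap.isNilpotent_trace_of_isNilpotent hnil
  have h6 : Algebra.trace (q.O ⧸ p) (B ⧸ Ideal.map (algebraMap q.O B) p)
      (Ideal.Quotient.mk (Ideal.map (algebraMap q.O B) p) yB) = 0 := h5.eq_zero
  rw [h6] at hq
  have h7 := Ideal.Quotient.eq_zero_iff_mem.1 hq.symm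
  rw [mem_maximalIdeal_iff] at h7
  have h8 : Ge q 1 (algebraMap q.O K (Algebra.trace q.O B yB)) := h7
  rwa [htrace] at h8

end

end Pool.Agent.N145.PC
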