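import Pool.Agent.N145.PC.Dual

/-!
Places with a given centre.
-/

set_option autoImplicit false
set_option linter.overlappingInstances false
set_option linter.unusedSectionVars false

open Polynomial FF IsDedekindDomain IntermediateField

namespace Pool.Agent.N145.PC

open Pool.Agent.W603.LV Pool.Agent.W619.PQ

/-- A valuation ring of a function field that contains the constants is the ring of a place
(copied from `Pool.Agent.TH145.GF.Ext`). -/
theorem place_of_val {κ M : Type} [Field κ] [Field M] [Algebra κ M] [CharZero κ] [IsFF κ M]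
    (V : ValuationSubring M) (hV : ∀ c : κ, algebraMap κ M c ∈ V) {t : M} (ht : t ∈ V)
    (ht' : t⁻¹ ∉ V) : ∃ w : Place κ M, ∀ g, w.Reg g ↔ g ∈ V := by
  have hint : ∀ (A : Type) [CommRing A] [Algebra A M], (∀ a : A, algebraMap A M a ∈ V) →
      ∀ b : M, IsIntegral A b → b ∈ V := by
    intro A _ _ hA b hb
    obtain ⟨p, hp, hpb⟩ := hb
    let φ : A →+* V := (algebraMap A M).codRestrict V.toSubring hA
    have h2 : IsIntegral V b := by
      refine ⟨p.map φ, hp.map _, ?_⟩
      rw [Polynomial.eval₂_map]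
      exact hpb
    obtain ⟨c, hc⟩ := (IsIntegrallyClosed.isIntegral_iff (R := V) (K := M)).1 h2
    rw [← hc]
    exact c.2
  have htr : Transcendental κ t := by
    intro h
    exact ht' (hint κ hV _ h.inv.isIntegral)
  let A := Algebra.adjoin κ {t}
  let e := Polynomial.algEquivOfTranscendental κ t htr
  have hpid : IsPrincipalIdealRing A := IsPrincipalIdealRing.of_surjective e.toRingEquiv e.surjective
  have hded : IsDedekindDomain A := inferInstance
  have hfin := IsFF.finite htr
  open IntermediateField in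
  have hchar : CharZero κ⟮t⟯ := charZero_of_injective_algebraMap (algebraMap κ κ⟮t⟯).injective
  open IntermediateField in
  have hsep : Algebra.IsSeparable κ⟮t⟯ M := inferInstance
  let B := integralClosure A M
  open scoped IntermediateField.algebraAdjoinAdjoin in
  have : IsDedekindDomain B := integralClosure.isDedekindDomain A (IntermediateField.adjoin κ {t}) M
  open scoped IntermediateField.algebraAdjoinAdjoin in
  have : IsFractionRing B M := integralClosure.isFractionRing_of_finite_extension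
    (IntermediateField.adjoin κ {t}) M
  have hsc : IsScalarTower κ B M := by
    refine IsScalarTower.of_algebraMap_eq fun c => ?_
    rw [IsScalarTower.algebraMap_apply κ A B, ← IsScalarTower.algebraMap_apply A B M,
      ← IsScalarTower.algebraMap_apply κ A M]
  have hAV : ∀ a : A, algebraMap A M a ∈ V := by
    rintro ⟨a, ha⟩
    change a ∈ V
    induction ha using Algebra.adjoin_induction with
    | mem x hx =>
      rw [Set.mem_singleton_iff] at hx
      rw [hx]
      exact ht
    | algebraMap r => exact hV r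
    | add x y _ _ hx hy => exact add_mem hx hy
    | mul x y _ _ hx hy => exact mul_mem hx hy
  have hBV : ∀ b : B, (b : M) ∈ V := fun b => hint A hAV _ b.2
  let φ : B →+* V := (algebraMap B M).codRestrict V.toSubring hBV
  let I : Ideal B := (IsLocalRing.maximalIdeal V).comap φ
  have hIp : I.IsPrime := inferInstance
  have hmemI : ∀ b : B, b ∉ I ↔ IsUnit (φ b) := by
    intro b
    change ¬ (φ b ∈ IsLocalRing.maximalIdeal V) ↔ _
    rw [IsLocalRing.mem_maximalIdeal, mem_nonunits_iff, not_not]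
  have hI0 : I ≠ ⊥ := by
    intro h0
    obtain ⟨b, hb⟩ : ∃ b : B, (b : M) = t :=
      ⟨algebraMap A B ⟨t, Algebra.self_mem_adjoin_singleton κ t⟩, rfl⟩
    have h1 : b ∈ I := by
      by_contra h
      have h2 := (hmemI b).1 h
      obtain ⟨c, hc⟩ := h2.exists_left_inv
      apply ht'
      have h3 : (c : M) * t = 1 := by
        have := congrArg (fun z : V => (z : M)) hc
        rw [← hb]
        exact this
      have h4 : t⁻¹ = (c : M) := by
        rw [eq_comm]
        exact eq_inv_of_mul_eq_one_left h3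
      rw [h4]
      exact c.2
    rw [h0, Ideal.mem_bot] at h1
    rw [h1] at hb
    have h2 : t = 0 := hb.symm
    rw [h2, inv_zero] at ht'
    exact ht' V.zero_mem
  obtain ⟨w, hw⟩ : ∃ w : Place κ M, w = placeOf (k := κ) (L := M) (⟨I, hIp, hI0⟩ :
    HeightOneSpectrum B) := ⟨_, rfl⟩
  have h1 : ∀ g, w.Reg g → g ∈ V := by
    intro g hg
    by_cases hg0 : g = 0
    · rw [hg0]; exact V.zero_mem
    have h2 := (w.reg_iff hg0).1 hg
    rw [hw, placeOf_nonneg _ hg0] at h2
    obtain ⟨n, d, hnd⟩ := HeightOneSpectrum.exists_primeCompl_mul_eq_of_integer _ g h2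
    have h3 : IsUnit (φ d) := (hmemI d).1 d.2
    obtain ⟨c, hc⟩ := h3.exists_left_inv
    have h4 : (c : M) * algebraMap B M d = 1 := congrArg (fun z : V => (z : M)) hc
    have h5 : g = (c : M) * algebraMap B M n := by
      rw [← hnd]
      have : (c : M) * (g * algebraMap B M d) = ((c : M) * algebraMap B M d) * g := by ring
      rw [this, h4, one_mul]
    rw [h5]
    exact mul_mem c.2 (hBV n)
  refine ⟨w, fun g => ⟨h1 g, fun hg => ?_⟩⟩
  by_contra hcon
  have hg0 : g ≠ 0 := by
    rintro rfl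
    exact hcon w.reg_zero
  have hneg : w.ord g < 0 := by
    by_contra h
    exact hcon ((w.reg_iff hg0).2 (not_lt.1 h))
  apply ht'
  have ht0 : t ≠ 0 := by
    rintro rfl
    rw [inv_zero] at ht'
    exact ht' V.zero_mem
  obtain ⟨N, hN⟩ : ∃ N : ℕ, (N : ℤ) = |w.ord t| := ⟨(|w.ord t|).toNat, by
    rw [Int.toNat_of_nonneg (abs_nonneg _)]⟩
  have h2 : w.Reg (t⁻¹ * (g⁻¹) ^ N) := by
    rw [w.reg_iff (mul_ne_zero (inv_ne_zero ht0) (pow_ne_zero _ (inv_ne_zero hg0))),
      w.ord_mul (inv_ne_zero ht0) (pow_ne_zero _ (inv_ne_zero hg0)), w.ord_pow, w.ord_inv,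
      w.ord_inv]
    have h3 : w.ord t ≤ N := by rw [hN]; exact le_abs_self _
    nlinarith
  have h3 := mul_mem (h1 _ h2) (pow_mem hg N)
  have h4 : t⁻¹ * (g⁻¹) ^ N * g ^ N = t⁻¹ := by
    rw [mul_assoc, ← mul_pow, inv_mul_cancel₀ hg0, one_pow, mul_one]
  rwa [h4] at h3

/-- a valuation ring with a given centre (copied from `Pool.Agent.H602R2.LocV9`) -/
theorem exists_valring {A Ω : Type} [CommRing A] [IsDomain A] [Field Ω] [Algebra A Ω]
    (hinj : Function.Injective (algebraMap A Ω)) (P : Ideal A) (hP : P.IsPrime) :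
    ∃ O : ValuationSubring Ω, (∀ a, algebraMap A Ω a ∈ O) ∧
      ∀ a, O.valuation (algebraMap A Ω a) < 1 ↔ a ∈ P := by
  have hu : ∀ y : P.primeCompl, IsUnit (algebraMap A Ω y) := by
    intro y
    rw [isUnit_iff_ne_zero]
    intro h0
    have h1 : (y : A) = 0 := hinj (by rw [h0, map_zero])
    exact y.2 (by rw [h1]; exact P.zero_mem)
  let f : Localization.AtPrime P →+* Ω := IsLocalization.lift hu
  have hf : ∀ a, f (algebraMap A (Localization.AtPrime P) a) = algebraMap A Ω a := fun a =>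
    IsLocalization.lift_eq hu a
  obtain ⟨O, h, hloc⟩ := IsLocalRing.exists_factor_valuationRing f
  have hmem : ∀ a, algebraMap A Ω a ∈ O := by
    intro a
    rw [← hf a]
    exact h _
  refine ⟨O, hmem, fun a => ?_⟩
  have h1 : O.valuation (algebraMap A Ω a) ≤ 1 := (O.valuation_le_one_iff _).mpr (hmem a)
  have h2 : IsUnit (⟨algebraMap A Ω a, hmem a⟩ : O) ↔ O.valuation (algebraMap A Ω a) = 1 :=
    O.valuation_eq_one_iff ⟨algebraMap A Ω a, hmem a⟩
  have h3 : IsUnit (⟨algebraMap A Ω a, hmem a⟩ : O) ↔ a ∉ P := by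
    have h4 : IsUnit (algebraMap A (Localization.AtPrime P) a) ↔ a ∈ P.primeCompl :=
      IsLocalization.AtPrime.isUnit_to_map_iff (Localization.AtPrime P) P a
    have h5 : f.codRestrict O.toSubring h (algebraMap A (Localization.AtPrime P) a) =
        (⟨algebraMap A Ω a, hmem a⟩ : O.toSubring) := Subtype.ext (hf a)
    constructor
    · intro hu2
      have h6 : IsUnit (f.codRestrict O.toSubring h (algebraMap A (Localization.AtPrime P) a)) := by
        rw [h5]
        exact hu2
      exact h4.mp (hloc.map_nonunit _ h6)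
    · intro ha
      have h6 := (h4.mpr ha).map (f.codRestrict O.toSubring h)
      rw [h5] at h6
      exact h6
  rw [lt_iff_le_and_ne]
  constructor
  · rintro ⟨_, hne⟩
    by_contra ha
    exact hne (h2.mp (h3.mpr ha))
  · intro ha
    exact ⟨h1, fun he => h3.mp (h2.mpr he) ha⟩

/-- **Places with a given centre.** -/
theorem exists_place_of_hom {F : Type} [Field F] [Algebra ℂ F] [IsFF ℂ F] (R : Subalgebra ℂ F)
    (χ : R →ₐ[ℂ] ℂ) {t : F} (ht : t ∈ R) (htr : Transcendental ℂ t) :
    ∃ P : Place ℂ F, ∀ r (hr : r ∈ R), Ge P 1 (r - algebraMap ℂ F (χ ⟨r, hr⟩)) := by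
  have hinj : Function.Injective (algebraMap R F) := Subtype.coe_injective
  obtain ⟨O, hO1, hO2⟩ := exists_valring hinj (RingHom.ker (χ : R →+* ℂ)) (RingHom.ker_isPrime _)
  have hmem : ∀ r (hr : r ∈ R), (⟨r, hr⟩ - algebraMap ℂ R (χ ⟨r, hr⟩) : R) ∈
      RingHom.ker (χ : R →+* ℂ) := by
    intro r hr
    rw [RingHom.mem_ker]
    change χ (⟨r, hr⟩ - algebraMap ℂ R (χ ⟨r, hr⟩)) = 0
    rw [map_sub, AlgHom.commutes]
    exact sub_self _
  have hval : ∀ r (hr : r ∈ R), O.valuation (r - algebraMap ℂ F (χ ⟨r, hr⟩)) < 1 := fun r hr =>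
    (hO2 _).2 (hmem r hr)
  have hO3 : ∀ r (hr : r ∈ R), r - algebraMap ℂ F (χ ⟨r, hr⟩) ∈ O := fun r hr =>
    (O.valuation_le_one_iff _).1 (hval r hr).le
  have hinv : ∀ r : F, r ≠ 0 → O.valuation r < 1 → r⁻¹ ∉ O := by
    intro r hr h1 h2
    have h3 := (O.valuation_le_one_iff _).2 h2
    rw [map_inv₀] at h3
    have h4 : O.valuation r ≠ 0 := (_root_.map_ne_zero _).2 hr
    have h5 := (inv_le_one₀ (zero_lt_iff.2 h4)).1 h3
    exact absurd h1 (not_lt.2 h5)
  have hs0 : t - algebraMap ℂ F (χ ⟨t, ht⟩) ≠ 0 := sub_const_ne htr _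
  obtain ⟨w, hw⟩ := place_of_val O (fun c => by
    have := hO1 (algebraMap ℂ R c)
    exact this) (hO3 t ht) (hinv _ hs0 (hval t ht))
  refine ⟨w, fun r hr => ?_⟩
  by_cases h0 : r - algebraMap ℂ F (χ ⟨r, hr⟩) = 0
  · exact Or.inl h0
  · right
    have h1 := (w.reg_iff h0).1 ((hw _).2 (hO3 r hr))
    by_contra hcon
    have h2 : w.ord (r - algebraMap ℂ F (χ ⟨r, hr⟩)) = 0 := by omega
    apply hinv _ h0 (hval r hr)
    rw [← hw]
    right
    rw [w.ord_inv, h2]
    norm_num

/-- a finitely generated nontrivial algebra over `ℂ` has a complex point (copied from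
`Pool.Agent.R845.E3.Desc`) -/
theorem exists_point (A : Type) [CommRing A] [Nontrivial A] [Algebra ℂ A]
    [Algebra.FiniteType ℂ A] : Nonempty (A →ₐ[ℂ] ℂ) := by
  obtain ⟨M, hM⟩ := Ideal.exists_maximal A
  let _ : Field (A ⧸ M) := Ideal.Quotient.field M
  have : Algebra.FiniteType ℂ (A ⧸ M) :=
    Algebra.FiniteType.of_surjective (Ideal.Quotient.mkₐ ℂ M) Ideal.Quotient.mk_surjective
  have : Module.Finite ℂ (A ⧸ M) := finite_of_finite_type_of_isJacobsonRing ℂ (A ⧸ M)
  have hb : Function.Bijective (algebraMap ℂ (A ⧸ M)) :=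
    IsAlgClosed.algebraMap_bijective_of_isIntegral
  let e : ℂ ≃ₐ[ℂ] (A ⧸ M) := AlgEquiv.ofBijective (Algebra.ofId ℂ (A ⧸ M)) hb
  exact ⟨(e.symm : (A ⧸ M) →ₐ[ℂ] ℂ).comp (Ideal.Quotient.mkₐ ℂ M)⟩

end Pool.Agent.N145.PC
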