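import Pool.Agent.N145.PC.Prod
import Pool.Agent.N145.PC.Abs

/-!
The trace relation as a relation between the points of a fibre.
-/

set_option autoImplicit false
set_option linter.overlappingInstances false
set_option linter.unusedSectionVars false

open Polynomial FF IsDedekindDomain IntermediateField Module

namespace Pool.Agent.N145.PC

open Pool.Agent.W603.LV Pool.Agent.W619.PQ
open Pool.Agent.W602.GT (Divisorial RegAt IsPluri DerReg)

section

variable {K L Ω : Type} [Field K] [Field L] [Field Ω] [Algebra ℂ K] [Algebra ℂ L] [Algebra ℂ Ω]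
  [Algebra L K] [IsScalarTower ℂ L K] [Algebra L Ω] [IsScalarTower ℂ L Ω] [FiniteDimensional L K]

/-- the restriction of an embedding to a subfield -/
def res (E : Type) [Field E] [Algebra ℂ E] [Algebra E K] [IsScalarTower ℂ E K] (τ : K →ₐ[L] Ω) :
    E →ₐ[ℂ] Ω := (τ.restrictScalars ℂ).comp (IsScalarTower.toAlgHom ℂ E K)

theorem res_apply (E : Type) [Field E] [Algebra ℂ E] [Algebra E K] [IsScalarTower ℂ E K]
    (τ : K →ₐ[L] Ω) (z : E) : res E τ z = τ (algebraMap E K z) := rfl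

theorem charZero_L : CharZero L := charZero_of_injective_algebraMap (algebraMap ℂ L).injective

variable (M : IntermediateField L K) (τ0 : K →ₐ[L] Ω) (S : Finset (K →ₐ[L] Ω))
  (hS : ∀ τ, τ ∈ S ↔ ∀ z ∈ M, τ z = τ0 z) [IsAlgClosed Ω]

include hS in
theorem exists_bij : ∃ (iA : Algebra M Ω), (∀ z : M, algebraMap M Ω z = τ0 z) ∧
    ∃ ψ : (K →ₐ[M] Ω) → (K →ₐ[L] Ω), Function.Injective ψ ∧ (∀ τ, τ ∈ S ↔ ∃ σ, ψ σ = τ) ∧
      ∀ σ z, ψ σ z = σ z := by
  let iA : Algebra M Ω := ((τ0 : K →+* Ω).comp (algebraMap M K)).toAlgebra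
  have hA : ∀ z : M, algebraMap M Ω z = τ0 z := fun z => rfl
  refine ⟨iA, hA, ?_⟩
  have hT : IsScalarTower L M Ω := IsScalarTower.of_algebraMap_eq fun z => by
    rw [hA]
    exact (τ0.commutes z).symm
  refine ⟨fun σ => σ.restrictScalars L, ?_, ?_, fun σ z => rfl⟩
  · intro σ σ' h
    exact AlgHom.ext fun z => DFunLike.congr_fun h z
  · intro τ
    rw [hS]
    constructor
    · intro h
      refine ⟨{ toRingHom := (τ : K →+* Ω), commutes' := fun z => ?_ }, ?_⟩
      · exact h z z.2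
      · rfl
    · rintro ⟨σ, rfl⟩ z hz
      exact σ.commutes ⟨z, hz⟩

include hS in
theorem sum_trace (z : K) : ∑ τ ∈ S, τ z = τ0 (algebraMap M K (Algebra.trace M K z)) := by
  classical
  have hchar : CharZero L := charZero_L
  have hchar' : CharZero M := charZero_of_injective_algebraMap (algebraMap L M).injective
  obtain ⟨iA, hA, ψ, hψ, hψS, hψz⟩ := exists_bij M τ0 S hS
  have h1 := trace_eq_sum_embeddings (K := M) (L := K) Ω (x := z)
  rw [hA] at h1
  change _ = τ0 (Algebra.trace M K z : K)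
  rw [h1]
  symm
  refine Finset.sum_bij (fun σ _ => ψ σ) (fun σ _ => (hψS _).2 ⟨σ, rfl⟩)
    (fun σ _ σ' _ h => hψ h) (fun τ hτ => ?_) (fun σ _ => (hψz σ z).symm)
  obtain ⟨σ, rfl⟩ := (hψS _).1 hτ
  exact ⟨σ, Finset.mem_univ _, rfl⟩

include hS in
theorem card_S : S.card = finrank M K := by
  classical
  have hchar : CharZero L := charZero_L
  have hchar' : CharZero M := charZero_of_injective_algebraMap (algebraMap L M).injective
  obtain ⟨iA, hA, ψ, hψ, hψS, hψz⟩ := exists_bij M τ0 S hS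
  rw [← AlgHom.card M K Ω, ← Finset.card_univ, ← Finset.card_image_of_injective _ hψ]
  congr 1
  ext τ
  rw [hψS]
  simp

include hS in
theorem card_image_le (E : Type) [Field E] [Algebra ℂ E] [Algebra E K] [IsScalarTower ℂ E K]
    [DecidableEq (E →ₐ[ℂ] Ω)] : (S.image (res E)).card ≤
      finrank M (IntermediateField.adjoin M (Set.range (algebraMap E K))) := by
  classical
  have hchar : CharZero L := charZero_L
  have hchar' : CharZero M := charZero_of_injective_algebraMap (algebraMap L M).injective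
  obtain ⟨iA, hA, ψ, hψ, hψS, hψz⟩ := exists_bij M τ0 S hS
  obtain ⟨N, hN⟩ : ∃ N, N = IntermediateField.adjoin M (Set.range (algebraMap E K)) := ⟨_, rfl⟩
  rw [← hN]
  have hEN : ∀ z : E, algebraMap E K z ∈ N := fun z => by
    rw [hN]
    exact IntermediateField.subset_adjoin _ _ ⟨z, rfl⟩
  rw [← AlgHom.card M N Ω]
  have hinj : ∀ τ ∈ S, ∃ σ : N →ₐ[M] Ω, ∀ z : E, σ ⟨algebraMap E K z, hEN z⟩ = res E τ z := by
    intro τ hτ
    obtain ⟨σ, rfl⟩ := (hψS _).1 hτ
    exact ⟨σ.comp N.val, fun z => (hψz σ _).symm⟩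
  have hch : ∀ ρ : S.image (res E), ∃ σ : N →ₐ[M] Ω, ∀ z : E,
      σ ⟨algebraMap E K z, hEN z⟩ = (ρ : E →ₐ[ℂ] Ω) z := by
    rintro ⟨ρ, hρ⟩
    obtain ⟨τ, hτ, rfl⟩ := Finset.mem_image.1 hρ
    exact hinj τ hτ
  choose Φ hΦ using hch
  rw [← Fintype.card_coe]
  refine Fintype.card_le_of_injective Φ fun ρ ρ' h => Subtype.ext (AlgHom.ext fun z => ?_)
  rw [← hΦ, ← hΦ, h]

end

section

variable {K : Type} [Field K] [Algebra ℂ K] {n : ℕ} {E : Fin n → Type} [∀ i, Field (E i)]
  [∀ i, Algebra ℂ (E i)] [∀ i, Algebra (E i) K] [∀ i, IsScalarTower ℂ (E i) K]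
  {L Ω : Type} [Field L] [Field Ω] [Algebra ℂ L] [Algebra ℂ Ω] [Algebra L K]
  [IsScalarTower ℂ L K] [Algebra L Ω] [IsScalarTower ℂ L Ω] [FiniteDimensional L K]

variable (E) in
/-- the functions on the image of `V` in `W × ∏ i ∈ J, C i` -/
noncomputable def MJ (L : Type) [Field L] [Algebra L K] (J : Finset (Fin n)) :
    IntermediateField L K :=
  IntermediateField.adjoin L (⋃ i ∈ J, Set.range (algebraMap (E i) K))

theorem mem_MJ (J : Finset (Fin n)) {i : Fin n} (hi : i ∈ J) (z : E i) :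
    algebraMap (E i) K z ∈ MJ E L J :=
  IntermediateField.subset_adjoin _ _ (Set.mem_biUnion hi ⟨z, rfl⟩)

open Classical in
theorem mem_iff (τ0 : K →ₐ[L] Ω) (J : Finset (Fin n)) (τ : K →ₐ[L] Ω) :
    τ ∈ SJ (fun i => res (K := K) (L := L) (Ω := Ω) (E i)) τ0 J ↔ ∀ z ∈ MJ E L J, τ z = τ0 z := by
  rw [mem_SJ]
  constructor
  · intro h z hz
    induction hz using IntermediateField.adjoin_induction with
    | mem z hz =>
      obtain ⟨i, hi, z, rfl⟩ := Set.mem_iUnion₂.1 hz
      exact DFunLike.congr_fun (h i hi) z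
    | algebraMap z => rw [τ.commutes, τ0.commutes]
    | add a b _ _ ha hb => rw [map_add, map_add, ha, hb]
    | inv a _ ha => rw [map_inv₀, map_inv₀, ha]
    | mul a b _ _ ha hb => rw [map_mul, map_mul, ha, hb]
  · intro h i hi
    exact AlgHom.ext fun z => h _ (mem_MJ J hi z)

end

end Pool.Agent.N145.PC
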