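import Pool.Agent.N145.PC.Plc
import Pool.Agent.TH143.GE.Form

/-!
Curves of large gonality: distinct points impose independent conditions on the regular
differentials, over all extension fields.
-/

set_option autoImplicit false
set_option linter.overlappingInstances false
set_option linter.unusedSectionVars false

open Polynomial FF IsDedekindDomain IntermediateField

namespace Pool.Agent.N145.PC

open Pool.Agent.W603.LV Pool.Agent.W619.PQ

section

variable {k F : Type} [Field k] [Field F] [Algebra k F]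

/-- the functions `f` such that the differential whose value on `D` is `f` is regular -/
def HH (D : Derivation k F F) : Submodule k F where
  carrier := {f | ∀ P : Place k F, Ge P (vo P D) f}
  add_mem' := fun ha hb P => (ha P).add (hb P)
  zero_mem' := fun _ => Ge.zero
  smul_mem' := by
    intro c y hy P
    rw [Algebra.smul_def]
    simpa using (Ge.const (P := P) c).mul (hy P)

theorem mem_HH {D : Derivation k F F} {f : F} : f ∈ HH D ↔ ∀ P : Place k F, Ge P (vo P D) f :=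
  Iff.rfl

variable [CharZero k] [IsFF k F] [IsAlgClosed k]

theorem HH_finite {D : Derivation k F F} (hD : D ≠ 0) : FiniteDimensional k (HH D) := by
  have h1 : HH D = LL (Pool.Agent.TH143.GE.DN D hD 1) := by
    ext f
    rw [Pool.Agent.TH143.GE.mem_DN, mem_HH]
    constructor
    · intro h
      by_cases h0 : f = 0
      · exact Or.inl h0
      · right
        intro P
        have := (h P).resolve_left h0
        push_cast
        linarith
    · rintro (h | h) P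
      · exact Or.inl h
      · right
        have := h P
        push_cast at this
        linarith
  rw [h1]
  infer_instance

end

section

variable {F : Type} [Field F] [Algebra ℂ F] [IsFF ℂ F]

/-- **Separation of points.** On a curve of gonality `g` fewer than `g` distinct points with
coordinates in an extension field of `ℂ` impose independent conditions on the regular
differentials. -/
theorem sep_of_gonality {x : F} (hx : Transcendental ℂ x) {D : Derivation ℂ F F} (hD : D x = 1)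
    {g : ℕ} (hg : ∀ y : F, Transcendental ℂ y → g ≤ Module.finrank ℂ⟮y⟯ F) {Ω : Type} [Field Ω]
    [Algebra ℂ Ω] (T : Finset (F →ₐ[ℂ] Ω)) (hT : T.card < g) (c : (F →ₐ[ℂ] Ω) → Ω)
    (hrel : ∀ f ∈ HH D, ∑ σ ∈ T, c σ * σ f = 0) : ∀ σ ∈ T, c σ = 0 := by
  classical
  by_contra hcon
  push Not at hcon
  obtain ⟨σ0, hσ0, hc0⟩ := hcon
  have hD0 : D ≠ 0 := by
    rintro rfl
    simp at hD
  obtain ⟨T', hT'def⟩ : ∃ T', T' = T.filter fun σ => c σ ≠ 0 := ⟨_, rfl⟩
  have hT' : ∀ σ, σ ∈ T' ↔ σ ∈ T ∧ c σ ≠ 0 := fun σ => by rw [hT'def, Finset.mem_filter]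
  have hrel' : ∀ f ∈ HH D, ∑ σ ∈ T', c σ * σ f = 0 := by
    intro f hf
    rw [← hrel f hf, hT'def, Finset.sum_filter]
    refine Finset.sum_congr rfl fun σ _ => ?_
    by_cases h : c σ = 0
    · rw [if_neg (not_not.2 h), h, zero_mul]
    · rw [if_pos h]
  -- bad places
  have hZfin : {P : Place ℂ F | P.ord x ≠ 0 ∨ vo P D ≠ 0}.Finite := by
    have h1 := (finite_support (k := ℂ) x).union (vo_finite hD0)
    refine h1.subset ?_
    rintro P (h | h)
    · exact Or.inl h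
    · exact Or.inr h
  have hfinH := HH_finite hD0
  obtain ⟨b, hbdef⟩ : ∃ b, b = Module.finBasis ℂ (HH D) := ⟨_, rfl⟩
  have hy : ∀ σ τ : F →ₐ[ℂ] Ω, ∃ y : F, σ ≠ τ → σ y ≠ τ y := by
    intro σ τ
    by_cases h : σ = τ
    · exact ⟨0, fun h' => absurd h h'⟩
    · by_contra hcon
      push Not at hcon
      exact h (AlgHom.ext fun y => (hcon y).2)
  choose y hy using hy
  -- the finitely generated algebra
  obtain ⟨G, hGdef⟩ : ∃ G : Set Ω, G = ⋃ σ ∈ (T' : Set (F →ₐ[ℂ] Ω)),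
    (({σ x, c σ, (c σ)⁻¹} ∪ Set.range fun i => σ (b i)) ∪
      ((⋃ P ∈ {P : Place ℂ F | P.ord x ≠ 0 ∨ vo P D ≠ 0}, {σ (unif P), (σ (unif P))⁻¹}) ∪
      ⋃ τ ∈ (T' : Set (F →ₐ[ℂ] Ω)), {σ (y σ τ), τ (y σ τ), (σ (y σ τ) - τ (y σ τ))⁻¹})) := ⟨_, rfl⟩
  have hGfin : G.Finite := by
    rw [hGdef]
    refine T'.finite_toSet.biUnion fun σ _ => ?_
    refine ((Set.toFinite _).union (Set.finite_range _)).union ?_
    refine (hZfin.biUnion fun P _ => Set.toFinite _).union ?_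
    exact T'.finite_toSet.biUnion fun τ _ => Set.toFinite _
  obtain ⟨A, hAdef⟩ : ∃ A : Subalgebra ℂ Ω, A = Algebra.adjoin ℂ G := ⟨_, rfl⟩
  have hAfg : Algebra.FiniteType ℂ A := by
    rw [hAdef]
    exact (Subalgebra.fg_iff_finiteType _).1 ⟨hGfin.toFinset, by rw [hGfin.coe_toFinset]⟩
  have hG : ∀ z ∈ G, z ∈ A := fun z hz => by
    rw [hAdef]
    exact Algebra.subset_adjoin hz
  have h1 : ∀ σ ∈ T', σ x ∈ A ∧ c σ ∈ A ∧ (c σ)⁻¹ ∈ A ∧ (∀ i, σ (b i) ∈ A) ∧
      (∀ P : Place ℂ F, (P.ord x ≠ 0 ∨ vo P D ≠ 0) → σ (unif P) ∈ A ∧ (σ (unif P))⁻¹ ∈ A) ∧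
      ∀ τ ∈ T', σ (y σ τ) ∈ A ∧ τ (y σ τ) ∈ A ∧ (σ (y σ τ) - τ (y σ τ))⁻¹ ∈ A := by
    intro σ hσ
    have h2 : ∀ z, z ∈ (({σ x, c σ, (c σ)⁻¹} ∪ Set.range fun i => σ (b i)) ∪
      ((⋃ P ∈ {P : Place ℂ F | P.ord x ≠ 0 ∨ vo P D ≠ 0}, {σ (unif P), (σ (unif P))⁻¹}) ∪
      ⋃ τ ∈ (T' : Set (F →ₐ[ℂ] Ω)), {σ (y σ τ), τ (y σ τ), (σ (y σ τ) - τ (y σ τ))⁻¹}) :
        Set Ω) → z ∈ A := by
      intro z hz
      apply hG
      rw [hGdef]
      exact Set.mem_biUnion (Finset.mem_coe.2 hσ) hz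
    refine ⟨h2 _ ?_, h2 _ ?_, h2 _ ?_, fun i => h2 _ ?_, fun P hP => ⟨h2 _ ?_, h2 _ ?_⟩,
      fun τ hτ => ⟨h2 _ ?_, h2 _ ?_, h2 _ ?_⟩⟩
    · left; left; simp
    · left; left; simp
    · left; left; simp
    · left; right; exact ⟨i, rfl⟩
    · right; left; exact Set.mem_biUnion hP (by simp)
    · right; left; exact Set.mem_biUnion hP (by simp)
    · right; right; exact Set.mem_biUnion (Finset.mem_coe.2 hτ) (by simp)
    · right; right; exact Set.mem_biUnion (Finset.mem_coe.2 hτ) (by simp)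
    · right; right; exact Set.mem_biUnion (Finset.mem_coe.2 hτ) (by simp)
  obtain ⟨π⟩ := exists_point A
  -- elements with an inverse
  have hπ : ∀ z (hz : z ∈ A), z⁻¹ ∈ A → z ≠ 0 → π ⟨z, hz⟩ ≠ 0 := by
    intro z hz hz' h0 h
    have h2 : (⟨z, hz⟩ : A) * ⟨z⁻¹, hz'⟩ = 1 := Subtype.ext (mul_inv_cancel₀ h0)
    have h3 := congrArg π h2
    rw [map_mul, h, zero_mul, map_one] at h3
    exact zero_ne_one h3
  -- the places
  have hP : ∀ σ : F →ₐ[ℂ] Ω, ∃ P : Place ℂ F, σ ∈ T' → ∀ (r : F) (hr : σ r ∈ A),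
      Ge P 1 (r - algebraMap ℂ F (π ⟨σ r, hr⟩)) := by
    intro σ
    by_cases hσ : σ ∈ T'
    · let R : Subalgebra ℂ F := A.comap σ
      let χ0 : R →ₐ[ℂ] A := (σ.comp R.val).codRestrict A fun r => r.2
      obtain ⟨P, hP⟩ := exists_place_of_hom R (π.comp χ0) (t := x) (h1 σ hσ).1 hx
      exact ⟨P, fun _ r hr => hP r hr⟩
    · obtain ⟨P, -⟩ := exists_place (k := ℂ) (K := F)
      exact ⟨P, fun h => absurd h hσ⟩
  choose P hP using hP
  have hinj : ∀ σ ∈ T', ∀ τ ∈ T', P σ = P τ → σ = τ := by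
    intro σ hσ τ hτ he
    by_contra hne
    obtain ⟨h2, h3, h4⟩ := (h1 σ hσ).2.2.2.2.2 τ hτ
    have h5 := hP σ hσ _ h2
    have h6 := hP τ hτ _ h3
    rw [← he] at h6
    have h7 := h6.sub h5
    have h8 : y σ τ - algebraMap ℂ F (π ⟨τ (y σ τ), h3⟩) -
        (y σ τ - algebraMap ℂ F (π ⟨σ (y σ τ), h2⟩)) =
        algebraMap ℂ F (π ⟨σ (y σ τ), h2⟩ - π ⟨τ (y σ τ), h3⟩) := by
      rw [map_sub]
      ring
    rw [h8] at h7
    have h9 := const_eq_zero _ h7
    refine hπ (σ (y σ τ) - τ (y σ τ)) (sub_mem h2 h3) h4 (sub_ne_zero.2 (hy σ τ hne)) ?_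
    rw [← h9, ← map_sub]
    rfl
  have hgood : ∀ σ ∈ T', (P σ).ord x = 0 ∧ vo (P σ) D = 0 := by
    intro σ hσ
    by_contra hcon
    have hcon' : (P σ).ord x ≠ 0 ∨ vo (P σ) D ≠ 0 := by
      by_contra h
      push Not at h
      exact hcon h
    obtain ⟨h2, h3⟩ := (h1 σ hσ).2.2.2.2.1 (P σ) hcon'
    have h4 := hP σ hσ _ h2
    have h5 : Ge (P σ) 1 (unif (P σ)) := Or.inr (ord_unif (P σ)).ge
    have h6 := h5.sub h4
    rw [sub_sub_cancel] at h6
    have h7 := const_eq_zero _ h6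
    refine hπ _ h2 h3 ?_ h7
    rw [Ne, map_eq_zero]
    intro h0
    have h8 := ord_unif (P σ)
    rw [h0, (P σ).ord_zero] at h8
    omega
  -- the relation between the values
  obtain ⟨S, hSdef⟩ : ∃ S, S = T'.image P := ⟨_, rfl⟩
  have hcdef : ∃ c' : Place ℂ F → ℂ, ∀ σ (hσ : σ ∈ T'), c' (P σ) = π ⟨c σ, (h1 σ hσ).2.1⟩ := by
    refine ⟨fun Q => if h : ∃ σ ∈ T', P σ = Q then π ⟨c h.choose,
      (h1 _ h.choose_spec.1).2.1⟩ else 0, fun σ hσ => ?_⟩
    have h : ∃ τ ∈ T', P τ = P σ := ⟨σ, hσ, rfl⟩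
    simp only [dif_pos h]
    have h2 : h.choose = σ := hinj _ h.choose_spec.1 _ hσ h.choose_spec.2
    have h3 : ∀ (τ : F →ₐ[ℂ] Ω) (hτ : τ ∈ T'), τ = σ →
        π ⟨c τ, (h1 τ hτ).2.1⟩ = π ⟨c σ, (h1 σ hσ).2.1⟩ := by
      rintro τ hτ rfl
      rfl
    exact h3 _ h.choose_spec.1 h2
  obtain ⟨c', hc'⟩ := hcdef
  have hvals : ∀ Q : Place ℂ F, ∃ a : ℂ, Q ∈ S → Q.ord (x - algebraMap ℂ F a) = 1 := by
    intro Q
    by_cases hQ : Q ∈ S
    · rw [hSdef, Finset.mem_image] at hQ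
      obtain ⟨σ, hσ, rfl⟩ := hQ
      obtain ⟨h2, h3⟩ := hgood σ hσ
      obtain ⟨a, ha⟩ := exists_const (P σ) (f := x) (Or.inr h2.ge)
      refine ⟨a, fun _ => ?_⟩
      have h4 := ha.resolve_left (sub_const_ne hx a)
      have h5 := (ord_der (P σ) hD0 (f := x - algebraMap ℂ F a) (by omega)).2
      rw [map_sub, hD, Derivation.map_algebraMap, sub_zero, (P σ).ord_one, h3] at h5
      omega
    · exact ⟨0, fun h => absurd h hQ⟩
  choose a ha using hvals
  obtain ⟨G', hG1, hG2⟩ := dual hx hD S a ha c' (by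
    intro f hf hf0 v hv
    have hfH : f ∈ HH D := fun Q => Or.inr (hf Q)
    have hfA : ∀ σ ∈ T', σ f ∈ A := by
      intro σ hσ
      have h2 : (⟨f, hfH⟩ : HH D) ∈ (⊤ : Submodule ℂ (HH D)) := trivial
      rw [← b.span_eq] at h2
      have h3 : ∀ z : HH D, z ∈ Submodule.span ℂ (Set.range b) → σ (z : F) ∈ A := by
        intro z hz
        induction hz using Submodule.span_induction with
        | mem w hw =>
          obtain ⟨i, rfl⟩ := hw
          exact (h1 σ hσ).2.2.2.1 i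
        | zero => simp
        | add u v _ _ hu hv =>
          rw [Submodule.coe_add, map_add]
          exact add_mem hu hv
        | smul r u _ hu =>
          rw [Submodule.coe_smul, map_smul]
          exact A.smul_mem hu r
      exact h3 _ h2
    have hval : ∀ σ (hσ : σ ∈ T'), v (P σ) = π ⟨σ f, hfA σ hσ⟩ := by
      intro σ hσ
      have h2 := hv (P σ) (by rw [hSdef]; exact Finset.mem_image_of_mem _ hσ)
      have h3 := hP σ hσ f (hfA σ hσ)
      have h4 := h3.sub h2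
      have h5 : f - algebraMap ℂ F (π ⟨σ f, hfA σ hσ⟩) - (f - algebraMap ℂ F (v (P σ))) =
          algebraMap ℂ F (v (P σ) - π ⟨σ f, hfA σ hσ⟩) := by
        rw [map_sub]
        ring
      rw [h5] at h4
      exact sub_eq_zero.1 (const_eq_zero _ h4)
    rw [hSdef, Finset.sum_image fun σ hσ τ hτ h => hinj σ hσ τ hτ h]
    have h2 : ∑ σ ∈ T'.attach, (⟨c σ.1, (h1 σ.1 σ.2).2.1⟩ : A) * ⟨σ.1 f, hfA σ.1 σ.2⟩ = 0 := by
      apply Subtype.ext
      rw [AddSubmonoidClass.coe_finset_sum]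
      change ∑ σ ∈ T'.attach, c σ.1 * σ.1 f = 0
      rw [Finset.sum_attach T' (fun σ => c σ * σ f)]
      exact hrel' f hfH
    have h3 := congrArg π h2
    rw [map_sum, map_zero] at h3
    rw [← h3, ← Finset.sum_attach T']
    refine Finset.sum_congr rfl fun σ _ => ?_
    rw [map_mul, hc' σ.1 σ.2, hval σ.1 σ.2])
  -- the degree of the function
  have hc'0 : ∀ σ ∈ T', c' (P σ) ≠ 0 := by
    intro σ hσ
    rw [hc' σ hσ]
    exact hπ _ _ (h1 σ hσ).2.2.1 ((hT' σ).1 hσ).2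
  have hpole : ∀ Q ∈ S, Q.ord G' = -1 := by
    intro Q hQ
    apply hG1 Q hQ
    rw [hSdef, Finset.mem_image] at hQ
    obtain ⟨σ, hσ, rfl⟩ := hQ
    exact hc'0 σ hσ
  have hσ0' : σ0 ∈ T' := (hT' σ0).2 ⟨hσ0, hc0⟩
  have htr : Transcendental ℂ G' := by
    apply (P σ0).transcendental_of_ord_ne
    rw [hpole (P σ0) (by rw [hSdef]; exact Finset.mem_image_of_mem _ hσ0')]
    norm_num
  obtain ⟨S', hS1, hS2⟩ := poles (k := ℂ) htr
  have h2 : S' ⊆ S := by
    intro Q hQ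
    by_contra h
    have h3 := (hS1 Q).1 hQ
    rcases hG2 Q h with h4 | h4
    · rw [h4, Q.ord_zero] at h3
      omega
    · omega
  have h3 : Module.finrank ℂ⟮G'⟯ F ≤ S.card := by
    rw [← hS2]
    calc ∑ w ∈ S', (-w.ord G').toNat * w.deg = ∑ w ∈ S', 1 := by
          refine Finset.sum_congr rfl fun Q hQ => ?_
          rw [hpole Q (h2 hQ), deg_one]
          norm_num
      _ = S'.card := by simp
      _ ≤ S.card := Finset.card_le_card h2
  have h4 := hg G' htr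
  have h5 : S.card ≤ T.card := by
    rw [hSdef]
    refine Finset.card_image_le.trans (Finset.card_le_card ?_)
    rw [hT'def]
    exact Finset.filter_subset _ _
  omega

end

end Pool.Agent.N145.PC
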