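import Pool.Agent.N145.PC.Cst
import Pool.Agent.N145.PC.Main

/-!
Rational curves on varieties dominated by products of curves: the coordinates of large gonality are
constant.
-/

set_option autoImplicit false
set_option linter.overlappingInstances false
set_option linter.unusedSectionVars false
set_option linter.unusedVariables false
set_option maxHeartbeats 4000000
set_option synthInstance.maxHeartbeats 400000

open Polynomial FF IsDedekindDomain IntermediateField Module

namespace Pool.Agent.N145.PC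

open Pool.Agent.W603.LV Pool.Agent.W619.PQ

open scoped Classical

section

/-- degrees of composita -/
theorem adj_le {A0 A R Ω : Type} [Field A0] [Field A] [Field R] [Field Ω] [Algebra A0 A]
    [FiniteDimensional A0 A] [Algebra R Ω] (τ : A →+* Ω)
    (hτ : ∀ a : A0, τ (algebraMap A0 A a) ∈ Set.range (algebraMap R Ω)) :
    FiniteDimensional R (IntermediateField.adjoin R (Set.range τ)) ∧
      finrank R (IntermediateField.adjoin R (Set.range τ)) ≤ finrank A0 A := by
  choose ψ0 hψ0 using hτ
  have hinj := (algebraMap R Ω).injective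
  let ψ : A0 →+* R :=
    { toFun := ψ0
      map_one' := hinj (by rw [hψ0, map_one, map_one, map_one])
      map_mul' := fun a b => hinj (by rw [hψ0, map_mul, map_mul, map_mul, hψ0, hψ0])
      map_zero' := hinj (by rw [hψ0, map_zero, map_zero, map_zero])
      map_add' := fun a b => hinj (by rw [hψ0, map_add, map_add, map_add, hψ0, hψ0]) }
  let i1 : Algebra A0 R := ψ.toAlgebra
  let i2 : Algebra A0 Ω := ((algebraMap R Ω).comp ψ).toAlgebra
  have hT : IsScalarTower A0 R Ω := IsScalarTower.of_algebraMap_eq fun _ => rfl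
  let τ' : A →ₐ[A0] Ω := { τ with commutes' := fun a => (hψ0 a).symm }
  have h1 : (τ'.fieldRange : Set Ω) = Set.range τ := by
    ext y
    simp only [AlgHom.coe_fieldRange]
    rfl
  have hfinA : FiniteDimensional A0 τ'.fieldRange :=
    LinearEquiv.finiteDimensional (AlgEquiv.ofInjectiveField τ').toLinearEquiv
  have h2 := IntermediateField.adjoin_rank_le_of_isAlgebraic R τ'.fieldRange (Or.inr inferInstance)
  have h3 : finrank A0 τ'.fieldRange = finrank A0 A :=
    (LinearEquiv.finrank_eq (AlgEquiv.ofInjectiveField τ').toLinearEquiv).symm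
  rw [h1] at h2
  rw [← finrank_eq_rank A0 τ'.fieldRange, h3] at h2
  have hfin : FiniteDimensional R (IntermediateField.adjoin R (Set.range τ)) := by
    rw [FiniteDimensional, ← rank_lt_aleph0_iff]
    exact lt_of_le_of_lt h2 (Cardinal.natCast_lt_aleph0)
  refine ⟨hfin, ?_⟩
  rw [← finrank_eq_rank] at h2
  exact_mod_cast h2

end

section

variable {F Λ Ω : Type} [Field F] [Field Λ] [Field Ω] [Algebra ℂ F] [Algebra ℂ Λ]
  [Algebra Λ Ω] [Algebra ℂ Ω] [IsScalarTower ℂ Λ Ω]
  [IsFF ℂ F] [CharZero Λ] [IsAlgClosed Λ]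

/-- correspondences of small degree are constant, in an ambient field -/
theorem cst_amb {s : Ω} (hs : Transcendental Λ s) (φ : F →ₐ[ℂ] Ω) {g : ℕ}
    (hg : ∀ y : F, Transcendental ℂ y → g ≤ Module.finrank ℂ⟮y⟯ F)
    (hfin : FiniteDimensional Λ⟮s⟯ (IntermediateField.adjoin Λ⟮s⟯ (Set.range φ)))
    (hdeg : Module.finrank Λ⟮s⟯ (IntermediateField.adjoin Λ⟮s⟯ (Set.range φ)) < g) (z : F) :
    IsAlgebraic Λ (φ z) := by
  obtain ⟨E1, hE1⟩ : ∃ E1 : IntermediateField Λ Ω, E1 =
    (IntermediateField.adjoin Λ⟮s⟯ (Set.range φ)).restrictScalars Λ := ⟨_, rfl⟩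
  have hmemE : ∀ y : Ω, y ∈ E1 ↔ y ∈ IntermediateField.adjoin Λ⟮s⟯ (Set.range φ) := by
    intro y
    rw [hE1]
    rfl
  have hsE : s ∈ E1 := by
    rw [hE1]
    exact (IntermediateField.adjoin Λ⟮s⟯ (Set.range φ)).algebraMap_mem
      ⟨s, mem_adjoin_simple_self Λ s⟩
  have hφE : ∀ f, φ f ∈ E1 := fun f => by
    rw [hE1]
    exact IntermediateField.subset_adjoin _ _ ⟨f, rfl⟩
  let s1 : E1 := ⟨s, hsE⟩
  have hs1 : Transcendental Λ s1 := fun h => hs (h.algebraMap (A := Ω))
  let φ1 : F →ₐ[ℂ] E1 :=
    { toFun := fun f => ⟨φ f, hφE f⟩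
      map_one' := Subtype.ext (map_one φ)
      map_mul' := fun a b => Subtype.ext (map_mul φ a b)
      map_zero' := Subtype.ext (map_zero φ)
      map_add' := fun a b => Subtype.ext (map_add φ a b)
      commutes' := fun c => Subtype.ext (φ.commutes c) }
  let iA : Algebra F E1 := φ1.toRingHom.toAlgebra
  have hT1 : IsScalarTower ℂ F E1 := IsScalarTower.of_algebraMap_eq fun c =>
    Subtype.ext (φ.commutes c).symm
  have hT2 : IsScalarTower ℂ Λ E1 := IsScalarTower.of_algebraMap_eq fun c =>
    Subtype.ext (IsScalarTower.algebraMap_apply ℂ Λ Ω c)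
  -- the degrees
  have hlift : IntermediateField.lift Λ⟮s1⟯ = Λ⟮s⟯ := by
    rw [IntermediateField.lift_adjoin_simple]
  let e1 : Λ⟮s1⟯ ≃+* Λ⟮s⟯ :=
    ((IntermediateField.liftAlgEquiv Λ⟮s1⟯).toRingEquiv).trans
      (IntermediateField.equivOfEq hlift).toRingEquiv
  have he1 : ∀ x : Λ⟮s1⟯, ((e1 x : Λ⟮s⟯) : Ω) = ((x : E1) : Ω) := fun _ => rfl
  let e2 : E1 ≃+* (IntermediateField.adjoin Λ⟮s⟯ (Set.range φ)) :=
    { toFun := fun x => ⟨x, (hmemE _).1 x.2⟩
      invFun := fun x => ⟨x, (hmemE _).2 x.2⟩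
      left_inv := fun _ => rfl
      right_inv := fun _ => rfl
      map_mul' := fun _ _ => rfl
      map_add' := fun _ _ => rfl }
  have hcomm : (algebraMap Λ⟮s⟯ (IntermediateField.adjoin Λ⟮s⟯ (Set.range φ))).comp
      (e1 : Λ⟮s1⟯ →+* Λ⟮s⟯) = (e2 : E1 →+* _).comp (algebraMap Λ⟮s1⟯ E1) := by
    ext x
    exact he1 x
  have hfr : finrank Λ⟮s1⟯ E1 = finrank Λ⟮s⟯ (IntermediateField.adjoin Λ⟮s⟯ (Set.range φ)) :=
    Algebra.finrank_eq_of_equiv_equiv e1 e2 hcomm
  have hfin1 : FiniteDimensional Λ⟮s1⟯ E1 := by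
    refine FiniteDimensional.of_finrank_pos ?_
    rw [hfr]
    exact finrank_pos
  have hFF : IsFF Λ E1 := IsFF.of_finite hs1 hfin1
  have hgen : IntermediateField.adjoin Λ⟮s1⟯ (Set.range (algebraMap F E1)) = ⊤ := by
    rw [eq_top_iff]
    rintro x -
    have h1 : (x : Ω) ∈ IntermediateField.adjoin Λ⟮s⟯ (Set.range φ) := (hmemE _).1 x.2
    -- the subfield of the elements which are in the left side
    let T : IntermediateField Λ⟮s⟯ Ω :=
      { carrier := {y | ∃ h : y ∈ E1, (⟨y, h⟩ : E1) ∈
          IntermediateField.adjoin Λ⟮s1⟯ (Set.range (algebraMap F E1))}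
        mul_mem' := by
          rintro a b ⟨ha, ha'⟩ ⟨hb, hb'⟩
          exact ⟨mul_mem ha hb, mul_mem ha' hb'⟩
        add_mem' := by
          rintro a b ⟨ha, ha'⟩ ⟨hb, hb'⟩
          exact ⟨add_mem ha hb, add_mem ha' hb'⟩
        algebraMap_mem' := by
          intro r
          have h2 : algebraMap Λ⟮s⟯ Ω r ∈ E1 := by
            rw [hE1]
            exact (IntermediateField.adjoin Λ⟮s⟯ (Set.range φ)).algebraMap_mem r
          refine ⟨h2, ?_⟩
          have h3 : (⟨algebraMap Λ⟮s⟯ Ω r, h2⟩ : E1) = algebraMap Λ⟮s1⟯ E1 (e1.symm r) := by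
            apply Subtype.ext
            have h4 := he1 (e1.symm r)
            rw [RingEquiv.apply_symm_apply] at h4
            exact h4
          rw [h3]
          exact IntermediateField.algebraMap_mem _ _
        inv_mem' := by
          rintro a ⟨ha, ha'⟩
          exact ⟨inv_mem ha, inv_mem ha'⟩ }
    have h2 : IntermediateField.adjoin Λ⟮s⟯ (Set.range φ) ≤ T := by
      rw [IntermediateField.adjoin_le_iff]
      rintro _ ⟨f, rfl⟩
      exact ⟨hφE f, IntermediateField.subset_adjoin _ _ ⟨f, rfl⟩⟩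
    obtain ⟨h3, h4⟩ := h2 h1
    exact h4
  have h1 := cst (E := E1) hs1 hgen hg (by rw [hfr]; exact hdeg) z
  exact h1.algebraMap (A := Ω)

end

section

variable {K : Type} [Field K] [Algebra ℂ K] {n : ℕ} {F : Fin n → IntermediateField ℂ K}
  [∀ i, IsFF ℂ (F i)] {L : Type} [Field L] [Algebra ℂ L] [Algebra L K] [IsScalarTower ℂ L K]
  [FiniteDimensional L K]

/-- **The coordinates are constant on rational curves.** -/
theorem img_const (B : IntermediateField ℂ K) {s : AlgebraicClosure K}
    (hs : Transcendental (algebraicClosure B (AlgebraicClosure K)) s)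
    (hL : ∀ z : L, algebraMap K (AlgebraicClosure K) (algebraMap L K z) ∈
      IntermediateField.adjoin (algebraicClosure B (AlgebraicClosure K)) {s})
    {g : Fin n → ℕ} (hg : ∀ i, ∀ y : F i, Transcendental ℂ y → g i ≤ finrank ℂ⟮y⟯ (F i)) {m : ℕ}
    (hdeg : ∀ l : Fin n, l.val < m → finrank (MF F L (Js n l))
      (IntermediateField.adjoin (MF F L (Js n l)) (F l : Set K)) < g l) :
    ∀ τ : K →ₐ[L] AlgebraicClosure K, ∀ l : Fin n, l.val < m → ∀ z ∈ F l,
      τ z ∈ algebraicClosure B (AlgebraicClosure K) := by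
  obtain ⟨Ω, hΩ⟩ : ∃ Ω : Type, Ω = AlgebraicClosure K := ⟨_, rfl⟩
  let Λ := algebraicClosure B (AlgebraicClosure K)
  have hΛ : IsAlgClosed Λ := (algebraicClosure.isAlgClosure B (AlgebraicClosure K)).isAlgClosed
  have hB0 : CharZero B := charZero_of_injective_algebraMap (algebraMap ℂ B).injective
  have hΛ0 : CharZero Λ := charZero_of_injective_algebraMap (algebraMap B Λ).injective
  have hTΛ : IsScalarTower ℂ Λ (AlgebraicClosure K) := IsScalarTower.of_algebraMap_eq fun z => by
    rw [IsScalarTower.algebraMap_apply ℂ K (AlgebraicClosure K)]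
    rfl
  obtain ⟨R, hR⟩ : ∃ R, R = IntermediateField.adjoin Λ {s} := ⟨_, rfl⟩
  induction m with
  | zero => exact fun τ l hl => absurd hl (Nat.not_lt_zero _)
  | succ m ih =>
    have ih' := ih fun l hl => hdeg l (by omega)
    intro τ l hl z hz
    by_cases hlm : l.val < m
    · exact ih' τ l hlm z hz
    have hlm' : l.val = m := by omega
    -- the coordinates before
    let T : IntermediateField L K :=
      { carrier := {y | τ y ∈ IntermediateField.adjoin Λ {s}}
        mul_mem' := fun {a b} ha hb => by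
          change τ (a * b) ∈ IntermediateField.adjoin Λ {s}
          rw [map_mul]
          exact mul_mem ha hb
        add_mem' := fun {a b} ha hb => by
          change τ (a + b) ∈ IntermediateField.adjoin Λ {s}
          rw [map_add]
          exact add_mem ha hb
        algebraMap_mem' := fun y => by
          change τ (algebraMap L K y) ∈ IntermediateField.adjoin Λ {s}
          rw [AlgHom.commutes, IsScalarTower.algebraMap_apply L K (AlgebraicClosure K)]
          exact hL y
        inv_mem' := fun a ha => by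
          change τ a⁻¹ ∈ IntermediateField.adjoin Λ {s}
          rw [map_inv₀]
          exact inv_mem ha }
    have hT : MF F L (Js n l) ≤ T := by
      unfold MF MJ
      rw [IntermediateField.adjoin_le_iff]
      intro y hy
      simp only [Set.mem_iUnion] at hy
      obtain ⟨i, hi, w, rfl⟩ := hy
      rw [mem_Js] at hi
      have h1 := ih' τ i (by omega) _ w.2
      exact (IntermediateField.adjoin Λ {s}).algebraMap_mem ⟨_, h1⟩
    obtain ⟨A, hA⟩ : ∃ A, A = IntermediateField.adjoin (MF F L (Js n l)) (F l : Set K) := ⟨_, rfl⟩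
    have hd := hdeg l hl
    rw [← hA] at hd
    obtain ⟨hf1, hf2⟩ := adj_le (A0 := MF F L (Js n l)) (A := A) (R := Λ⟮s⟯)
      ((τ : K →+* AlgebraicClosure K).comp (algebraMap A K)) (fun a => ⟨⟨τ a, hT a.2⟩, rfl⟩)
    let φ : F l →ₐ[ℂ] AlgebraicClosure K := (τ.restrictScalars ℂ).comp (F l).val
    have hle : IntermediateField.adjoin Λ⟮s⟯ (Set.range φ) ≤ IntermediateField.adjoin Λ⟮s⟯
        (Set.range ((τ : K →+* AlgebraicClosure K).comp (algebraMap A K))) := by
      apply IntermediateField.adjoin.mono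
      rintro _ ⟨w, rfl⟩
      exact ⟨⟨(w : K), by rw [hA]; exact IntermediateField.subset_adjoin _ _ w.2⟩, rfl⟩
    have hfin : FiniteDimensional Λ⟮s⟯ (IntermediateField.adjoin Λ⟮s⟯ (Set.range φ)) :=
      FiniteDimensional.of_injective (IntermediateField.inclusion hle).toLinearMap
        (IntermediateField.inclusion hle).injective
    have hfr : finrank Λ⟮s⟯ (IntermediateField.adjoin Λ⟮s⟯ (Set.range φ)) ≤
        finrank Λ⟮s⟯ (IntermediateField.adjoin Λ⟮s⟯
          (Set.range ((τ : K →+* AlgebraicClosure K).comp (algebraMap A K)))) :=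
      IntermediateField.finrank_le_of_le_right hle
    have h1 := cst_amb (Λ := Λ) hs φ (hg l) hfin (by omega) ⟨z, hz⟩
    have h2 : IsAlgebraic B (τ z) := h1.restrictScalars B
    exact mem_algebraicClosure_iff.2 h2

/-- conjugates which are algebraic over `B` -/
theorem alg_of_const (B : IntermediateField ℂ K) (hcl : ∀ z : K, IsAlgebraic B z → z ∈ B) {z : K}
    (hz : ∀ τ : K →ₐ[L] AlgebraicClosure K, τ z ∈ algebraicClosure B (AlgebraicClosure K)) :
    IsAlgebraic (B.comap (IsScalarTower.toAlgHom ℂ L K)) z := by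
  obtain ⟨p, hp⟩ : ∃ p, p = minpoly L z := ⟨_, rfl⟩
  have hint : IsIntegral L z := Algebra.IsIntegral.isIntegral z
  have hmon : p.Monic := by
    rw [hp]
    exact minpoly.monic hint
  have hroots := Algebra.IsAlgebraic.range_eval_eq_rootSet_minpoly (F := L)
    (A := AlgebraicClosure K) z
  have hsp : (p.map (algebraMap L (AlgebraicClosure K))).Splits :=
    IsAlgClosed.splits _
  have hmem : p.map (algebraMap L (AlgebraicClosure K)) ∈
      Polynomial.lifts (algebraMap (algebraicClosure B (AlgebraicClosure K))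
        (AlgebraicClosure K)) := by
    refine hsp.mem_lift_of_roots_mem_range (hmon.map _) _ fun a ha => ?_
    have h1 : a ∈ (minpoly L z).rootSet (AlgebraicClosure K) := by
      rw [Polynomial.rootSet, ← hp]
      simpa [Polynomial.aroots] using ha
    rw [← hroots] at h1
    obtain ⟨τ, hτ⟩ := h1
    exact ⟨⟨τ z, hz τ⟩, hτ⟩
  have hcoef : ∀ i, p.coeff i ∈ B.comap (IsScalarTower.toAlgHom ℂ L K) := by
    intro i
    rw [Polynomial.lifts_iff_coeff_lifts] at hmem
    obtain ⟨c, hc⟩ := hmem i
    rw [Polynomial.coeff_map] at hc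
    have h1 : IsAlgebraic B (algebraMap K (AlgebraicClosure K) (algebraMap L K (p.coeff i))) := by
      rw [← IsScalarTower.algebraMap_apply L K (AlgebraicClosure K), ← hc]
      exact mem_algebraicClosure_iff.1 c.2
    have h2 : IsAlgebraic B (algebraMap L K (p.coeff i)) :=
      (isAlgebraic_algebraMap_iff (algebraMap K (AlgebraicClosure K)).injective).1 h1
    exact hcl _ h2
  have hlift : p ∈ Polynomial.lifts (algebraMap (B.comap (IsScalarTower.toAlgHom ℂ L K)) L) := by
    rw [Polynomial.lifts_iff_coeff_lifts]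
    intro i
    exact ⟨⟨_, hcoef i⟩, rfl⟩
  obtain ⟨q, hq⟩ := hlift
  have hq' : q.map (algebraMap (B.comap (IsScalarTower.toAlgHom ℂ L K)) L) = p := hq
  refine ⟨q, ?_, ?_⟩
  · rintro rfl
    rw [Polynomial.map_zero] at hq'
    exact hmon.ne_zero hq'.symm
  · have h1 : Polynomial.aeval z p = 0 := by
      rw [hp]
      exact minpoly.aeval L z
    rw [← hq', Polynomial.aeval_map_algebraMap] at h1
    exact h1

end

end Pool.Agent.N145.PC
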