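import Pool.Agent.N145.PC.Str1
import Pool.Agent.N145.PC.Geo
import Pool.Agent.N145.PC.GT

/-!
The structure of the varieties dominated by products of curves, all except one of large gonality.
-/

set_option autoImplicit false
set_option linter.overlappingInstances false
set_option linter.unusedSectionVars false
set_option linter.unusedVariables false
set_option maxHeartbeats 4000000
set_option synthInstance.maxHeartbeats 400000

open Polynomial FF IsDedekindDomain IntermediateField Module

namespace Pool.Agent.N145.PC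

open Pool.Agent.W603.LV Pool.Agent.W619.PQ
open Pool.Agent.W602.GT (Divisorial RegAt IsPluri DerReg KodGe LogSec)
open Pool.Agent.R882.GL (SpanFib)
open Pool.Agent.R882.LT (TraceNe)

open scoped Classical

section

variable {K : Type} [Field K] [Algebra ℂ K] {n : ℕ}
  {L : Type} [Field L] [Algebra ℂ L] [Algebra L K] [IsScalarTower ℂ L K]
  [FiniteDimensional L K]

/-- the trace relation over the image in the product with all factors except one: the rational
parametrization -/
theorem geo_erase {F : Fin (n + 1) → IntermediateField ℂ K} [∀ i, IsFF ℂ (F i)]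
    [hess : Algebra.EssFiniteType ℂ K] (hsup : ⨆ i, F i = ⊤)
    (hK : Algebra.trdeg ℂ K = (n + 1 : ℕ)) {x : ∀ i, F i} (hx : ∀ i, Transcendental ℂ (x i))
    {D0 : ∀ i, Derivation ℂ (F i) (F i)} (hD0 : ∀ i, D0 i (x i) = 1) {f0 : ∀ i, F i}
    (hf0 : ∀ i, f0 i ≠ 0) (hf0' : ∀ i, f0 i ∈ HH (D0 i)) {h : K}
    (hval : ∀ (M : IntermediateField L K) (f : ∀ i, F i) (D : Fin (n + 1) → Derivation ℂ M M)
        (D' : Fin (n + 1) → Derivation ℂ K K),
        (∀ i g, D' i (algebraMap M K g) = algebraMap M K (D i g)) →
        ∃ a : M, extForm 1 D0 x f D' = algebraMap M K a * (h * ∏ i, algebraMap (F i) K (f i)))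
    (i0 : Fin (n + 1)) (h2 : ∀ f : ∀ i, F i, f i0 ∈ HH (D0 i0) →
      Algebra.trace (MF F L (Finset.univ.erase i0)) K (h * ∏ i, algebraMap (F i) K (f i)) = 0) :
    ∃ s : AlgebraicClosure K,
      Transcendental (algebraicClosure (BB' F i0) (AlgebraicClosure K)) s ∧
      ∀ z : L, algebraMap K (AlgebraicClosure K) (algebraMap L K z) ∈
        IntermediateField.adjoin (algebraicClosure (BB' F i0) (AlgebraicClosure K)) {s} := by
  have hD0' : ∀ i, D0 i ≠ 0 := by
    intro i h
    have := hD0 i
    rw [h] at this
    simp at this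
  have halg := Pool.Agent.W619.X.alg_of_sup F hsup
  -- the image in the product with the other factors
  obtain ⟨M, hM⟩ : ∃ M, M = MF F L (Finset.univ.erase i0) := ⟨_, rfl⟩
  have hle : BB' F i0 ≤ M.restrictScalars ℂ := by
    refine iSup_le fun j y hy => ?_
    rw [mem_restrictScalars, hM]
    exact mem_MJ (E := fun i => F i) _ (Finset.mem_erase.2 ⟨j.2, Finset.mem_univ _⟩) ⟨y, hy⟩
  obtain ⟨E', hE'⟩ : ∃ E' : IntermediateField (BB' F i0) K,
      E' = IntermediateField.extendScalars hle := ⟨_, rfl⟩
  have hE'r : E'.restrictScalars ℂ = M.restrictScalars ℂ := by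
    rw [hE']
    exact IntermediateField.extendScalars_restrictScalars hle
  have hfinE : FiniteDimensional E' K := by
    have h1 : FiniteDimensional M K := inferInstance
    rw [hE']
    exact h1
  have hfin := HH_finite (hD0' i0)
  obtain ⟨b, hb'⟩ : ∃ b, b = Module.finBasis ℂ (HH (D0 i0)) := ⟨_, rfl⟩
  have hspan : Submodule.span ℂ (Set.range fun j => (b j : F i0)) = HH (D0 i0) := by
    have h3 : (Set.range fun j => (b j : F i0)) = (HH (D0 i0)).subtype '' Set.range b := by
      rw [← Set.range_comp]
      rfl
    rw [h3, Submodule.span_image, b.span_eq, Submodule.map_subtype_top]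
  have hS := span_prod hsup hK i0 hx hD0 (fun j => (b j : F i0)) hspan f0 (fun i _ => hf0 i)
  obtain ⟨s, hs, hs'⟩ := dich2 hK (BB' F i0) (trdeg_BB' F halg hK i0)
    (closed_BB' hsup hK i0) E' _ (fun j => prod_pluri x D0 _)
    (fun j P _ => prod_regular hx hD0 (by
      intro i
      by_cases hi : i = i0
      · subst hi
        rw [Function.update_self]
        exact (b j).2
      · rw [Function.update_of_ne hi]
        exact hf0' i) P) hS (by
      intro j
      rw [hE'r]
      rintro ⟨D, D', hDD, hne⟩
      obtain ⟨a, ha⟩ := hval M (Function.update f0 i0 (b j)) D D' hDD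
      have h7 : Algebra.trace M K (h * ∏ i, algebraMap (F i) K
          (Function.update f0 i0 (b j : F i0) i)) = 0 := by
        subst hM
        exact h2 _ (by rw [Function.update_self]; exact (b j).2)
      have h8 : Algebra.trace M K (extForm 1 D0 x (Function.update f0 i0 (b j)) D') = 0 := by
        rw [ha, ← Algebra.smul_def, map_smul, h7, smul_zero]
      exact hne h8)
  refine ⟨s, hs, fun z => hs' _ ?_⟩
  have h4 : algebraMap L K z ∈ E'.restrictScalars ℂ := by
    rw [hE'r]
    exact M.algebraMap_mem z
  exact h4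

/-- a rational factor: the rational parametrization -/
theorem geo_rat {F : Fin (n + 1) → IntermediateField ℂ K} [∀ i, IsFF ℂ (F i)]
    (hsup : ⨆ i, F i = ⊤) (hK : Algebra.trdeg ℂ K = (n + 1 : ℕ)) {i0 : Fin (n + 1)}
    (hrat : ∃ t : F i0, ℂ⟮t⟯ = ⊤) :
    ∃ s : AlgebraicClosure K,
      Transcendental (algebraicClosure (BB' F i0) (AlgebraicClosure K)) s ∧
      ∀ z : L, algebraMap K (AlgebraicClosure K) (algebraMap L K z) ∈
        IntermediateField.adjoin (algebraicClosure (BB' F i0) (AlgebraicClosure K)) {s} := by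
  obtain ⟨t, ht⟩ := hrat
  have halg := Pool.Agent.W619.X.alg_of_sup F hsup
  have htt : Transcendental ℂ t := by
    obtain ⟨x, hx⟩ := IsFF.exists_transcendental (k := ℂ) (K := F i0)
    intro h
    apply hx
    have h1 : Algebra.IsAlgebraic ℂ ℂ⟮t⟯ :=
      IntermediateField.isAlgebraic_adjoin_simple h.isIntegral
    have h2 : x ∈ ℂ⟮t⟯ := by
      rw [ht]
      trivial
    have h3 := h1.isAlgebraic ⟨x, h2⟩
    exact h3.algebraMap (A := F i0)
  have h1 := not_alg F halg hK i0 htt
  refine ⟨algebraMap K (AlgebraicClosure K) (t : K), ?_, ?_⟩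
  · intro h
    apply h1
    have h2 : IsAlgebraic (BB' F i0) (algebraMap K (AlgebraicClosure K) (t : K)) :=
      h.restrictScalars (BB' F i0)
    exact (isAlgebraic_algebraMap_iff (algebraMap K (AlgebraicClosure K)).injective).1 h2
  · obtain ⟨Λ, hΛ⟩ : ∃ Λ, Λ = algebraicClosure (BB' F i0) (AlgebraicClosure K) := ⟨_, rfl⟩
    rw [← hΛ]
    let T : IntermediateField (BB' F i0) K :=
      { carrier := {y | algebraMap K (AlgebraicClosure K) y ∈
          IntermediateField.adjoin Λ {algebraMap K (AlgebraicClosure K) (t : K)}}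
        mul_mem' := fun {a b} ha hb => by
          change algebraMap K (AlgebraicClosure K) (a * b) ∈
            IntermediateField.adjoin Λ {algebraMap K (AlgebraicClosure K) (t : K)}
          rw [map_mul]
          exact mul_mem ha hb
        add_mem' := fun {a b} ha hb => by
          change algebraMap K (AlgebraicClosure K) (a + b) ∈
            IntermediateField.adjoin Λ {algebraMap K (AlgebraicClosure K) (t : K)}
          rw [map_add]
          exact add_mem ha hb
        algebraMap_mem' := fun y => by
          have h2 : algebraMap K (AlgebraicClosure K) (algebraMap (BB' F i0) K y) ∈ Λ := by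
            rw [hΛ]
            exact (algebraicClosure (BB' F i0) (AlgebraicClosure K)).algebraMap_mem y
          exact (IntermediateField.adjoin Λ {algebraMap K (AlgebraicClosure K)
            (t : K)}).algebraMap_mem ⟨_, h2⟩
        inv_mem' := fun a ha => by
          change algebraMap K (AlgebraicClosure K) a⁻¹ ∈
            IntermediateField.adjoin Λ {algebraMap K (AlgebraicClosure K) (t : K)}
          rw [map_inv₀]
          exact inv_mem ha }
    have hT : (T : Set K) = Set.univ := by
      have h2 : IntermediateField.adjoin (BB' F i0) (F i0 : Set K) ≤ T := by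
        rw [IntermediateField.adjoin_le_iff]
        intro y hy
        have h3 : (⟨y, hy⟩ : F i0) ∈ ℂ⟮t⟯ := by
          rw [ht]
          trivial
        have h4 : ℂ⟮t⟯ ≤ (T.restrictScalars ℂ).comap (F i0).val := by
          rw [IntermediateField.adjoin_le_iff]
          rintro _ rfl
          exact IntermediateField.subset_adjoin Λ _ rfl
        exact h4 h3
      rw [gen_BB' hsup i0] at h2
      ext y
      simp only [Set.mem_univ, iff_true]
      exact h2 (IntermediateField.mem_top (x := y))
    intro z
    have h2 : algebraMap L K z ∈ (T : Set K) := by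
      rw [hT]
      trivial
    exact h2

end

section

theorem gon_equiv {A A' : Type} [Field A] [Field A'] [Algebra ℂ A] [Algebra ℂ A']
    (e : A ≃ₐ[ℂ] A') {g : ℕ} (hg : ∀ y : A', Transcendental ℂ y → g ≤ finrank ℂ⟮y⟯ A') (y : A)
    (hy : Transcendental ℂ y) : g ≤ finrank ℂ⟮y⟯ A := by
  have h1 : Transcendental ℂ (e y) := by
    intro h
    apply hy
    have h2 := h.algHom (e.symm : A' →ₐ[ℂ] A)
    simpa using h2
  have h2 := hg (e y) h1
  have hmap : (ℂ⟮y⟯).map (e : A →ₐ[ℂ] A') = ℂ⟮e y⟯ := by
    rw [IntermediateField.adjoin_map, Set.image_singleton]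
    rfl
  let e1 : ℂ⟮y⟯ ≃+* ℂ⟮e y⟯ :=
    ((ℂ⟮y⟯).equivMap (e : A →ₐ[ℂ] A')).toRingEquiv.trans
      (IntermediateField.equivOfEq hmap).toRingEquiv
  have h3 : finrank ℂ⟮y⟯ A = finrank ℂ⟮e y⟯ A' :=
    Algebra.finrank_eq_of_equiv_equiv e1 e.toRingEquiv (by ext; rfl)
  omega

end

end Pool.Agent.N145.PC
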