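import Pool.Agent.N145.PC.Str2
import Pool.Agent.R882.GLa

/-!
The structure of the varieties dominated by products of curves, all except one of large gonality:
the base of the conic bundle.
-/

set_option autoImplicit false
set_option linter.overlappingInstances false
set_option linter.unusedSectionVars false
set_option linter.unusedVariables false
set_option maxHeartbeats 4000000
set_option synthInstance.maxHeartbeats 400000

open Polynomial FF IsDedekindDomain IntermediateField Module

namespace Pool.Agent.N145.PC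

open Pool.Agent.W603.LV Pool.Agent.W619.PQ
open Pool.Agent.W602.GT (Divisorial RegAt IsPluri DerReg KodGe LogSec)

open scoped Classical

section

variable {N L A K : Type} [Field N] [Field L] [Field A] [Field K] [Algebra N L] [Algebra N A]
  [Algebra L K] [Algebra A K] [Algebra N K] [IsScalarTower N L K] [IsScalarTower N A K]
  [CharZero N] [FiniteDimensional N A] [FiniteDimensional L K]

/-- degrees over an algebraically closed subfield -/
theorem finrank_le_of_disj (hcl : ∀ x : L, IsIntegral N x → ∃ y : N, algebraMap N L y = x)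
    (M : IntermediateField L K) (hM : ∀ a : A, algebraMap A K a ∈ M) :
    finrank N A ≤ finrank L M := by
  have halg : Algebra.IsAlgebraic N A := inferInstance
  let b := Module.finBasis N A
  have h1 := Pool.Agent.R882.GL.lin_disj' (B := N) (K := L) (Λ := A) (F := K) hcl
    b.linearIndependent
  have h2 : LinearIndependent L (fun i => (⟨algebraMap A K (b i), hM (b i)⟩ : M)) := by
    refine LinearIndependent.of_comp M.val.toLinearMap ?_
    exact h1
  have h3 := h2.fintype_card_le_finrank
  simpa using h3

end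

section

variable {K : Type} [Field K] [Algebra ℂ K] {n : ℕ}
  {L : Type} [Field L] [Algebra ℂ L] [Algebra L K] [IsScalarTower ℂ L K]
  [FiniteDimensional L K]

/-- the embedding of the constants -/
def toB (B : IntermediateField ℂ K) : B.comap (IsScalarTower.toAlgHom ℂ L K) →ₐ[ℂ] B where
  toFun z := ⟨algebraMap L K z, z.2⟩
  map_one' := Subtype.ext (map_one _)
  map_mul' a b := Subtype.ext (map_mul _ _ _)
  map_zero' := Subtype.ext (map_zero _)
  map_add' a b := Subtype.ext (map_add _ _ _)
  commutes' c := Subtype.ext (IsScalarTower.algebraMap_apply ℂ L K c).symm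

/-- the constants are algebraically closed -/
theorem closed_comap (B : IntermediateField ℂ K) (hcl : ∀ z : K, IsAlgebraic B z → z ∈ B) {z : L}
    (hz : IsAlgebraic (B.comap (IsScalarTower.toAlgHom ℂ L K)) z) :
    z ∈ B.comap (IsScalarTower.toAlgHom ℂ L K) := by
  apply hcl
  obtain ⟨p, hp0, hp⟩ := hz
  refine ⟨p.map (toB (L := L) B : _ →+* B),
    (Polynomial.map_ne_zero_iff (toB (L := L) B).injective).2 hp0, ?_⟩
  have h1 := congrArg (algebraMap L K) hp
  rw [map_zero, Polynomial.aeval_def, Polynomial.hom_eval₂] at h1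
  rw [Polynomial.aeval_def, Polynomial.eval₂_map]
  exact h1

/-- an embedding in the rational functions -/
theorem to_ratfunc (B : IntermediateField ℂ K) {s : AlgebraicClosure K}
    (hs : Transcendental (algebraicClosure B (AlgebraicClosure K)) s)
    (hL : ∀ z : L, algebraMap K (AlgebraicClosure K) (algebraMap L K z) ∈
      IntermediateField.adjoin (algebraicClosure B (AlgebraicClosure K)) {s})
    (halg : ∀ z ∈ B, IsAlgebraic (B.comap (IsScalarTower.toAlgHom ℂ L K)) z) :
    ∃ (M : Type) (_ : Field M) (_ : Algebra (B.comap (IsScalarTower.toAlgHom ℂ L K)) M),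
      Algebra.IsAlgebraic (B.comap (IsScalarTower.toAlgHom ℂ L K)) M ∧
      Nonempty (L →ₐ[B.comap (IsScalarTower.toAlgHom ℂ L K)] RatFunc M) := by
  obtain ⟨N, hN⟩ : ∃ N, N = B.comap (IsScalarTower.toAlgHom ℂ L K) := ⟨_, rfl⟩
  let ι : B.comap (IsScalarTower.toAlgHom ℂ L K) →+* B := (toB (L := L) B : _ →+* B)
  let iB : Algebra (B.comap (IsScalarTower.toAlgHom ℂ L K)) B := ι.toAlgebra
  have hBK : IsScalarTower (B.comap (IsScalarTower.toAlgHom ℂ L K)) B K :=
    IsScalarTower.of_algebraMap_eq fun _ => rfl
  have hBalg : Algebra.IsAlgebraic (B.comap (IsScalarTower.toAlgHom ℂ L K)) B := by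
    constructor
    intro b
    exact (isAlgebraic_algebraMap_iff (R := B.comap (IsScalarTower.toAlgHom ℂ L K))
      (algebraMap B K).injective).1 (halg _ b.2)
  let iΛ : Algebra (B.comap (IsScalarTower.toAlgHom ℂ L K))
      (algebraicClosure B (AlgebraicClosure K)) :=
    ((algebraMap B (algebraicClosure B (AlgebraicClosure K))).comp ι).toAlgebra
  have hT : IsScalarTower (B.comap (IsScalarTower.toAlgHom ℂ L K)) B
      (algebraicClosure B (AlgebraicClosure K)) := IsScalarTower.of_algebraMap_eq fun _ => rfl
  have hΛalg : Algebra.IsAlgebraic (B.comap (IsScalarTower.toAlgHom ℂ L K))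
      (algebraicClosure B (AlgebraicClosure K)) :=
    Algebra.IsAlgebraic.trans (B.comap (IsScalarTower.toAlgHom ℂ L K)) B
      (algebraicClosure B (AlgebraicClosure K))
  refine ⟨algebraicClosure B (AlgebraicClosure K), inferInstance, iΛ, hΛalg, ⟨?_⟩⟩
  let e := RatFunc.algEquivOfTranscendental s hs
  let ψ : L →+* IntermediateField.adjoin (algebraicClosure B (AlgebraicClosure K)) {s} :=
    { toFun := fun z => ⟨_, hL z⟩
      map_one' := Subtype.ext (by simp)
      map_mul' := fun a b => Subtype.ext (by simp)
      map_zero' := Subtype.ext (by simp)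
      map_add' := fun a b => Subtype.ext (by simp) }
  exact
    { (e.symm : _ →+* RatFunc (algebraicClosure B (AlgebraicClosure K))).comp ψ with
      commutes' := fun c => by
        change e.symm (ψ (algebraMap _ L c)) = _
        have h1 : ψ (algebraMap (B.comap (IsScalarTower.toAlgHom ℂ L K)) L c) =
            algebraMap (algebraicClosure B (AlgebraicClosure K)) _ (algebraMap _ _ c) := rfl
        rw [h1, AlgEquiv.commutes]
        rfl }

/-- **The base is of general type.** -/
theorem base_general [hess : Algebra.EssFiniteType ℂ K] {F : Fin (n + 1) → IntermediateField ℂ K}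
    [∀ i, IsFF ℂ (F i)] (hsup : ⨆ i, F i = ⊤)
    (hK : Algebra.trdeg ℂ K = (n + 1 : ℕ)) {g : Fin (n + 1) → ℕ}
    (hg : ∀ i, ∀ y : F i, Transcendental ℂ y → g i ≤ finrank ℂ⟮y⟯ (F i))
    (hdeg : ∀ l : Fin (n + 1), l.val < n → 2 * finrank (MF F L (Js _ l))
      (IntermediateField.adjoin (MF F L (Js _ l)) (F l : Set K)) < g l)
    (halg : ∀ l : Fin (n + 1), l.val < n → ∀ z ∈ F l,
      IsAlgebraic ((BB' F (Fin.last n)).comap (IsScalarTower.toAlgHom ℂ L K)) z) :
    (∀ z ∈ BB' F (Fin.last n),
      IsAlgebraic ((BB' F (Fin.last n)).comap (IsScalarTower.toAlgHom ℂ L K)) z) ∧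
    Algebra.trdeg ℂ ((BB' F (Fin.last n)).comap (IsScalarTower.toAlgHom ℂ L K)) = n ∧
    KodGe ℂ ((BB' F (Fin.last n)).comap (IsScalarTower.toAlgHom ℂ L K)) n (fun _ => False) n := by
  have halgK := Pool.Agent.W619.X.alg_of_sup F hsup
  have hcl := closed_BB' hsup hK (Fin.last n)
  have hBtr := trdeg_BB' F halgK hK (Fin.last n)
  have hBle : ∀ l : Fin n, F l.castSucc ≤ BB' F (Fin.last n) := fun l =>
    le_BB' F (Fin.castSucc_lt_last l).ne
  have hBsup : BB' F (Fin.last n) = ⨆ l : Fin n, F l.castSucc := by
    refine le_antisymm (iSup_le fun j => ?_) (iSup_le hBle)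
    obtain ⟨j, hj⟩ := j
    obtain ⟨l, rfl⟩ := Fin.exists_castSucc_eq.2 hj
    exact le_iSup (fun l : Fin n => F l.castSucc) l
  obtain ⟨B, hB⟩ : ∃ B, B = BB' F (Fin.last n) := ⟨_, rfl⟩
  rw [← hB] at hcl hBtr hBle hBsup halg ⊢
  have hBess : Algebra.EssFiniteType ℂ B := by
    rw [IntermediateField.essFiniteType_iff, hBsup]
    exact IntermediateField.fg_iSup fun l => IntermediateField.essFiniteType_iff.1 IsFF.ess
  have hfirst : ∀ z ∈ B, IsAlgebraic (B.comap (IsScalarTower.toAlgHom ℂ L K)) z := by
    have h1 : B ≤ (algebraicClosure (B.comap (IsScalarTower.toAlgHom ℂ L K))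
        K).restrictScalars ℂ := by
      conv_lhs => rw [hBsup]
      refine iSup_le fun l z hz => ?_
      rw [mem_restrictScalars, mem_algebraicClosure_iff]
      exact halg l.castSucc l.2 z hz
    intro z hz
    exact mem_algebraicClosure_iff.1 (h1 hz)
  obtain ⟨N, hN⟩ : ∃ N, N = B.comap (IsScalarTower.toAlgHom ℂ L K) := ⟨_, rfl⟩
  have hclN : ∀ z : L, IsAlgebraic N z → z ∈ N := by
    intro z hz
    subst hN
    exact closed_comap B hcl hz
  have hNB' : ∀ z ∈ N, algebraMap L K z ∈ B := by
    intro z hz
    rw [hN] at hz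
    exact hz
  have hNB : ∀ z : N, algebraMap L K z ∈ B := fun z => hNB' z z.2
  rw [← hN] at hfirst ⊢
  -- the extension `B` of `N`
  let iB : Algebra N B := (RingHom.mk ⟨⟨fun z => ⟨algebraMap L K z, hNB z⟩,
    Subtype.ext (map_one (algebraMap L K))⟩, fun a b => Subtype.ext (map_mul (algebraMap L K) _ _)⟩
    (Subtype.ext (map_zero (algebraMap L K))) (fun a b => Subtype.ext (map_add (algebraMap L K) _ _))
    : N →+* B).toAlgebra
  have hBK : IsScalarTower N B K := IsScalarTower.of_algebraMap_eq fun _ => rfl
  have hCB : IsScalarTower ℂ N B := IsScalarTower.of_algebraMap_eq fun c =>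
    Subtype.ext (IsScalarTower.algebraMap_apply ℂ L K c)
  have hBalg : Algebra.IsAlgebraic N B := by
    constructor
    intro b
    exact (isAlgebraic_algebraMap_iff (R := N) (algebraMap B K).injective).1 (hfirst _ b.2)
  have hBess' : Algebra.EssFiniteType N B := Algebra.EssFiniteType.of_comp ℂ N B
  have hBfin : FiniteDimensional N B := Algebra.finite_of_essFiniteType_of_isAlgebraic
  have hNtr : Algebra.trdeg ℂ N = n := Pool.Agent.Y184.NT.trdeg_below (K := B) hBtr
  refine ⟨hfirst, hNtr, ?_⟩
  -- the curves in `B`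
  obtain ⟨F', hF'⟩ : ∃ F' : Fin n → IntermediateField ℂ B,
    F' = fun l => (F l.castSucc).comap B.val := ⟨_, rfl⟩
  have hmemF' : ∀ l (z : B), z ∈ F' l ↔ (z : K) ∈ F l.castSucc := by
    intro l z
    rw [hF']
    rfl
  have he : ∀ l, Nonempty (F' l ≃ₐ[ℂ] F l.castSucc) := fun l => ⟨
    { toFun := fun z => ⟨(z : B), (hmemF' l _).1 z.2⟩
      invFun := fun w => ⟨⟨w, hBle l w.2⟩, (hmemF' l _).2 w.2⟩
      left_inv := fun _ => rfl
      right_inv := fun _ => rfl
      map_mul' := fun _ _ => rfl
      map_add' := fun _ _ => rfl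
      commutes' := fun _ => rfl }⟩
  have hFF' : ∀ l, IsFF ℂ (F' l) := by
    intro l
    obtain ⟨e⟩ := he l
    refine ⟨?_, ?_⟩
    · have h1 : Algebra.EssFiniteType ℂ (F l.castSucc) := IsFF.ess
      exact Algebra.EssFiniteType.of_surjective e.symm.toAlgHom e.symm.surjective
    · rw [e.trdeg_eq]
      exact IsFF.trdeg
  have hsup' : ⨆ l, F' l = ⊤ := by
    apply IntermediateField.map_injective B.val
    rw [IntermediateField.map_iSup, ← AlgHom.fieldRange_eq_map, IntermediateField.fieldRange_val]
    refine Eq.trans ?_ hBsup.symm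
    congr 1
    funext l
    ext z
    constructor
    · rintro ⟨w, hw, rfl⟩
      exact (hmemF' l w).1 hw
    · intro hz
      exact ⟨⟨z, hBle l hz⟩, (hmemF' l _).2 hz, rfl⟩
  have halg' := Pool.Agent.W619.X.alg_of_sup F' hsup'
  refine general_type (F := F') (L := N) (g := fun l => g l.castSucc) halg' hBtr
    (fun l y hy => ?_) (fun l => ?_)
  · obtain ⟨e⟩ := he l
    exact gon_equiv e (hg l.castSucc) y hy
  · -- the degrees
    have hd := hdeg l.castSucc l.2
    obtain ⟨A0, hA0⟩ : ∃ A0, A0 = MF F' N (Js n l) := ⟨_, rfl⟩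
    obtain ⟨LA0, hLA0⟩ : ∃ LA0, LA0 = MF F L (Js (n + 1) (l.castSucc).val) := ⟨_, rfl⟩
    rw [← hA0]
    rw [← hLA0] at hd
    obtain ⟨A, hA⟩ : ∃ A : IntermediateField A0 B, A = IntermediateField.adjoin A0 (F' l : Set B) :=
      ⟨_, rfl⟩
    obtain ⟨LA, hLA⟩ : ∃ LA : IntermediateField LA0 K,
      LA = IntermediateField.adjoin LA0 (F l.castSucc : Set K) := ⟨_, rfl⟩
    rw [← hA]
    rw [← hLA] at hd
    -- images
    have h0 : ∀ a ∈ A0, ((a : B) : K) ∈ LA0 := by
      let T : IntermediateField N B :=
        { carrier := {y | ((y : B) : K) ∈ LA0}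
          mul_mem' := fun {a b} ha hb => mul_mem (S := IntermediateField L K) (s := LA0) ha hb
          add_mem' := fun {a b} ha hb => add_mem (S := IntermediateField L K) (s := LA0) ha hb
          algebraMap_mem' := fun y => LA0.algebraMap_mem (y : L)
          inv_mem' := fun a ha => inv_mem (S := IntermediateField L K) (s := LA0) ha }
      have h1 : A0 ≤ T := by
        rw [hA0]
        unfold MF MJ
        rw [IntermediateField.adjoin_le_iff]
        intro y hy
        simp only [Set.mem_iUnion] at hy
        obtain ⟨i, hi, w, rfl⟩ := hy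
        rw [mem_Js] at hi
        change (((w : F' i) : B) : K) ∈ LA0
        rw [hLA0]
        exact mem_MJ (E := fun i => F i) _ (mem_Js.2 hi) ⟨_, (hmemF' i _).1 w.2⟩
      exact h1
    have h1 : ∀ a : A, (((a : A) : B) : K) ∈ LA.restrictScalars L := by
      let T : IntermediateField A0 B :=
        { carrier := {y | ((y : B) : K) ∈ LA}
          mul_mem' := fun {a b} ha hb => mul_mem (S := IntermediateField LA0 K) (s := LA) ha hb
          add_mem' := fun {a b} ha hb => add_mem (S := IntermediateField LA0 K) (s := LA) ha hb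
          algebraMap_mem' := fun y => LA.algebraMap_mem ⟨_, h0 _ y.2⟩
          inv_mem' := fun a ha => inv_mem (S := IntermediateField LA0 K) (s := LA) ha }
      have h2 : A ≤ T := by
        rw [hA, IntermediateField.adjoin_le_iff]
        intro y hy
        change ((y : B) : K) ∈ LA
        rw [hLA]
        exact IntermediateField.subset_adjoin _ _ ((hmemF' l y).1 hy)
      intro a
      exact h2 a.2
    -- `[A : N] ≤ [LA : L]`
    have hclN' : ∀ x : L, IsIntegral N x → ∃ y : N, algebraMap N L y = x := fun x hx =>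
      ⟨⟨x, hclN x hx.isAlgebraic⟩, rfl⟩
    have hchN : CharZero N := charZero_of_injective_algebraMap (algebraMap ℂ N).injective
    have e1 : finrank N A ≤ finrank L (LA.restrictScalars L) := by
      have hT1 : IsScalarTower N A K := IsScalarTower.of_algebraMap_eq fun _ => rfl
      have hf1 : FiniteDimensional N A0 := inferInstance
      have hf2 : FiniteDimensional A0 A := inferInstance
      have hf3 : FiniteDimensional N A := FiniteDimensional.trans N A0 A
      exact finrank_le_of_disj (N := N) (L := L) (A := A) (K := K) hclN' (LA.restrictScalars L) h1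
    -- `[LA0 : L] ≤ [A0 : N]`
    have e2 : finrank L LA0 ≤ finrank N A0 := by
      obtain ⟨hf1, hf2⟩ := adj_le (A0 := N) (A := A0) (R := L)
        ((algebraMap B K).comp (algebraMap A0 B)) (fun a => ⟨(a : L), rfl⟩)
      have hle : LA0 ≤ IntermediateField.adjoin L
          (Set.range ((algebraMap B K).comp (algebraMap A0 B))) := by
        rw [hLA0]
        unfold MF MJ
        rw [IntermediateField.adjoin_le_iff]
        intro y hy
        simp only [Set.mem_iUnion] at hy
        obtain ⟨i, hi, w, rfl⟩ := hy
        rw [mem_Js] at hi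
        have hin : i.val < n := lt_of_lt_of_le hi (by
          change l.val ≤ n
          omega)
        have hi' : i = (⟨i.val, hin⟩ : Fin n).castSucc := rfl
        have hwB : (w : K) ∈ B := hBle ⟨i.val, hin⟩ w.2
        have hw' : (⟨(w : K), hwB⟩ : B) ∈ A0 := by
          rw [hA0]
          exact mem_MJ (E := fun i => F' i) (i := (⟨i.val, hin⟩ : Fin n)) _ (mem_Js.2 hi)
            ⟨⟨(w : K), hwB⟩, (hmemF' _ _).2 w.2⟩
        exact IntermediateField.subset_adjoin _ _ ⟨⟨_, hw'⟩, rfl⟩
      refine (IntermediateField.finrank_le_of_le_right hle).trans hf2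
    have e3 : finrank N A0 * finrank A0 A = finrank N A := finrank_mul_finrank N A0 A
    have e4 : finrank L LA0 * finrank LA0 LA = finrank L (LA.restrictScalars L) :=
      finrank_mul_finrank L LA0 LA
    have e5 : 0 < finrank N A0 := finrank_pos
    have e6 : finrank A0 A ≤ finrank LA0 LA := by
      have h2 : finrank N A0 * finrank A0 A ≤ finrank N A0 * finrank LA0 LA := by
        calc finrank N A0 * finrank A0 A = finrank N A := e3
          _ ≤ finrank L (LA.restrictScalars L) := e1
          _ = finrank L LA0 * finrank LA0 LA := e4.symm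
          _ ≤ finrank N A0 * finrank LA0 LA := Nat.mul_le_mul_right _ e2
      exact Nat.le_of_mul_le_mul_left h2 e5
    change 2 * finrank A0 A < g l.castSucc
    omega

end

end Pool.Agent.N145.PC
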