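import Pool.Agent.N145.PC.Str3

/-!
The structure of the varieties dominated by products of curves, all except one of large gonality.
-/

set_option autoImplicit false
set_option linter.overlappingInstances false
set_option linter.unusedSectionVars false
set_option linter.unusedVariables false
set_option maxHeartbeats 4000000
set_option synthInstance.maxHeartbeats 400000

open Polynomial FF IsDedekindDomain IntermediateField Module

namespace Pool.Agent.N145.PC

open Pool.Agent.W603.LV Pool.Agent.W619.PQ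
open Pool.Agent.W602.GT (Divisorial RegAt IsPluri DerReg KodGe LogSec)
open Pool.Agent.Y184.NT (trForm trForm_pluri)

open scoped Classical

section

variable {K : Type} [Field K] [Algebra ℂ K] {n : ℕ}
  {L : Type} [Field L] [Algebra ℂ L] [Algebra L K] [IsScalarTower ℂ L K]
  [FiniteDimensional L K]

theorem Js_last : Js (n + 1) n = Finset.univ.erase (Fin.last n) := by
  ext l
  rw [mem_Js, Finset.mem_erase]
  constructor
  · intro h
    refine ⟨fun h' => ?_, Finset.mem_univ _⟩
    rw [h', Fin.val_last] at h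
    exact lt_irrefl _ h
  · rintro ⟨h, -⟩
    exact Fin.val_lt_last h

/-- **The structure theorem.** -/
theorem structure_thm [hess : Algebra.EssFiniteType ℂ K] {F : Fin (n + 1) → IntermediateField ℂ K}
    [∀ i, IsFF ℂ (F i)] (hsup : ⨆ i, F i = ⊤)
    (hK : Algebra.trdeg ℂ K = (n + 1 : ℕ)) {g : Fin (n + 1) → ℕ}
    (hg : ∀ i, ∀ y : F i, Transcendental ℂ y → g i ≤ finrank ℂ⟮y⟯ (F i))
    (hdeg : ∀ l : Fin (n + 1), l.val < n → 2 * finrank (MF F L (Js _ l))
      (IntermediateField.adjoin (MF F L (Js _ l)) (F l : Set K)) < g l) :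
    KodGe ℂ L (n + 1) (fun _ => False) n ∨ ∃ N : IntermediateField ℂ L,
      (∀ z : L, IsAlgebraic N z → z ∈ N) ∧ Algebra.trdeg ℂ N = n ∧
      KodGe ℂ N n (fun _ => False) n ∧ ∃ (M : Type) (_ : Field M) (_ : Algebra N M),
        Algebra.IsAlgebraic N M ∧ Nonempty (L →ₐ[N] RatFunc M) := by
  have hcl := closed_BB' hsup hK (Fin.last n)
  have hfin : (∃ s : AlgebraicClosure K,
      Transcendental (algebraicClosure (BB' F (Fin.last n)) (AlgebraicClosure K)) s ∧
      ∀ z : L, algebraMap K (AlgebraicClosure K) (algebraMap L K z) ∈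
        IntermediateField.adjoin (algebraicClosure (BB' F (Fin.last n)) (AlgebraicClosure K)) {s}) →
      ∃ N : IntermediateField ℂ L,
      (∀ z : L, IsAlgebraic N z → z ∈ N) ∧ Algebra.trdeg ℂ N = n ∧
      KodGe ℂ N n (fun _ => False) n ∧ ∃ (M : Type) (_ : Field M) (_ : Algebra N M),
        Algebra.IsAlgebraic N M ∧ Nonempty (L →ₐ[N] RatFunc M) := by
    rintro ⟨s, hs, hL⟩
    have halg : ∀ l : Fin (n + 1), l.val < n → ∀ z ∈ F l,
        IsAlgebraic ((BB' F (Fin.last n)).comap (IsScalarTower.toAlgHom ℂ L K)) z := by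
      intro l hl z hz
      refine alg_of_const _ hcl fun τ => ?_
      exact img_const (F := F) (g := g) _ hs hL hg (m := n)
        (fun l hl => lt_of_le_of_lt (by omega) (hdeg l hl)) τ l hl z hz
    obtain ⟨h1, h2, h3⟩ := base_general hsup hK hg hdeg halg
    exact ⟨_, fun z hz => closed_comap _ hcl hz, h2, h3, to_ratfunc _ hs hL h1⟩
  by_cases hlast : ∃ t : F (Fin.last n), ℂ⟮t⟯ = ⊤
  · exact Or.inr (hfin (geo_rat hsup hK hlast))
  have hL : Algebra.trdeg ℂ L = (n + 1 : ℕ) := Pool.Agent.Y184.NT.trdeg_below (K := K) hK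
  have hessL : Algebra.EssFiniteType ℂ L := Pool.Agent.TH466.QG.ess_below (K := K)
  choose x hx using fun i => IsFF.exists_transcendental (k := ℂ) (K := F i)
  have hrat : ∀ (i : Fin (n + 1)) (t : F i), ℂ⟮t⟯ ≠ ⊤ := by
    intro i t ht
    by_cases hi : i = Fin.last n
    · subst hi
      exact hlast ⟨t, ht⟩
    · have htt : Transcendental ℂ t := by
        intro h
        apply hx i
        have h1 : Algebra.IsAlgebraic ℂ ℂ⟮t⟯ :=
          IntermediateField.isAlgebraic_adjoin_simple h.isIntegral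
        have h2 : x i ∈ ℂ⟮t⟯ := by
          rw [ht]
          trivial
        have h3 := h1.isAlgebraic ⟨x i, h2⟩
        exact h3.algebraMap (A := F i)
      have h1 := hg i t htt
      rw [ht, IntermediateField.finrank_top] at h1
      have h2 := hdeg i (Fin.val_lt_last hi)
      have h3 : 0 < finrank (MF F L (Js _ i))
        (IntermediateField.adjoin (MF F L (Js _ i)) (F i : Set K)) := finrank_pos
      omega
  choose D0 hD0 using fun i => exists_D (hx i)
  have hD0' : ∀ i, D0 i ≠ 0 := by
    intro i h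
    have := hD0 i
    rw [h] at this
    simp at this
  have halg := Pool.Agent.W619.X.alg_of_sup F hsup
  have hb := Pool.Agent.W619.X.basis_of_alg F halg hK x hx
  obtain ⟨y, G, h, hy, hG, hh, hm, hreg, hval⟩ := exists_trace2 (L := L) hK hL hx hb hD0
  obtain ⟨τ0⟩ : Nonempty (K →ₐ[L] AlgebraicClosure L) :=
    ⟨IsAlgClosed.lift (R := L) (M := AlgebraicClosure L) (S := K)⟩
  have hT : IsScalarTower ℂ L (AlgebraicClosure L) := inferInstance
  choose f0 hf0 hf0' using fun i => exists_regular (k := ℂ) (F := F i)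
    (fun ⟨t, ht⟩ => hrat i t ht) (hD0' i)
  have hf0H : ∀ i, f0 i ∈ HH (D0 i) := fun i P => Or.inr (hf0' i P)
  have herase := geo_erase (L := L) hsup hK hx hD0 hf0 hf0H hval (Fin.last n)
  by_cases hT0 : ∃ f : {f : ∀ i, F i // ∀ i, f i ∈ HH (D0 i)},
      Algebra.trace L K (h * ∏ i, algebraMap (F i) K (f.1 i)) ≠ 0
  swap
  · -- all traces vanish
    right
    push Not at hT0
    have h0 := rel_zero (D0 := D0) (h := h) (fun f hf => hT0 ⟨f, hf⟩) τ0
    have hsep := fun i => sep_F (Ω := AlgebraicClosure L) hx hD0 (hg i)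
    have h1 := rel_chain h0 hsep (s := n) (fun l hl => lt_of_le_of_lt (by omega) (hdeg l hl))
    rw [Js_last] at h1
    exact hfin (herase fun f hf => rel_erase h1 f hf)
  · -- some trace does not vanish
    obtain ⟨f1, hf1⟩ := hT0
    obtain ⟨T, hTdef⟩ : ∃ T : {f : ∀ i, F i // ∀ i, f i ∈ HH (D0 i)} → L,
      ∀ f, T f = Algebra.trace L K (h * ∏ i, algebraMap (F i) K (f.1 i)) := ⟨_, fun _ => rfl⟩
    obtain ⟨Ω', iF, iA, iC, i1, i2, lam, hlam, hlamT, hpts⟩ := exists_pts T (f1 := f1)
      (by rw [hTdef]; exact hf1)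
    have h0 : Rl (P2 i1 i2 F L) (ev Ω' F) (fun i => (HH (D0 i) : Set (F i)))
        (C2 i1 i2 h lam) (Sum.inl τ0) ∅ :=
      rel2_zero i1 i2 (fun f hf => by
        have := hlamT ⟨f, hf⟩
        rw [hTdef] at this
        exact this) _
    have hsep := fun i => sep_F (Ω := Ω') hx hD0 (hg i)
    have h1 := Rl.chain h0 hsep (s := n)
      (fun l hl => lt_of_le_of_lt (count2_le i1 i2 τ0 _ l) (hdeg l hl))
    rw [Js_last] at h1
    rcases rel2_erase i1 i2 hlam h1 with ⟨τ, hτ⟩ | h3
    · left
      have hind : AlgebraicIndependent ℂ fun l : Fin n => algebraMap (F ((Fin.last n).succAbove l)) K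
          (x ((Fin.last n).succAbove l)) :=
        hb.1.comp (Fin.last n).succAbove Fin.succAbove_right_injective
      refine kodGe_of_alg hL hG T ⟨f1, by rw [hTdef]; exact hf1⟩ (fun f P hP => ?_)
        (trdeg_adj hind) fun l => ?_
      · rw [hTdef]
        exact hreg f.1 f.2 P hP
      · exact alg_back τ0 (hpts _ _ (hτ _ (Fin.succAbove_ne (Fin.last n) l)
          (x ((Fin.last n).succAbove l))).symm)
    · exact Or.inr (hfin (herase h3))

end

end Pool.Agent.N145.PC
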