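import Pool.Agent.N145.PC.Main
import Pool.Agent.N145.PC.Gen

/-!
The relation between the points of two fibres with the same canonical image.
-/

set_option autoImplicit false
set_option linter.overlappingInstances false
set_option linter.unusedSectionVars false
set_option linter.unusedVariables false
set_option maxHeartbeats 4000000
set_option synthInstance.maxHeartbeats 400000

open Polynomial FF IsDedekindDomain IntermediateField Module

namespace Pool.Agent.N145.PC

open Pool.Agent.W603.LV Pool.Agent.W619.PQ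
open Pool.Agent.W602.GT (Divisorial RegAt IsPluri DerReg)

open scoped Classical

section

variable {Ω T : Type} [Field Ω] [Fintype T] {n : ℕ} {S X : Fin n → Type}
  {p : ∀ i, T → S i} {e : ∀ i, X i → S i → Ω} {H : ∀ i, Set (X i)} {c : T → Ω} {τ0 : T}

theorem Rl.chain (h0 : Rl p e H c τ0 ∅) {g : Fin n → ℕ} (hsep : ∀ l, Sep (e l) (H l) (g l))
    {s : ℕ} (hs : ∀ l : Fin n, l.val < s → ((SJ p τ0 (Js n l)).image (p l)).card < g l) :
    Rl p e H c τ0 (Js n s) := by
  induction s with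
  | zero =>
    have : Js n 0 = ∅ := by
      ext l
      simp [mem_Js]
    rw [this]
    exact h0
  | succ s ih =>
    have h1 := ih fun l hl => hs l (by omega)
    by_cases hsn : s < n
    · have h2 : Js n (s + 1) = insert ⟨s, hsn⟩ (Js n s) := by
        ext l
        rw [Finset.mem_insert, mem_Js, mem_Js, Fin.ext_iff]
        change l.val < s + 1 ↔ l.val = s ∨ l.val < s
        omega
      rw [h2]
      exact Rl.step h1 (l := ⟨s, hsn⟩) (by rw [mem_Js]; exact lt_irrefl _) (hsep _)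
        (hs ⟨s, hsn⟩ (by simp))
    · have h2 : Js n (s + 1) = Js n s := by
        ext l
        rw [mem_Js, mem_Js]
        have := l.2
        omega
      rw [h2]
      exact h1

end

section

variable {K : Type} [Field K] [Algebra ℂ K] {n : ℕ} {F : Fin n → IntermediateField ℂ K}
  [∀ i, IsFF ℂ (F i)] {L Ω Ω' : Type} [Field L] [Field Ω] [Algebra ℂ L] [Algebra ℂ Ω]
  [Algebra L K] [IsScalarTower ℂ L K] [Algebra L Ω] [IsScalarTower ℂ L Ω]
  [FiniteDimensional L K] [IsAlgClosed Ω] [Field Ω'] [Algebra ℂ Ω'] (ι θ : Ω →ₐ[ℂ] Ω')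

/-- the coordinates of the points of two fibres -/
noncomputable def P2 (F : Fin n → IntermediateField ℂ K) (L : Type) [Field L] [Algebra ℂ L]
    [Algebra L K] [IsScalarTower ℂ L K] [Algebra L Ω] [IsScalarTower ℂ L Ω] (i : Fin n) :
    (K →ₐ[L] Ω) ⊕ (K →ₐ[L] Ω) → (F i →ₐ[ℂ] Ω') :=
  Sum.elim (fun τ => ι.comp (res (F i) τ)) (fun τ => θ.comp (res (F i) τ))

/-- the weights -/
noncomputable def C2 (h : K) (lam : Ω') : (K →ₐ[L] Ω) ⊕ (K →ₐ[L] Ω) → Ω' :=
  Sum.elim (fun τ => -(lam * ι (τ h))) (fun τ => θ (τ h))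

theorem rel2_zero {H : ∀ i, Set (F i)} {h : K} {lam : Ω'}
    (hlam : ∀ f : ∀ i, F i, (∀ i, f i ∈ H i) →
      θ (algebraMap L Ω (Algebra.trace L K (h * ∏ i, algebraMap (F i) K (f i)))) =
      lam * ι (algebraMap L Ω (Algebra.trace L K (h * ∏ i, algebraMap (F i) K (f i)))))
    (ρ0 : (K →ₐ[L] Ω) ⊕ (K →ₐ[L] Ω)) :
    Rl (P2 ι θ F L) (ev Ω' F) H (C2 ι θ h lam) ρ0 ∅ := by
  intro f hf
  have hchar : CharZero L := charZero_L
  have h1 := hlam f fun i => hf i (Finset.notMem_empty _)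
  have h2 := trace_eq_sum_embeddings (K := L) (L := K) Ω
    (x := h * ∏ i, algebraMap (F i) K (f i))
  rw [h2, map_sum, map_sum] at h1
  have h3 : SJ (P2 ι θ F L) ρ0 ∅ = Finset.univ := by
    ext ρ
    simp [mem_SJ]
  rw [h3, Fintype.sum_sum_type, Finset.compl_empty]
  have h4 : ∀ τ : K →ₐ[L] Ω, C2 ι θ h lam (Sum.inl τ) *
      ∏ i, ev Ω' F i (f i) (P2 ι θ F L i (Sum.inl τ)) =
      -(lam * ι (τ (h * ∏ i, algebraMap (F i) K (f i)))) := by
    intro τ
    rw [map_mul, map_mul, map_prod, map_prod, ← mul_assoc, ← neg_mul]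
    rfl
  have h5 : ∀ τ : K →ₐ[L] Ω, C2 ι θ h lam (Sum.inr τ) *
      ∏ i, ev Ω' F i (f i) (P2 ι θ F L i (Sum.inr τ)) =
      θ (τ (h * ∏ i, algebraMap (F i) K (f i))) := by
    intro τ
    rw [map_mul, map_mul, map_prod, map_prod]
    rfl
  rw [Finset.sum_congr rfl fun τ _ => h4 τ, Finset.sum_congr rfl fun τ _ => h5 τ, h1,
    Finset.sum_neg_distrib, ← Finset.mul_sum, neg_add_cancel]

/-- the points over a point -/
theorem exists_parts (τ0 : K →ₐ[L] Ω) (J : Finset (Fin n)) :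
    ∃ S1 : Finset (K →ₐ[L] Ω), (S1 = ∅ ∨ ∃ τ1, S1 =
      SJ (fun i => res (K := K) (L := L) (Ω := Ω) (F i)) τ1 J) ∧
      (∀ τ, Sum.inr τ ∈ SJ (P2 ι θ F L) (Sum.inl τ0) J ↔ τ ∈ S1) ∧
      SJ (P2 ι θ F L) (Sum.inl τ0) J =
        (SJ (fun i => res (K := K) (L := L) (Ω := Ω) (F i)) τ0 J).disjSum S1 := by
  have hι : ∀ (i : Fin n) (a b : F i →ₐ[ℂ] Ω), ι.comp a = ι.comp b ↔ a = b := by
    intro i a b
    constructor
    · intro h
      exact AlgHom.ext fun z => ι.injective (DFunLike.congr_fun h z)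
    · rintro rfl
      rfl
  have hθ : ∀ (i : Fin n) (a b : F i →ₐ[ℂ] Ω), θ.comp a = θ.comp b ↔ a = b := by
    intro i a b
    constructor
    · intro h
      exact AlgHom.ext fun z => θ.injective (DFunLike.congr_fun h z)
    · rintro rfl
      rfl
  obtain ⟨S1, hS1⟩ : ∃ S1 : Finset (K →ₐ[L] Ω), S1 = Finset.univ.filter fun τ =>
    Sum.inr τ ∈ SJ (P2 ι θ F L) (Sum.inl τ0) J := ⟨_, rfl⟩
  have hS1' : ∀ τ, Sum.inr τ ∈ SJ (P2 ι θ F L) (Sum.inl τ0) J ↔ τ ∈ S1 := by
    intro τ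
    rw [hS1]
    simp
  refine ⟨S1, ?_, hS1', ?_⟩
  · by_cases h : S1 = ∅
    · exact Or.inl h
    · right
      obtain ⟨τ1, h1⟩ := Finset.nonempty_iff_ne_empty.2 h
      refine ⟨τ1, ?_⟩
      have h2 := (hS1' τ1).2 h1
      rw [mem_SJ] at h2
      ext τ
      rw [← hS1', mem_SJ, mem_SJ]
      refine forall₂_congr fun i hi => ?_
      rw [← h2 i hi]
      exact hθ i _ _
  · ext ρ
    rcases ρ with τ | τ
    · rw [Finset.inl_mem_disjSum, mem_SJ, mem_SJ]
      exact forall₂_congr fun i hi => hι i _ _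
    · rw [Finset.inr_mem_disjSum, hS1']

theorem card2_le (τ0 : K →ₐ[L] Ω) (J : Finset (Fin n)) :
    (SJ (P2 ι θ F L) (Sum.inl τ0) J).card ≤ 2 * finrank (MF F L J) K := by
  obtain ⟨S1, h1, -, h2⟩ := exists_parts ι θ (F := F) τ0 J
  rw [h2, Finset.card_disjSum, card_le']
  rcases h1 with rfl | ⟨τ1, rfl⟩
  · rw [Finset.card_empty]
    omega
  · rw [card_le']
    omega

theorem count2_le (τ0 : K →ₐ[L] Ω) (J : Finset (Fin n)) (l : Fin n) :
    ((SJ (P2 ι θ F L) (Sum.inl τ0) J).image (P2 ι θ F L l)).card ≤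
      2 * finrank (MF F L J) (IntermediateField.adjoin (MF F L J) (F l : Set K)) := by
  obtain ⟨S1, h1, -, h2⟩ := exists_parts ι θ (F := F) τ0 J
  have h3 : (SJ (P2 ι θ F L) (Sum.inl τ0) J).image (P2 ι θ F L l) ⊆
      ((SJ (fun i => res (K := K) (L := L) (Ω := Ω) (F i)) τ0 J).image (res (F l))).image
        (fun a => ι.comp a) ∪ (S1.image (res (F l))).image (fun a => θ.comp a) := by
    rw [h2]
    intro σ hσ
    obtain ⟨ρ, hρ, rfl⟩ := Finset.mem_image.1 hσ
    rcases ρ with τ | τ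
    · rw [Finset.inl_mem_disjSum] at hρ
      exact Finset.mem_union_left _ (Finset.mem_image_of_mem _ (Finset.mem_image_of_mem _ hρ))
    · rw [Finset.inr_mem_disjSum] at hρ
      exact Finset.mem_union_right _ (Finset.mem_image_of_mem _ (Finset.mem_image_of_mem _ hρ))
  have h4 := Finset.card_le_card h3
  have h5 := Finset.card_union_le (((SJ (fun i => res (K := K) (L := L) (Ω := Ω) (F i)) τ0
    J).image (res (F l))).image (fun a => ι.comp a)) ((S1.image (res (F l))).image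
      (fun a => θ.comp a))
  have h6 := Finset.card_image_le (s := (SJ (fun i => res (K := K) (L := L) (Ω := Ω) (F i)) τ0
    J).image (res (F l))) (f := fun a => ι.comp a)
  have h7 := Finset.card_image_le (s := S1.image (res (F l))) (f := fun a => θ.comp a)
  have h8 := count_le (F := F) τ0 J l
  have h9 : (S1.image (res (F l))).card ≤
      finrank (MF F L J) (IntermediateField.adjoin (MF F L J) (F l : Set K)) := by
    rcases h1 with rfl | ⟨τ1, rfl⟩
    · simp
    · exact count_le (F := F) τ1 J l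
  omega

/-- all coordinates fixed: the point is in the second fibre -/
theorem rel2_univ {H : ∀ i, Set (F i)} {h : K} {lam : Ω'} (hlam : lam ≠ 0) {τ0 : K →ₐ[L] Ω}
    (hh : h ≠ 0) (hm : h ∈ MF F L Finset.univ)
    (h1 : Rl (P2 ι θ F L) (ev Ω' F) H (C2 ι θ h lam) (Sum.inl τ0) Finset.univ) :
    ∃ τ : K →ₐ[L] Ω, ∀ (i : Fin n) (z : F i), θ (τ z) = ι (τ0 z) := by
  obtain ⟨S1, h2, h3, h4⟩ := exists_parts ι θ (F := F) τ0 Finset.univ
  by_cases h5 : S1 = ∅
  swap
  · obtain ⟨τ, hτ⟩ := Finset.nonempty_iff_ne_empty.2 h5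
    have h6 := (h3 τ).2 hτ
    rw [mem_SJ] at h6
    exact ⟨τ, fun i z => DFunLike.congr_fun (h6 i (Finset.mem_univ i)) z⟩
  exfalso
  have h6 := h1 (fun _ => 0) (fun i hi => absurd (Finset.mem_univ i) hi)
  rw [h4, h5, Finset.compl_univ, Finset.disjSum_empty, Finset.sum_map] at h6
  have h7 : ∀ τ ∈ SJ (fun i => res (K := K) (L := L) (Ω := Ω) (F i)) τ0 Finset.univ,
      C2 ι θ h lam (Function.Embedding.inl τ) * ∏ i ∈ (∅ : Finset (Fin n)), ev Ω' F i 0
        (P2 ι θ F L i (Function.Embedding.inl τ)) = -(lam * ι (τ0 h)) := by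
    intro τ hτ
    rw [Finset.prod_empty, mul_one, ← (mem_iff τ0 _ τ).1 hτ h hm]
    rfl
  rw [Finset.sum_congr rfl h7, Finset.sum_const, nsmul_eq_mul] at h6
  have hchar : CharZero Ω' := charZero_of_injective_algebraMap (algebraMap ℂ Ω').injective
  rcases mul_eq_zero.1 h6 with h8 | h8
  · rw [Nat.cast_eq_zero, Finset.card_eq_zero] at h8
    exact absurd (self_SJ (p := fun i => res (K := K) (L := L) (Ω := Ω) (F i)) (τ0 := τ0)
      Finset.univ) (by rw [h8]; exact Finset.notMem_empty _)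
  · rw [neg_eq_zero] at h8
    rcases mul_eq_zero.1 h8 with h9 | h9
    · exact hlam h9
    · exact hh (by simpa using h9)

/-- all coordinates except one fixed: a trace relation, or a point of the second fibre -/
theorem rel2_erase {H : ∀ i, Set (F i)} {h : K} {lam : Ω'} (hlam : lam ≠ 0) {τ0 : K →ₐ[L] Ω}
    {i0 : Fin n}
    (h1 : Rl (P2 ι θ F L) (ev Ω' F) H (C2 ι θ h lam) (Sum.inl τ0) (Finset.univ.erase i0)) :
    (∃ τ : K →ₐ[L] Ω, ∀ i, i ≠ i0 → ∀ z : F i, θ (τ z) = ι (τ0 z)) ∨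
      ∀ f : ∀ i, F i, f i0 ∈ H i0 → Algebra.trace (MF F L (Finset.univ.erase i0)) K
        (h * ∏ i, algebraMap (F i) K (f i)) = 0 := by
  obtain ⟨S1, h2, h3, h4⟩ := exists_parts ι θ (F := F) τ0 (Finset.univ.erase i0)
  by_cases h5 : S1 = ∅
  swap
  · obtain ⟨τ, hτ⟩ := Finset.nonempty_iff_ne_empty.2 h5
    have h6 := (h3 τ).2 hτ
    rw [mem_SJ] at h6
    exact Or.inl ⟨τ, fun i hi z =>
      DFunLike.congr_fun (h6 i (Finset.mem_erase.2 ⟨hi, Finset.mem_univ i⟩)) z⟩
  right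
  intro f hf
  have h6 := h1 f (by
    intro i hi
    have : i = i0 := by
      by_contra hne
      exact hi (Finset.mem_erase.2 ⟨hne, Finset.mem_univ _⟩)
    subst this
    exact hf)
  have h8 : (Finset.univ.erase i0 : Finset (Fin n))ᶜ = {i0} := by
    ext i
    simp
  rw [h4, h5, h8, Finset.disjSum_empty, Finset.sum_map] at h6
  have h9 := sum_trace (MF F L (Finset.univ.erase i0)) τ0 _
    (mem_iff τ0 (Finset.univ.erase i0)) (h * ∏ i, algebraMap (F i) K (f i))
  have h10 : ∑ τ ∈ SJ (fun i => res (K := K) (L := L) (Ω := Ω) (F i)) τ0 (Finset.univ.erase i0),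
      τ (h * algebraMap (F i0) K (f i0)) = 0 := by
    have h11 : ∀ τ ∈ SJ (fun i => res (K := K) (L := L) (Ω := Ω) (F i)) τ0 (Finset.univ.erase i0),
        C2 ι θ h lam (Function.Embedding.inl τ) * ∏ i ∈ ({i0} : Finset (Fin n)), ev Ω' F i (f i)
          (P2 ι θ F L i (Function.Embedding.inl τ)) =
        (-lam) * ι (τ (h * algebraMap (F i0) K (f i0))) := by
      intro τ hτ
      rw [Finset.prod_singleton, map_mul, map_mul, ← mul_assoc, neg_mul]
      rfl
    rw [Finset.sum_congr rfl h11, ← Finset.mul_sum, ← map_sum] at h6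
    rcases mul_eq_zero.1 h6 with h12 | h12
    · exact absurd (neg_eq_zero.1 h12) hlam
    · exact (map_eq_zero_iff ι ι.injective).1 h12
  have h5 : ∑ τ ∈ SJ (fun i => res (K := K) (L := L) (Ω := Ω) (F i)) τ0 (Finset.univ.erase i0),
      τ (h * ∏ i, algebraMap (F i) K (f i)) = 0 := by
    have h6 : ∀ τ ∈ SJ (fun i => res (K := K) (L := L) (Ω := Ω) (F i)) τ0 (Finset.univ.erase i0),
        τ (h * ∏ i, algebraMap (F i) K (f i)) = τ (h * algebraMap (F i0) K (f i0)) *
          ∏ i ∈ Finset.univ.erase i0, τ0 (algebraMap (F i) K (f i)) := by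
      intro τ hτ
      rw [← Finset.mul_prod_erase _ _ (Finset.mem_univ i0), ← mul_assoc, map_mul, map_prod]
      congr 1
      refine Finset.prod_congr rfl fun i hi => ?_
      exact (mem_iff τ0 _ τ).1 hτ _ (mem_MJ (E := fun i => F i) _ hi (f i))
    rw [Finset.sum_congr rfl h6, ← Finset.sum_mul, h10, zero_mul]
  rw [h5] at h9
  have h12 := h9.symm
  rw [map_eq_zero, map_eq_zero] at h12
  exact h12

end

end Pool.Agent.N145.PC
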